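import Mathlib

/-!
# Regularity from local flips at many places: the abstract argument
-/

set_option autoImplicit false

namespace Q214.LO

open Finset
open scoped Classical

variable {α : Type*}

/-- one stage of the resampling -/
theorem stage (T : Finset α) (f : α → ℝ) (hf : ∀ ω ∈ T, 0 ≤ f ω) (A B : α → Prop) (τ : α → α)
    (K : ℝ) (hK : 0 ≤ K)
    (h1 : ∀ ω ∈ T, A ω → ¬ B ω → τ ω ∈ T ∧ A (τ ω) ∧ B (τ ω) ∧ f ω ≤ K * f (τ ω))
    (h2 : ∀ ω ∈ T, ∀ ω' ∈ T, A ω → ¬ B ω → A ω' → ¬ B ω' → τ ω = τ ω' → ω = ω') :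
    ∑ ω ∈ T.filter A, f ω ≤ (1 + K) * ∑ ω ∈ T.filter (fun ω => A ω ∧ B ω), f ω := by
  have e1 : ∑ ω ∈ T.filter A, f ω = ∑ ω ∈ T.filter (fun ω => A ω ∧ B ω), f ω +
      ∑ ω ∈ T.filter (fun ω => A ω ∧ ¬ B ω), f ω := by
    rw [← filter_filter, ← filter_filter, sum_filter_add_sum_filter_not]
  have e2 : ∑ ω ∈ T.filter (fun ω => A ω ∧ ¬ B ω), f ω ≤
      K * ∑ ω ∈ T.filter (fun ω => A ω ∧ B ω), f ω := by
    calc ∑ ω ∈ T.filter (fun ω => A ω ∧ ¬ B ω), f ω ≤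
          ∑ ω ∈ T.filter (fun ω => A ω ∧ ¬ B ω), K * f (τ ω) := by
          refine sum_le_sum fun ω hω => ?_
          rw [mem_filter] at hω
          exact (h1 ω hω.1 hω.2.1 hω.2.2).2.2.2
      _ = K * ∑ ω ∈ T.filter (fun ω => A ω ∧ ¬ B ω), f (τ ω) := by rw [mul_sum]
      _ = K * ∑ ω ∈ (T.filter (fun ω => A ω ∧ ¬ B ω)).image τ, f ω := by
          rw [sum_image]
          intro ω hω ω' hω' h
          rw [mem_coe, mem_filter] at hω hω'
          exact h2 ω hω.1 ω' hω'.1 hω.2.1 hω.2.2 hω'.2.1 hω'.2.2 h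
      _ ≤ K * ∑ ω ∈ T.filter (fun ω => A ω ∧ B ω), f ω := by
          refine mul_le_mul_of_nonneg_left (sum_le_sum_of_subset_of_nonneg ?_ ?_) hK
          · intro y hy
            rw [mem_image] at hy
            obtain ⟨ω, hω, rfl⟩ := hy
            rw [mem_filter] at hω
            obtain ⟨a1, a2, a3, -⟩ := h1 ω hω.1 hω.2.1 hω.2.2
            exact mem_filter.2 ⟨a1, a2, a3⟩
          · intro y hy _
            exact hf y (mem_filter.1 hy).1
  rw [e1]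
  linarith

/-- the number of good sites before `i` -/
noncomputable def cnt (G : ℕ → α → Prop) (i : ℕ) (ω : α) : ℕ := ((range i).filter (fun j => G j ω)).card

theorem cnt_succ (G : ℕ → α → Prop) (i : ℕ) (ω : α) :
    cnt G (i + 1) ω = cnt G i ω + if G i ω then 1 else 0 := by
  unfold cnt
  rw [range_add_one, filter_insert]
  split_ifs with h
  · rw [card_insert_of_notMem]
    simp
  · rfl

theorem theta (T : Finset α) (w : α → ℝ) (G : ℕ → α → Prop) (q θ : ℝ)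
    (hq : 0 ≤ q) (hq1 : q ≤ 1) (h0 : 0 ≤ θ) (h1 : θ ≤ 1) (m : ℕ)
    (h : ∀ i < m, q * ∑ ω ∈ T, w ω * θ ^ cnt G i ω ≤
      ∑ ω ∈ T.filter (G i), w ω * θ ^ cnt G i ω) :
    ∑ ω ∈ T, w ω * θ ^ cnt G m ω ≤ (1 - q * (1 - θ)) ^ m * ∑ ω ∈ T, w ω := by
  induction m with
  | zero => simp [cnt]
  | succ m ih =>
    have ih' := ih (fun i hi => h i (by omega))
    have hm := h m (by omega)
    have e : ∑ ω ∈ T, w ω * θ ^ cnt G (m + 1) ω = ∑ ω ∈ T, w ω * θ ^ cnt G m ω -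
        (1 - θ) * ∑ ω ∈ T.filter (G m), w ω * θ ^ cnt G m ω := by
      rw [sum_filter, mul_sum, ← sum_sub_distrib]
      refine sum_congr rfl fun ω _ => ?_
      rw [cnt_succ]
      split_ifs with h2
      · rw [pow_succ]
        ring
      · simp
    rw [e]
    have h2 : 0 ≤ 1 - q * (1 - θ) := by nlinarith
    calc ∑ ω ∈ T, w ω * θ ^ cnt G m ω -
          (1 - θ) * ∑ ω ∈ T.filter (G m), w ω * θ ^ cnt G m ω ≤
          ∑ ω ∈ T, w ω * θ ^ cnt G m ω -
          (1 - θ) * (q * ∑ ω ∈ T, w ω * θ ^ cnt G m ω) := by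
          have := mul_le_mul_of_nonneg_left hm (show 0 ≤ 1 - θ by linarith)
          linarith
      _ = (1 - q * (1 - θ)) * ∑ ω ∈ T, w ω * θ ^ cnt G m ω := by ring
      _ ≤ (1 - q * (1 - θ)) * ((1 - q * (1 - θ)) ^ m * ∑ ω ∈ T, w ω) :=
          mul_le_mul_of_nonneg_left ih' h2
      _ = (1 - q * (1 - θ)) ^ (m + 1) * ∑ ω ∈ T, w ω := by rw [pow_succ]; ring

theorem inv_cnt (T : Finset α) (w : α → ℝ) (hw : ∀ ω ∈ T, 0 ≤ w ω) (G : ℕ → α → Prop) (q : ℝ)
    (hq : 0 < q) (hq1 : q ≤ 1) (m : ℕ)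
    (h : ∀ i < m, ∀ θ : ℝ, 0 ≤ θ → θ ≤ 1 → q * ∑ ω ∈ T, w ω * θ ^ cnt G i ω ≤
      ∑ ω ∈ T.filter (G i), w ω * θ ^ cnt G i ω) :
    ∑ ω ∈ T, w ω / (cnt G m ω + 1) ≤ (∑ ω ∈ T, w ω) / (q * (m + 1)) := by
  have hW : 0 ≤ ∑ ω ∈ T, w ω := sum_nonneg hw
  have i1 : ∫ θ in (0 : ℝ)..1, ∑ ω ∈ T, w ω * θ ^ cnt G m ω = ∑ ω ∈ T, w ω / (cnt G m ω + 1) := by
    rw [intervalIntegral.integral_finsetSum]
    · refine sum_congr rfl fun ω _ => ?_
      rw [intervalIntegral.integral_const_mul, integral_pow]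
      simp [div_eq_mul_inv]
    · intro ω _
      exact (Continuous.intervalIntegrable (by fun_prop) _ _)
  have hder : ∀ θ : ℝ, HasDerivAt (fun θ : ℝ => (1 - q * (1 - θ)) ^ (m + 1) / (q * (m + 1)))
      ((1 - q * (1 - θ)) ^ m) θ := by
    intro θ
    have h1 : HasDerivAt (fun θ : ℝ => 1 - q * (1 - θ)) q θ := by
      have h2 : HasDerivAt (fun θ : ℝ => q * θ + (1 - q)) (q * 1) θ :=
        ((hasDerivAt_id θ).const_mul q).add_const (1 - q)
      rw [mul_one] at h2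
      refine h2.congr_of_eventuallyEq (Filter.Eventually.of_forall fun x => ?_)
      ring
    have h2 := (h1.pow (m + 1)).div_const (q * (m + 1))
    refine h2.congr_deriv ?_
    have : ((m : ℝ) + 1) ≠ 0 := by positivity
    push_cast
    field_simp
  have i2 : ∫ θ in (0 : ℝ)..1, (1 - q * (1 - θ)) ^ m =
      (1 - (1 - q) ^ (m + 1)) / (q * (m + 1)) := by
    rw [intervalIntegral.integral_eq_sub_of_hasDerivAt (fun θ _ => hder θ)
      (Continuous.intervalIntegrable (by fun_prop) _ _)]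
    rw [sub_self, mul_zero, sub_zero, one_pow, mul_one, ← sub_div]
  rw [← i1]
  calc ∫ θ in (0 : ℝ)..1, ∑ ω ∈ T, w ω * θ ^ cnt G m ω ≤
        ∫ θ in (0 : ℝ)..1, (1 - q * (1 - θ)) ^ m * ∑ ω ∈ T, w ω := by
        refine intervalIntegral.integral_mono_on (by norm_num)
          (Continuous.intervalIntegrable (by fun_prop) _ _)
          (Continuous.intervalIntegrable (by fun_prop) _ _) fun θ hθ => ?_
        exact theta T w G q θ hq.le hq1 hθ.1 hθ.2 m (fun i hi => h i hi θ hθ.1 hθ.2)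
    _ = (1 - (1 - q) ^ (m + 1)) / (q * (m + 1)) * ∑ ω ∈ T, w ω := by
        rw [intervalIntegral.integral_mul_const, i2]
    _ ≤ 1 / (q * (m + 1)) * ∑ ω ∈ T, w ω := by
        refine mul_le_mul_of_nonneg_right ?_ hW
        refine div_le_div_of_nonneg_right ?_ (by positivity)
        have : 0 ≤ (1 - q) ^ (m + 1) := pow_nonneg (by linarith) _
        linarith
    _ = (∑ ω ∈ T, w ω) / (q * (m + 1)) := by ring

/-- the flips -/
structure Flips (T : Finset α) (w : α → ℝ) (lam : ℝ) (m : ℕ) (G st : ℕ → α → Prop)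
    (f : ℕ → α → α) : Prop where
  mem : ∀ i < m, ∀ ω ∈ T, G i ω → f i ω ∈ T
  inv : ∀ i < m, ∀ ω ∈ T, G i ω → f i (f i ω) = ω
  good : ∀ i < m, ∀ ω ∈ T, G i ω → ∀ j < m, (G j (f i ω) ↔ G j ω)
  st_ne : ∀ i < m, ∀ ω ∈ T, G i ω → ∀ j < m, j ≠ i → (st j (f i ω) ↔ st j ω)
  st_eq : ∀ i < m, ∀ ω ∈ T, G i ω → (st i (f i ω) ↔ ¬ st i ω)
  wt : ∀ i < m, ∀ ω ∈ T, G i ω → ¬ st i ω → w (f i ω) = lam * w ω

variable {T : Finset α} {w : α → ℝ} {lam : ℝ} {m : ℕ} {G st : ℕ → α → Prop} {f : ℕ → α → α}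

theorem swap (F : Flips T w lam m G st f) (Φ : α → ℝ) :
    lam * ∑ ω ∈ T, w ω * ∑ i ∈ (range m).filter (fun i => G i ω ∧ ¬ st i ω), Φ (f i ω) =
      ∑ ω ∈ T, w ω * ((((range m).filter (fun i => G i ω ∧ st i ω)).card : ℝ) * Φ ω) := by
  have e1 : lam * ∑ ω ∈ T, w ω * ∑ i ∈ (range m).filter (fun i => G i ω ∧ ¬ st i ω), Φ (f i ω) =
      ∑ i ∈ range m, ∑ ω ∈ T.filter (fun ω => G i ω ∧ ¬ st i ω), lam * w ω * Φ (f i ω) := by
    rw [mul_sum]
    simp only [sum_filter]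
    rw [sum_comm]
    refine sum_congr rfl fun ω _ => ?_
    rw [mul_sum, mul_sum]
    refine sum_congr rfl fun i _ => ?_
    split_ifs <;> ring
  have e2 : ∑ ω ∈ T, w ω * ((((range m).filter (fun i => G i ω ∧ st i ω)).card : ℝ) * Φ ω) =
      ∑ i ∈ range m, ∑ ω ∈ T.filter (fun ω => G i ω ∧ st i ω), w ω * Φ ω := by
    simp only [sum_filter]
    rw [sum_comm]
    refine sum_congr rfl fun ω _ => ?_
    rw [← sum_filter, sum_const, nsmul_eq_mul]
    ring
  rw [e1, e2]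
  refine sum_congr rfl fun i hi => ?_
  rw [mem_range] at hi
  refine sum_nbij' (f i) (f i) ?_ ?_ ?_ ?_ ?_
  · intro ω hω
    rw [mem_filter] at hω ⊢
    exact ⟨F.mem i hi ω hω.1 hω.2.1, (F.good i hi ω hω.1 hω.2.1 i hi).2 hω.2.1,
      (F.st_eq i hi ω hω.1 hω.2.1).2 hω.2.2⟩
  · intro ω hω
    rw [mem_filter] at hω ⊢
    refine ⟨F.mem i hi ω hω.1 hω.2.1, (F.good i hi ω hω.1 hω.2.1 i hi).2 hω.2.1, fun h => ?_⟩
    exact (F.st_eq i hi ω hω.1 hω.2.1).1 h hω.2.2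
  · intro ω hω
    rw [mem_filter] at hω
    exact F.inv i hi ω hω.1 hω.2.1
  · intro ω hω
    rw [mem_filter] at hω
    exact F.inv i hi ω hω.1 hω.2.1
  · intro ω hω
    rw [mem_filter] at hω
    rw [F.wt i hi ω hω.1 hω.2.1 hω.2.2]

/-- number of sites in the upper state -/
noncomputable def n1 (m : ℕ) (G st : ℕ → α → Prop) (ω : α) : ℝ :=
  (((range m).filter (fun i => G i ω ∧ st i ω)).card : ℝ)

/-- number of sites in the lower state -/
noncomputable def n0 (m : ℕ) (G st : ℕ → α → Prop) (ω : α) : ℝ :=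
  (((range m).filter (fun i => G i ω ∧ ¬ st i ω)).card : ℝ)

theorem n0_add (m : ℕ) (G st : ℕ → α → Prop) (ω : α) :
    n0 m G st ω + n1 m G st ω = (cnt G m ω : ℝ) := by
  unfold n0 n1 cnt
  rw [← filter_filter, ← filter_filter, add_comm, ← Nat.cast_add,
    card_filter_add_card_filter_not]

theorem cnt_flip (F : Flips T w lam m G st f) {i : ℕ} (hi : i < m) {ω : α} (hω : ω ∈ T)
    (hg : G i ω) : cnt G m (f i ω) = cnt G m ω := by
  unfold cnt
  congr 1
  refine filter_congr fun j hj => ?_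
  exact F.good i hi ω hω hg j (mem_range.1 hj)

theorem n1_flip (F : Flips T w lam m G st f) {i : ℕ} (hi : i < m) {ω : α} (hω : ω ∈ T)
    (hg : G i ω) (hs : ¬ st i ω) : n1 m G st (f i ω) = n1 m G st ω + 1 := by
  unfold n1
  have e : (range m).filter (fun j => G j (f i ω) ∧ st j (f i ω)) =
      insert i ((range m).filter (fun j => G j ω ∧ st j ω)) := by
    ext j
    rw [mem_insert, mem_filter, mem_filter, mem_range]
    by_cases hj : j = i
    · subst hj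
      simp only [true_or, iff_true]
      exact ⟨hi, (F.good j hi ω hω hg j hi).2 hg, (F.st_eq j hi ω hω hg).2 hs⟩
    · constructor
      · rintro ⟨h1, h2, h3⟩
        exact Or.inr ⟨h1, (F.good i hi ω hω hg j h1).1 h2, (F.st_ne i hi ω hω hg j h1 hj).1 h3⟩
      · rintro (h | ⟨h1, h2, h3⟩)
        · exact absurd h hj
        · exact ⟨h1, (F.good i hi ω hω hg j h1).2 h2, (F.st_ne i hi ω hω hg j h1 hj).2 h3⟩
  rw [e, card_insert_of_notMem]
  · push_cast
    ring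
  · rw [mem_filter]
    exact fun h => hs h.2.2

theorem swap_h (F : Flips T w lam m G st f) (h : ℕ → ℝ) (u v : α → ℝ)
    (huv : ∀ i < m, ∀ ω ∈ T, G i ω → ¬ st i ω → u (f i ω) = v ω) :
    lam * ∑ ω ∈ T, w ω * (h (cnt G m ω) * n0 m G st ω * v ω) =
      ∑ ω ∈ T, w ω * (h (cnt G m ω) * n1 m G st ω * u ω) := by
  have h1 := swap F (fun ω => h (cnt G m ω) * u ω)
  have e1 : ∑ ω ∈ T, w ω * ∑ i ∈ (range m).filter (fun i => G i ω ∧ ¬ st i ω),
      (fun ω => h (cnt G m ω) * u ω) (f i ω) =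
      ∑ ω ∈ T, w ω * (h (cnt G m ω) * n0 m G st ω * v ω) := by
    refine sum_congr rfl fun ω hω => ?_
    congr 1
    have : ∀ i ∈ (range m).filter (fun i => G i ω ∧ ¬ st i ω),
        (fun ω => h (cnt G m ω) * u ω) (f i ω) = h (cnt G m ω) * v ω := by
      intro i hi
      rw [mem_filter, mem_range] at hi
      simp only
      rw [cnt_flip F hi.1 hω hi.2.1, huv i hi.1 ω hω hi.2.1 hi.2.2]
    rw [sum_congr rfl this, sum_const, nsmul_eq_mul]
    unfold n0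
    ring
  rw [e1] at h1
  rw [h1]
  refine sum_congr rfl fun ω _ => ?_
  unfold n1
  ring

/-- the first moment -/
theorem mom1 (F : Flips T w lam m G st f) (hlam : 0 < lam) (h : ℕ → ℝ) :
    ∑ ω ∈ T, w ω * (h (cnt G m ω) * n1 m G st ω) =
      lam / (1 + lam) * ∑ ω ∈ T, w ω * (h (cnt G m ω) * cnt G m ω) := by
  have h1 := swap_h F h (fun _ => 1) (fun _ => 1) (fun _ _ _ _ _ _ => rfl)
  simp only [mul_one] at h1
  have e : ∑ ω ∈ T, w ω * (h (cnt G m ω) * cnt G m ω) =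
      ∑ ω ∈ T, w ω * (h (cnt G m ω) * n0 m G st ω) +
      ∑ ω ∈ T, w ω * (h (cnt G m ω) * n1 m G st ω) := by
    rw [← sum_add_distrib]
    refine sum_congr rfl fun ω _ => ?_
    rw [← n0_add m G st ω]
    ring
  rw [e]
  have : (1 + lam) ≠ 0 := by positivity
  obtain ⟨a, ha⟩ : ∃ a, a = ∑ ω ∈ T, w ω * (h (cnt G m ω) * n0 m G st ω) := ⟨_, rfl⟩
  obtain ⟨b, hb⟩ : ∃ b, b = ∑ ω ∈ T, w ω * (h (cnt G m ω) * n1 m G st ω) := ⟨_, rfl⟩
  rw [← ha, ← hb] at h1 ⊢
  field_simp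
  linarith

/-- the second moment -/
theorem mom2 (F : Flips T w lam m G st f) (hlam : 0 < lam) (h : ℕ → ℝ) :
    ∑ ω ∈ T, w ω * (h (cnt G m ω) * (n1 m G st ω - lam / (1 + lam) * cnt G m ω) ^ 2) =
      lam / (1 + lam) ^ 2 * ∑ ω ∈ T, w ω * (h (cnt G m ω) * cnt G m ω) := by
  obtain ⟨p, hp⟩ : ∃ p, p = lam / (1 + lam) := ⟨_, rfl⟩
  have hl : (1 + lam) ≠ 0 := by positivity
  have h1 := swap_h F h (fun ω => n1 m G st ω) (fun ω => n1 m G st ω + 1)
    (fun i hi ω hω hg hs => n1_flip F hi hω hg hs)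
  have m1 := mom1 F hlam (fun k => h k * ((k : ℝ) - 1))
  have m2 := mom1 F hlam (fun k => h k * (k : ℝ))
  rw [← hp] at m1 m2 ⊢
  obtain ⟨S2, hS2⟩ : ∃ S2, S2 = ∑ ω ∈ T, w ω * (h (cnt G m ω) * n1 m G st ω ^ 2) := ⟨_, rfl⟩
  obtain ⟨K1, hK1⟩ : ∃ K1, K1 = ∑ ω ∈ T, w ω * (h (cnt G m ω) * (cnt G m ω : ℝ)) := ⟨_, rfl⟩
  obtain ⟨K2, hK2⟩ : ∃ K2, K2 = ∑ ω ∈ T, w ω * (h (cnt G m ω) * (cnt G m ω : ℝ) ^ 2) := ⟨_, rfl⟩
  obtain ⟨N1, hN1⟩ : ∃ N1, N1 = ∑ ω ∈ T, w ω * (h (cnt G m ω) * (cnt G m ω : ℝ) * n1 m G st ω) :=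
    ⟨_, rfl⟩
  obtain ⟨N0, hN0⟩ : ∃ N0, N0 = ∑ ω ∈ T, w ω * (h (cnt G m ω) * n1 m G st ω) := ⟨_, rfl⟩
  have m0 := mom1 F hlam h
  rw [← hp, ← hN0, ← hK1] at m0
  have a1 : lam * (N1 + K1 - S2 - N0) = S2 := by
    have b1 : ∑ ω ∈ T, w ω * (h (cnt G m ω) * n0 m G st ω * (n1 m G st ω + 1)) =
        N1 + K1 - S2 - N0 := by
      rw [hN1, hK1, hS2, hN0, ← sum_add_distrib, ← sum_sub_distrib, ← sum_sub_distrib]
      refine sum_congr rfl fun ω _ => ?_
      rw [← n0_add m G st ω]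
      ring
    have b2 : ∑ ω ∈ T, w ω * (h (cnt G m ω) * n1 m G st ω * n1 m G st ω) = S2 := by
      rw [hS2]
      exact sum_congr rfl fun ω _ => by ring
    rw [b1, b2] at h1
    exact h1
  have a2 : N1 - N0 = p * (K2 - K1) := by
    have b1 : ∑ ω ∈ T, w ω * (h (cnt G m ω) * ((cnt G m ω : ℝ) - 1) * n1 m G st ω) = N1 - N0 := by
      rw [hN1, hN0, ← sum_sub_distrib]
      exact sum_congr rfl fun ω _ => by ring
    have b2 : ∑ ω ∈ T, w ω * (h (cnt G m ω) * ((cnt G m ω : ℝ) - 1) * cnt G m ω) = K2 - K1 := by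
      rw [hK2, hK1, ← sum_sub_distrib]
      exact sum_congr rfl fun ω _ => by ring
    rw [b1, b2] at m1
    exact m1
  have a3 : N1 = p * K2 := by
    have b2 : ∑ ω ∈ T, w ω * (h (cnt G m ω) * (cnt G m ω : ℝ) * cnt G m ω) = K2 := by
      rw [hK2]
      exact sum_congr rfl fun ω _ => by ring
    rw [b2, ← hN1] at m2
    exact m2
  have a4 : ∑ ω ∈ T, w ω * (h (cnt G m ω) * (n1 m G st ω - p * cnt G m ω) ^ 2) =
      S2 - 2 * p * N1 + p ^ 2 * K2 := by
    rw [hS2, hN1, hK2, mul_sum, mul_sum, ← sum_sub_distrib, ← sum_add_distrib]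
    exact sum_congr rfl fun ω _ => by ring
  rw [a4, ← hK1]
  have a5 : (1 + lam) * S2 = lam * (N1 - N0 + K1) := by linarith
  have a6 : S2 = p * (p * (K2 - K1) + K1) := by
    rw [a2] at a5
    rw [hp] at a5 ⊢
    field_simp at a5 ⊢
    linarith
  rw [a6, a3]
  have a7 : lam / (1 + lam) ^ 2 = p * (1 - p) := by
    rw [hp]
    field_simp
    ring
  rw [a7]
  ring

/-- **the abstract theorem** -/
theorem regular (lam q : ℝ) (hlam : 0 < lam) (hq : 0 < q) (hq1 : q ≤ 1) (J : ℕ) :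
    ∃ C : ℝ, 0 < C ∧ ∀ {α : Type} (T : Finset α) (w : α → ℝ) (m : ℕ) (G G' st : ℕ → α → Prop)
      (f : ℕ → α → α), (∀ ω ∈ T, 0 ≤ w ω) → Flips T w lam m G' st f →
      (∀ i < m, ∀ θ : ℝ, 0 ≤ θ → θ ≤ 1 → q * ∑ ω ∈ T, w ω * θ ^ cnt G i ω ≤
        ∑ ω ∈ T.filter (G i), w ω * θ ^ cnt G i ω) →
      (∀ ω ∈ T, cnt G m ω ≤ cnt G' m ω + J) →
      ∀ u v : α → ℝ, (∀ ω, 0 ≤ u ω ∧ u ω ≤ 1) → (∀ ω, 0 ≤ v ω ∧ v ω ≤ 1) →
      (∀ i < m, ∀ ω ∈ T, G' i ω → ¬ st i ω → u (f i ω) = v ω) →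
      |∑ ω ∈ T, w ω * v ω - ∑ ω ∈ T, w ω * u ω| ≤ C / √((m : ℝ) + 1) * ∑ ω ∈ T, w ω := by
  obtain ⟨p, hp⟩ : ∃ p, p = lam / (1 + lam) := ⟨_, rfl⟩
  have hl : (0 : ℝ) < 1 + lam := by positivity
  have hp0 : 0 < p := by rw [hp]; positivity
  have hp1 : p ≤ 1 := by rw [hp, div_le_one hl]; linarith
  refine ⟨((J : ℝ) + 1) / q + (1 + lam) / p * ((1 + ((J : ℝ) + 2) / q) / 2), by positivity, ?_⟩
  intro α T w m G G' st f hw F hG hJ u v hu hv huv
  obtain ⟨W, hW⟩ : ∃ W, W = ∑ ω ∈ T, w ω := ⟨_, rfl⟩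
  have hW0 : 0 ≤ W := by rw [hW]; exact sum_nonneg hw
  rw [← hW]
  have hinv := inv_cnt T w hw G q hq hq1 m hG
  rw [← hW] at hinv
  obtain ⟨r, hr⟩ : ∃ r, r = √((m : ℝ) + 1) := ⟨_, rfl⟩
  have hr1 : 1 ≤ r := by
    rw [hr]
    refine Real.one_le_sqrt.2 ?_
    have : (0 : ℝ) ≤ m := Nat.cast_nonneg _
    linarith
  have hr0 : 0 < r := by linarith
  have hrr : r * r = (m : ℝ) + 1 := by rw [hr]; exact Real.mul_self_sqrt (by positivity)
  rw [← hr]
  rw [← hrr] at hinv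
  -- the deviation
  obtain ⟨y, hy⟩ : ∃ y : α → ℝ, y = fun ω => if cnt G' m ω = 0 then 0 else
      n1 m G' st ω / cnt G' m ω - p := ⟨_, rfl⟩
  have hbound : ∀ ω ∈ T, (if cnt G' m ω = 0 then 0 else 1 / (cnt G' m ω : ℝ)) ≤
      ((J : ℝ) + 2) * (1 / (cnt G m ω + 1)) := by
    intro ω hω
    split_ifs with h
    · positivity
    · have h1 := hJ ω hω
      have h2 : (1 : ℝ) ≤ cnt G' m ω := by exact_mod_cast Nat.one_le_iff_ne_zero.2 h
      have h3 : (cnt G m ω : ℝ) ≤ cnt G' m ω + J := by exact_mod_cast h1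
      have h4 : (0 : ℝ) < cnt G m ω + 1 := by positivity
      rw [mul_one_div, div_le_div_iff₀ (by linarith) h4]
      have h5 : (0 : ℝ) ≤ J := Nat.cast_nonneg _
      nlinarith
  have hbound0 : ∀ ω ∈ T, (if cnt G' m ω = 0 then (1 : ℝ) else 0) ≤
      ((J : ℝ) + 1) * (1 / (cnt G m ω + 1)) := by
    intro ω hω
    split_ifs with h
    · have h1 := hJ ω hω
      rw [h, zero_add] at h1
      have h3 : (cnt G m ω : ℝ) ≤ J := by exact_mod_cast h1
      rw [mul_one_div, one_le_div (by positivity)]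
      linarith
    · positivity
  have hy2 : ∑ ω ∈ T, w ω * y ω ^ 2 ≤ ((J : ℝ) + 2) * (W / (q * (r * r))) := by
    have h1 := mom2 F hlam (fun k => if k = 0 then 0 else 1 / (k : ℝ) ^ 2)
    rw [← hp] at h1
    have e1 : ∑ ω ∈ T, w ω * y ω ^ 2 = ∑ ω ∈ T, w ω * ((fun k : ℕ => if k = 0 then (0 : ℝ) else
        1 / (k : ℝ) ^ 2) (cnt G' m ω) * (n1 m G' st ω - p * cnt G' m ω) ^ 2) := by
      refine sum_congr rfl fun ω _ => ?_
      rw [hy]
      simp only
      split_ifs with h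
      · simp
      · have : (cnt G' m ω : ℝ) ≠ 0 := by exact_mod_cast h
        congr 1
        field_simp
    rw [e1, h1]
    have e2 : ∑ ω ∈ T, w ω * ((fun k : ℕ => if k = 0 then (0 : ℝ) else 1 / (k : ℝ) ^ 2)
        (cnt G' m ω) * cnt G' m ω) ≤ ((J : ℝ) + 2) * (W / (q * (r * r))) := by
      refine le_trans ?_ (mul_le_mul_of_nonneg_left hinv (by positivity))
      rw [mul_sum]
      refine sum_le_sum fun ω hω => ?_
      have h2 := hbound ω hω
      simp only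
      split_ifs at h2 ⊢ with h
      · rw [zero_mul, mul_zero]
        exact mul_nonneg (by positivity) (div_nonneg (hw ω hω) (by positivity))
      · have : (cnt G' m ω : ℝ) ≠ 0 := by exact_mod_cast h
        have e3 : 1 / (cnt G' m ω : ℝ) ^ 2 * cnt G' m ω = 1 / (cnt G' m ω : ℝ) := by
          field_simp
        rw [e3]
        calc w ω * (1 / (cnt G' m ω : ℝ)) ≤ w ω * (((J : ℝ) + 2) * (1 / (cnt G m ω + 1))) :=
              mul_le_mul_of_nonneg_left h2 (hw ω hω)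
          _ = ((J : ℝ) + 2) * (w ω / (cnt G m ω + 1)) := by ring
    have e4 : lam / (1 + lam) ^ 2 ≤ 1 := by
      rw [div_le_one (by positivity)]
      nlinarith
    have e5 : 0 ≤ ∑ ω ∈ T, w ω * ((fun k : ℕ => if k = 0 then (0 : ℝ) else 1 / (k : ℝ) ^ 2)
        (cnt G' m ω) * cnt G' m ω) := by
      refine sum_nonneg fun ω hω => mul_nonneg (hw ω hω) ?_
      simp only
      split_ifs
      · simp
      · positivity
    calc lam / (1 + lam) ^ 2 * ∑ ω ∈ T, w ω * ((fun k : ℕ => if k = 0 then (0 : ℝ) else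
          1 / (k : ℝ) ^ 2) (cnt G' m ω) * cnt G' m ω) ≤
          1 * ∑ ω ∈ T, w ω * ((fun k : ℕ => if k = 0 then (0 : ℝ) else
          1 / (k : ℝ) ^ 2) (cnt G' m ω) * cnt G' m ω) := mul_le_mul_of_nonneg_right e4 e5
      _ ≤ _ := by rw [one_mul]; exact e2
  have hy1 : ∑ ω ∈ T, w ω * |y ω| ≤ (1 + ((J : ℝ) + 2) / q) / 2 * (W / r) := by
    have h1 : ∀ ω ∈ T, w ω * |y ω| ≤ (1 / r * w ω + r * (w ω * y ω ^ 2)) / 2 := by
      intro ω hω
      have h2 : |y ω| ≤ (1 / r + r * y ω ^ 2) / 2 := by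
        have h3 : 0 ≤ (1 - r * |y ω|) ^ 2 / r := by positivity
        have h4 : (1 - r * |y ω|) ^ 2 / r = 1 / r - 2 * |y ω| + r * y ω ^ 2 := by
          rw [← sq_abs (y ω)]
          field_simp
          ring
        linarith
      have h5 := mul_le_mul_of_nonneg_left h2 (hw ω hω)
      refine h5.trans (le_of_eq ?_)
      ring
    refine (sum_le_sum h1).trans ?_
    rw [← sum_div, sum_add_distrib, ← mul_sum, ← mul_sum, ← hW]
    have h3 : r * ∑ ω ∈ T, w ω * y ω ^ 2 ≤ ((J : ℝ) + 2) / q * (W / r) := by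
      refine (mul_le_mul_of_nonneg_left hy2 hr0.le).trans (le_of_eq ?_)
      field_simp
    calc (1 / r * W + r * ∑ ω ∈ T, w ω * y ω ^ 2) / 2 ≤
          (1 / r * W + ((J : ℝ) + 2) / q * (W / r)) / 2 := by linarith
      _ = _ := by ring
  -- the identity
  have hid := swap_h F (fun k => if k = 0 then 0 else 1 / (k : ℝ)) u v huv
  have e1 : p * (∑ ω ∈ T, w ω * ((if cnt G' m ω = 0 then 0 else 1) * (v ω - u ω))) =
      ∑ ω ∈ T, w ω * (y ω * (lam * v ω + u ω)) := by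
    have b1 : ∀ ω ∈ T, p * (w ω * ((if cnt G' m ω = 0 then 0 else 1) * (v ω - u ω))) -
        w ω * (y ω * (lam * v ω + u ω)) =
        lam * (w ω * ((fun k : ℕ => if k = 0 then (0 : ℝ) else 1 / (k : ℝ)) (cnt G' m ω) *
          n0 m G' st ω * v ω)) -
        w ω * ((fun k : ℕ => if k = 0 then (0 : ℝ) else 1 / (k : ℝ)) (cnt G' m ω) *
          n1 m G' st ω * u ω) := by
      intro ω _
      rw [hy]
      simp only
      split_ifs with h
      · simp
      · have h1 : (cnt G' m ω : ℝ) ≠ 0 := by exact_mod_cast h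
        have h2 : n0 m G' st ω = cnt G' m ω - n1 m G' st ω := by
          rw [← n0_add m G' st ω]
          ring
        have h3 : lam * (1 - p) = p := by
          rw [hp]
          field_simp
          ring
        rw [h2]
        have h4 : 1 / (cnt G' m ω : ℝ) * (cnt G' m ω - n1 m G' st ω) =
            1 - n1 m G' st ω / cnt G' m ω := by field_simp
        have h5 : 1 / (cnt G' m ω : ℝ) * n1 m G' st ω = n1 m G' st ω / cnt G' m ω := by ring
        rw [h4, h5]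
        have h6 : p * (w ω * (1 * (v ω - u ω))) -
            w ω * ((n1 m G' st ω / cnt G' m ω - p) * (lam * v ω + u ω)) -
            (lam * (w ω * ((1 - n1 m G' st ω / cnt G' m ω) * v ω)) -
            w ω * (n1 m G' st ω / cnt G' m ω * u ω)) = (p - lam * (1 - p)) * (w ω * v ω) := by
          ring
        rw [h3, sub_self, zero_mul] at h6
        linarith
    have b2 := sum_congr rfl b1
    rw [sum_sub_distrib, sum_sub_distrib, ← mul_sum, ← mul_sum] at b2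
    linarith
  have e2 : |∑ ω ∈ T, w ω * (y ω * (lam * v ω + u ω))| ≤ (1 + lam) * ∑ ω ∈ T, w ω * |y ω| := by
    rw [mul_sum]
    refine (abs_sum_le_sum_abs _ _).trans (sum_le_sum fun ω hω => ?_)
    rw [abs_mul, abs_mul, abs_of_nonneg (hw ω hω)]
    have h1 : |lam * v ω + u ω| ≤ 1 + lam := by
      have a1 := hv ω
      have a2 := hu ω
      have a3 : 0 ≤ lam * v ω := mul_nonneg hlam.le a1.1
      have a4 : lam * v ω ≤ lam * 1 := mul_le_mul_of_nonneg_left a1.2 hlam.le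
      rw [abs_le]
      constructor <;> linarith
    calc w ω * (|y ω| * |lam * v ω + u ω|) ≤ w ω * (|y ω| * (1 + lam)) :=
          mul_le_mul_of_nonneg_left (mul_le_mul_of_nonneg_left h1 (abs_nonneg _)) (hw ω hω)
      _ = (1 + lam) * (w ω * |y ω|) := by ring
  have e3 : |∑ ω ∈ T, w ω * ((if cnt G' m ω = 0 then 0 else 1) * (v ω - u ω))| ≤
      (1 + lam) / p * ((1 + ((J : ℝ) + 2) / q) / 2) * (W / r) := by
    have h1 : |p * ∑ ω ∈ T, w ω * ((if cnt G' m ω = 0 then 0 else 1) * (v ω - u ω))| ≤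
        (1 + lam) * ((1 + ((J : ℝ) + 2) / q) / 2 * (W / r)) := by
      rw [e1]
      exact e2.trans (mul_le_mul_of_nonneg_left hy1 hl.le)
    rw [abs_mul, abs_of_pos hp0] at h1
    calc |∑ ω ∈ T, w ω * ((if cnt G' m ω = 0 then 0 else 1) * (v ω - u ω))| =
          (p * |∑ ω ∈ T, w ω * ((if cnt G' m ω = 0 then 0 else 1) * (v ω - u ω))|) / p := by
          field_simp
      _ ≤ ((1 + lam) * ((1 + ((J : ℝ) + 2) / q) / 2 * (W / r))) / p :=
          div_le_div_of_nonneg_right h1 hp0.le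
      _ = _ := by ring
  have e4 : |∑ ω ∈ T, w ω * ((if cnt G' m ω = 0 then 1 else 0) * (v ω - u ω))| ≤
      ((J : ℝ) + 1) / q * (W / r) := by
    calc |∑ ω ∈ T, w ω * ((if cnt G' m ω = 0 then 1 else 0) * (v ω - u ω))| ≤
          ∑ ω ∈ T, ((J : ℝ) + 1) * (w ω / (cnt G m ω + 1)) := by
          refine (abs_sum_le_sum_abs _ _).trans (sum_le_sum fun ω hω => ?_)
          have h1 := hbound0 ω hω
          have h2 : |v ω - u ω| ≤ 1 := by
            have a1 := hv ω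
            have a2 := hu ω
            rw [abs_le]
            constructor <;> linarith
          rw [abs_mul, abs_mul, abs_of_nonneg (hw ω hω)]
          have h3 : |(if cnt G' m ω = 0 then (1 : ℝ) else 0)| =
              (if cnt G' m ω = 0 then (1 : ℝ) else 0) := by
            split_ifs <;> simp
          rw [h3]
          have h4 : (0 : ℝ) ≤ (if cnt G' m ω = 0 then (1 : ℝ) else 0) := by split_ifs <;> norm_num
          calc w ω * ((if cnt G' m ω = 0 then (1 : ℝ) else 0) * |v ω - u ω|) ≤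
                w ω * ((if cnt G' m ω = 0 then (1 : ℝ) else 0) * 1) :=
                mul_le_mul_of_nonneg_left (mul_le_mul_of_nonneg_left h2 h4) (hw ω hω)
            _ ≤ w ω * (((J : ℝ) + 1) * (1 / (cnt G m ω + 1))) := by
                rw [mul_one]
                exact mul_le_mul_of_nonneg_left h1 (hw ω hω)
            _ = ((J : ℝ) + 1) * (w ω / (cnt G m ω + 1)) := by ring
      _ = ((J : ℝ) + 1) * ∑ ω ∈ T, w ω / (cnt G m ω + 1) := by rw [mul_sum]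
      _ ≤ ((J : ℝ) + 1) * (W / (q * (r * r))) :=
          mul_le_mul_of_nonneg_left hinv (by positivity)
      _ = ((J : ℝ) + 1) / q * (W / r) * (1 / r) := by field_simp
      _ ≤ ((J : ℝ) + 1) / q * (W / r) * 1 := by
          refine mul_le_mul_of_nonneg_left ?_ (by positivity)
          rw [div_le_one hr0]
          exact hr1
      _ = _ := by ring
  have e5 : ∑ ω ∈ T, w ω * v ω - ∑ ω ∈ T, w ω * u ω =
      ∑ ω ∈ T, w ω * ((if cnt G' m ω = 0 then 0 else 1) * (v ω - u ω)) +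
      ∑ ω ∈ T, w ω * ((if cnt G' m ω = 0 then 1 else 0) * (v ω - u ω)) := by
    rw [← sum_sub_distrib, ← sum_add_distrib]
    refine sum_congr rfl fun ω _ => ?_
    split_ifs <;> ring
  rw [e5]
  refine (abs_add_le _ _).trans ?_
  calc _ ≤ (1 + lam) / p * ((1 + ((J : ℝ) + 2) / q) / 2) * (W / r) +
        ((J : ℝ) + 1) / q * (W / r) := add_le_add e3 e4
    _ = _ := by ring

end Q214.LO
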