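import Pool.Agent.Q214.LO.Abs

/-!
# Regularity from local flips: functionals which are changed by few downward flips
-/

set_option autoImplicit false

namespace Q214.LO

open Finset
open scoped Classical

variable {α : Type*} {T : Finset α} {w : α → ℝ} {lam : ℝ} {m : ℕ} {G st : ℕ → α → Prop}
  {f : ℕ → α → α}

theorem swap_rev (F : Flips T w lam m G st f) (Φ : α → ℝ) :
    ∑ ω ∈ T, w ω * ∑ i ∈ (range m).filter (fun i => G i ω ∧ st i ω), Φ (f i ω) =
      lam * ∑ ω ∈ T, w ω * (n0 m G st ω * Φ ω) := by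
  have e1 : ∑ ω ∈ T, w ω * ∑ i ∈ (range m).filter (fun i => G i ω ∧ st i ω), Φ (f i ω) =
      ∑ i ∈ range m, ∑ ω ∈ T.filter (fun ω => G i ω ∧ st i ω), w ω * Φ (f i ω) := by
    simp only [sum_filter]
    rw [sum_comm]
    refine sum_congr rfl fun ω _ => ?_
    rw [mul_sum]
    refine sum_congr rfl fun i _ => ?_
    split_ifs <;> ring
  have e2 : lam * ∑ ω ∈ T, w ω * (n0 m G st ω * Φ ω) =
      ∑ i ∈ range m, ∑ ω ∈ T.filter (fun ω => G i ω ∧ ¬ st i ω), lam * w ω * Φ ω := by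
    rw [mul_sum]
    simp only [sum_filter]
    rw [sum_comm]
    refine sum_congr rfl fun ω _ => ?_
    rw [← sum_filter, sum_const, nsmul_eq_mul]
    unfold n0
    ring
  rw [e1, e2]
  refine sum_congr rfl fun i hi => ?_
  rw [mem_range] at hi
  refine sum_nbij' (f i) (f i) ?_ ?_ ?_ ?_ ?_
  · intro ω hω
    rw [mem_filter] at hω ⊢
    refine ⟨F.mem i hi ω hω.1 hω.2.1, (F.good i hi ω hω.1 hω.2.1 i hi).2 hω.2.1, fun h => ?_⟩
    exact (F.st_eq i hi ω hω.1 hω.2.1).1 h hω.2.2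
  · intro ω hω
    rw [mem_filter] at hω ⊢
    exact ⟨F.mem i hi ω hω.1 hω.2.1, (F.good i hi ω hω.1 hω.2.1 i hi).2 hω.2.1,
      (F.st_eq i hi ω hω.1 hω.2.1).2 hω.2.2⟩
  · intro ω hω
    rw [mem_filter] at hω
    exact F.inv i hi ω hω.1 hω.2.1
  · intro ω hω
    rw [mem_filter] at hω
    exact F.inv i hi ω hω.1 hω.2.1
  · intro ω hω
    rw [mem_filter] at hω
    have hm := F.mem i hi ω hω.1 hω.2.1
    have hG' := (F.good i hi ω hω.1 hω.2.1 i hi).2 hω.2.1
    have hs' : ¬ st i (f i ω) := fun h => (F.st_eq i hi ω hω.1 hω.2.1).1 h hω.2.2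
    have h1 := F.wt i hi (f i ω) hm hG' hs'
    rw [F.inv i hi ω hω.1 hω.2.1] at h1
    rw [← h1]

/-- **the abstract theorem for few downward influences** -/
theorem regular2 (lam q : ℝ) (hlam : 0 < lam) (hq : 0 < q) (hq1 : q ≤ 1) (J : ℕ) :
    ∃ C : ℝ, 0 < C ∧ ∀ {α : Type} (T : Finset α) (w : α → ℝ) (m : ℕ) (G st : ℕ → α → Prop)
      (f : ℕ → α → α), (∀ ω ∈ T, 0 ≤ w ω) → Flips T w lam m G st f →
      (∀ i < m, ∀ θ : ℝ, 0 ≤ θ → θ ≤ 1 → q * ∑ ω ∈ T, w ω * θ ^ cnt G i ω ≤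
        ∑ ω ∈ T.filter (G i), w ω * θ ^ cnt G i ω) →
      ∀ u v : α → ℝ, (∀ ω, 0 ≤ u ω ∧ u ω ≤ 1) → (∀ ω, 0 ≤ v ω ∧ v ω ≤ 1) →
      (∀ ω ∈ T, ((range m).filter (fun i => G i ω ∧ st i ω ∧ v (f i ω) ≠ u ω)).card ≤ J) →
      |∑ ω ∈ T, w ω * v ω - ∑ ω ∈ T, w ω * u ω| ≤ C / √((m : ℝ) + 1) * ∑ ω ∈ T, w ω := by
  obtain ⟨p, hp⟩ : ∃ p, p = lam / (1 + lam) := ⟨_, rfl⟩
  have hl : (0 : ℝ) < 1 + lam := by positivity
  have hp0 : 0 < p := by rw [hp]; positivity
  refine ⟨1 / q + (1 + lam) / p * ((1 + 2 / q) / 2) + (J * 2) / (q * p), by positivity, ?_⟩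
  intro α T w m G st f hw F hG u v hu hv huv
  obtain ⟨W, hW⟩ : ∃ W, W = ∑ ω ∈ T, w ω := ⟨_, rfl⟩
  have hW0 : 0 ≤ W := by rw [hW]; exact sum_nonneg hw
  rw [← hW]
  have hinv := inv_cnt T w hw G q hq hq1 m hG
  rw [← hW] at hinv
  obtain ⟨r, hr⟩ : ∃ r, r = √((m : ℝ) + 1) := ⟨_, rfl⟩
  have hr1 : 1 ≤ r := by
    rw [hr]
    refine Real.one_le_sqrt.2 ?_
    have : (0 : ℝ) ≤ m := Nat.cast_nonneg _
    linarith
  have hr0 : 0 < r := by linarith
  have hrr : r * r = (m : ℝ) + 1 := by rw [hr]; exact Real.mul_self_sqrt (by positivity)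
  rw [← hr]
  rw [← hrr] at hinv
  have hWr : W / (q * (r * r)) ≤ 1 / q * (W / r) := by
    have e : W / (q * (r * r)) = 1 / q * (W / r) * (1 / r) := by field_simp
    rw [e]
    calc 1 / q * (W / r) * (1 / r) ≤ 1 / q * (W / r) * 1 := by
          refine mul_le_mul_of_nonneg_left ?_ (by positivity)
          rw [div_le_one hr0]
          exact hr1
      _ = _ := mul_one _
  -- the deviation
  obtain ⟨y, hy⟩ : ∃ y : α → ℝ, y = fun ω => if cnt G m ω = 0 then 0 else
      n1 m G st ω / cnt G m ω - p := ⟨_, rfl⟩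
  obtain ⟨h, hh⟩ : ∃ h : ℕ → ℝ, h = fun k : ℕ => if k = 0 then 0 else 1 / (k : ℝ) := ⟨_, rfl⟩
  have hh0 : ∀ k, 0 ≤ h k := by
    intro k
    rw [hh]
    simp only
    split_ifs
    · exact le_rfl
    · positivity
  have hbound : ∀ ω, h (cnt G m ω) ≤ 2 * (1 / (cnt G m ω + 1)) := by
    intro ω
    rw [hh]
    simp only
    split_ifs with h1
    · positivity
    · have h2 : (1 : ℝ) ≤ cnt G m ω := by exact_mod_cast Nat.one_le_iff_ne_zero.2 h1
      rw [mul_one_div, div_le_div_iff₀ (by linarith) (by positivity)]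
      linarith
  have hsumh : ∑ ω ∈ T, w ω * h (cnt G m ω) ≤ 2 * (W / (q * (r * r))) := by
    refine le_trans ?_ (mul_le_mul_of_nonneg_left hinv (by norm_num))
    rw [mul_sum]
    refine sum_le_sum fun ω hω => ?_
    calc w ω * h (cnt G m ω) ≤ w ω * (2 * (1 / (cnt G m ω + 1))) :=
          mul_le_mul_of_nonneg_left (hbound ω) (hw ω hω)
      _ = 2 * (w ω / (cnt G m ω + 1)) := by ring
  have hbound0 : ∀ ω ∈ T, (if cnt G m ω = 0 then (1 : ℝ) else 0) ≤ 1 / (cnt G m ω + 1) := by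
    intro ω _
    split_ifs with h1
    · rw [h1]
      norm_num
    · positivity
  have hy2 : ∑ ω ∈ T, w ω * y ω ^ 2 ≤ 2 * (W / (q * (r * r))) := by
    have h1 := mom2 F hlam (fun k => if k = 0 then 0 else 1 / (k : ℝ) ^ 2)
    rw [← hp] at h1
    have e1 : ∑ ω ∈ T, w ω * y ω ^ 2 = ∑ ω ∈ T, w ω * ((fun k : ℕ => if k = 0 then (0 : ℝ) else
        1 / (k : ℝ) ^ 2) (cnt G m ω) * (n1 m G st ω - p * cnt G m ω) ^ 2) := by
      refine sum_congr rfl fun ω _ => ?_
      rw [hy]
      simp only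
      split_ifs with h
      · simp
      · have : (cnt G m ω : ℝ) ≠ 0 := by exact_mod_cast h
        congr 1
        field_simp
    rw [e1, h1]
    have e2 : ∑ ω ∈ T, w ω * ((fun k : ℕ => if k = 0 then (0 : ℝ) else 1 / (k : ℝ) ^ 2)
        (cnt G m ω) * cnt G m ω) = ∑ ω ∈ T, w ω * h (cnt G m ω) := by
      refine sum_congr rfl fun ω _ => ?_
      rw [hh]
      simp only
      split_ifs with h
      · simp
      · have : (cnt G m ω : ℝ) ≠ 0 := by exact_mod_cast h
        congr 1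
        field_simp
    rw [e2]
    have e4 : lam / (1 + lam) ^ 2 ≤ 1 := by
      rw [div_le_one (by positivity)]
      nlinarith
    have e5 : 0 ≤ ∑ ω ∈ T, w ω * h (cnt G m ω) :=
      sum_nonneg fun ω hω => mul_nonneg (hw ω hω) (hh0 _)
    calc lam / (1 + lam) ^ 2 * ∑ ω ∈ T, w ω * h (cnt G m ω) ≤
          1 * ∑ ω ∈ T, w ω * h (cnt G m ω) := mul_le_mul_of_nonneg_right e4 e5
      _ ≤ _ := by rw [one_mul]; exact hsumh
  have hy1 : ∑ ω ∈ T, w ω * |y ω| ≤ (1 + 2 / q) / 2 * (W / r) := by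
    have h1 : ∀ ω ∈ T, w ω * |y ω| ≤ (1 / r * w ω + r * (w ω * y ω ^ 2)) / 2 := by
      intro ω hω
      have h2 : |y ω| ≤ (1 / r + r * y ω ^ 2) / 2 := by
        have h3 : 0 ≤ (1 - r * |y ω|) ^ 2 / r := by positivity
        have h4 : (1 - r * |y ω|) ^ 2 / r = 1 / r - 2 * |y ω| + r * y ω ^ 2 := by
          rw [← sq_abs (y ω)]
          field_simp
          ring
        linarith
      have h5 := mul_le_mul_of_nonneg_left h2 (hw ω hω)
      refine h5.trans (le_of_eq ?_)
      ring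
    refine (sum_le_sum h1).trans ?_
    rw [← sum_div, sum_add_distrib, ← mul_sum, ← mul_sum, ← hW]
    have h3 : r * ∑ ω ∈ T, w ω * y ω ^ 2 ≤ 2 / q * (W / r) := by
      refine (mul_le_mul_of_nonneg_left hy2 hr0.le).trans (le_of_eq ?_)
      field_simp
    calc (1 / r * W + r * ∑ ω ∈ T, w ω * y ω ^ 2) / 2 ≤
          (1 / r * W + 2 / q * (W / r)) / 2 := by linarith
      _ = _ := by ring
  -- the identity up to an error
  have hid : |lam * ∑ ω ∈ T, w ω * (h (cnt G m ω) * n0 m G st ω * v ω) -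
      ∑ ω ∈ T, w ω * (h (cnt G m ω) * n1 m G st ω * u ω)| ≤
      J * (2 * (W / (q * (r * r)))) := by
    have h1 := swap_rev F (fun ω => h (cnt G m ω) * v ω)
    have e1 : ∑ ω ∈ T, w ω * (n0 m G st ω * (h (cnt G m ω) * v ω)) =
        ∑ ω ∈ T, w ω * (h (cnt G m ω) * n0 m G st ω * v ω) := by
      refine sum_congr rfl fun ω _ => ?_
      ring
    rw [e1] at h1
    rw [← h1, ← sum_sub_distrib]
    refine (abs_sum_le_sum_abs _ _).trans ?_
    refine le_trans ?_ (mul_le_mul_of_nonneg_left hsumh (Nat.cast_nonneg J))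
    rw [mul_sum]
    refine sum_le_sum fun ω hω => ?_
    rw [← mul_sub, abs_mul, abs_of_nonneg (hw ω hω)]
    have e2 : ∑ i ∈ (range m).filter (fun i => G i ω ∧ st i ω),
        h (cnt G m (f i ω)) * v (f i ω) =
        h (cnt G m ω) * ∑ i ∈ (range m).filter (fun i => G i ω ∧ st i ω), v (f i ω) := by
      rw [mul_sum]
      refine sum_congr rfl fun i hi => ?_
      rw [mem_filter, mem_range] at hi
      rw [cnt_flip F hi.1 hω hi.2.1]
    have e3 : h (cnt G m ω) * n1 m G st ω * u ω =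
        h (cnt G m ω) * ∑ i ∈ (range m).filter (fun i => G i ω ∧ st i ω), u ω := by
      rw [sum_const, nsmul_eq_mul]
      unfold n1
      ring
    rw [e2, e3, ← mul_sub, ← sum_sub_distrib, abs_mul, abs_of_nonneg (hh0 _)]
    have e4 : |∑ i ∈ (range m).filter (fun i => G i ω ∧ st i ω), (v (f i ω) - u ω)| ≤ J := by
      refine (abs_sum_le_sum_abs _ _).trans ?_
      have e5 : ∑ i ∈ (range m).filter (fun i => G i ω ∧ st i ω), |v (f i ω) - u ω| ≤
          ∑ i ∈ (range m).filter (fun i => G i ω ∧ st i ω),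
            (if v (f i ω) ≠ u ω then (1 : ℝ) else 0) := by
        refine sum_le_sum fun i _ => ?_
        split_ifs with h5
        · have a1 := hv (f i ω)
          have a2 := hu ω
          rw [abs_le]
          constructor <;> linarith
        · push Not at h5
          rw [h5, sub_self, abs_zero]
      refine e5.trans ?_
      rw [← sum_filter, sum_const, nsmul_eq_mul, mul_one, filter_filter]
      refine le_trans ?_ (Nat.cast_le.2 (huv ω hω))
      refine Nat.cast_le.2 (card_le_card ?_)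
      intro i hi
      rw [mem_filter] at hi ⊢
      exact ⟨hi.1, hi.2.1.1, hi.2.1.2, hi.2.2⟩
    calc w ω * (h (cnt G m ω) *
          |∑ i ∈ (range m).filter (fun i => G i ω ∧ st i ω), (v (f i ω) - u ω)|) ≤
          w ω * (h (cnt G m ω) * J) :=
          mul_le_mul_of_nonneg_left (mul_le_mul_of_nonneg_left e4 (hh0 _)) (hw ω hω)
      _ = _ := by ring
  have e1 : p * (∑ ω ∈ T, w ω * ((if cnt G m ω = 0 then 0 else 1) * (v ω - u ω))) =
      ∑ ω ∈ T, w ω * (y ω * (lam * v ω + u ω)) +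
      (lam * ∑ ω ∈ T, w ω * (h (cnt G m ω) * n0 m G st ω * v ω) -
      ∑ ω ∈ T, w ω * (h (cnt G m ω) * n1 m G st ω * u ω)) := by
    have b1 : ∀ ω ∈ T, p * (w ω * ((if cnt G m ω = 0 then 0 else 1) * (v ω - u ω))) -
        w ω * (y ω * (lam * v ω + u ω)) =
        lam * (w ω * (h (cnt G m ω) * n0 m G st ω * v ω)) -
        w ω * (h (cnt G m ω) * n1 m G st ω * u ω) := by
      intro ω _
      rw [hy, hh]
      simp only
      split_ifs with h
      · simp
      · have h1 : (cnt G m ω : ℝ) ≠ 0 := by exact_mod_cast h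
        have h2 : n0 m G st ω = cnt G m ω - n1 m G st ω := by
          rw [← n0_add m G st ω]
          ring
        have h3 : lam * (1 - p) = p := by
          rw [hp]
          field_simp
          ring
        rw [h2]
        have h4 : 1 / (cnt G m ω : ℝ) * (cnt G m ω - n1 m G st ω) =
            1 - n1 m G st ω / cnt G m ω := by field_simp
        have h5 : 1 / (cnt G m ω : ℝ) * n1 m G st ω = n1 m G st ω / cnt G m ω := by ring
        rw [h4, h5]
        have h6 : p * (w ω * (1 * (v ω - u ω))) -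
            w ω * ((n1 m G st ω / cnt G m ω - p) * (lam * v ω + u ω)) -
            (lam * (w ω * ((1 - n1 m G st ω / cnt G m ω) * v ω)) -
            w ω * (n1 m G st ω / cnt G m ω * u ω)) = (p - lam * (1 - p)) * (w ω * v ω) := by
          ring
        rw [h3, sub_self, zero_mul] at h6
        linarith
    have b2 := sum_congr rfl b1
    rw [sum_sub_distrib, sum_sub_distrib, ← mul_sum, ← mul_sum] at b2
    linarith
  have e2 : |∑ ω ∈ T, w ω * (y ω * (lam * v ω + u ω))| ≤ (1 + lam) * ∑ ω ∈ T, w ω * |y ω| := by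
    rw [mul_sum]
    refine (abs_sum_le_sum_abs _ _).trans (sum_le_sum fun ω hω => ?_)
    rw [abs_mul, abs_mul, abs_of_nonneg (hw ω hω)]
    have h1 : |lam * v ω + u ω| ≤ 1 + lam := by
      have a1 := hv ω
      have a2 := hu ω
      have a3 : 0 ≤ lam * v ω := mul_nonneg hlam.le a1.1
      have a4 : lam * v ω ≤ lam * 1 := mul_le_mul_of_nonneg_left a1.2 hlam.le
      rw [abs_le]
      constructor <;> linarith
    calc w ω * (|y ω| * |lam * v ω + u ω|) ≤ w ω * (|y ω| * (1 + lam)) :=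
          mul_le_mul_of_nonneg_left (mul_le_mul_of_nonneg_left h1 (abs_nonneg _)) (hw ω hω)
      _ = (1 + lam) * (w ω * |y ω|) := by ring
  have e3 : |∑ ω ∈ T, w ω * ((if cnt G m ω = 0 then 0 else 1) * (v ω - u ω))| ≤
      ((1 + lam) / p * ((1 + 2 / q) / 2) + (J * 2) / (q * p)) * (W / r) := by
    have h1 : |p * ∑ ω ∈ T, w ω * ((if cnt G m ω = 0 then 0 else 1) * (v ω - u ω))| ≤
        (1 + lam) * ((1 + 2 / q) / 2 * (W / r)) + J * (2 * (1 / q * (W / r))) := by
      rw [e1]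
      refine (abs_add_le _ _).trans (add_le_add ?_ ?_)
      · exact e2.trans (mul_le_mul_of_nonneg_left hy1 hl.le)
      · refine hid.trans (mul_le_mul_of_nonneg_left ?_ (Nat.cast_nonneg J))
        exact mul_le_mul_of_nonneg_left hWr (by norm_num)
    rw [abs_mul, abs_of_pos hp0] at h1
    calc |∑ ω ∈ T, w ω * ((if cnt G m ω = 0 then 0 else 1) * (v ω - u ω))| =
          (p * |∑ ω ∈ T, w ω * ((if cnt G m ω = 0 then 0 else 1) * (v ω - u ω))|) / p := by
          field_simp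
      _ ≤ ((1 + lam) * ((1 + 2 / q) / 2 * (W / r)) + J * (2 * (1 / q * (W / r)))) / p :=
          div_le_div_of_nonneg_right h1 hp0.le
      _ = _ := by
          field_simp
  have e4 : |∑ ω ∈ T, w ω * ((if cnt G m ω = 0 then 1 else 0) * (v ω - u ω))| ≤
      1 / q * (W / r) := by
    calc |∑ ω ∈ T, w ω * ((if cnt G m ω = 0 then 1 else 0) * (v ω - u ω))| ≤
          ∑ ω ∈ T, w ω / (cnt G m ω + 1) := by
          refine (abs_sum_le_sum_abs _ _).trans (sum_le_sum fun ω hω => ?_)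
          have h1 := hbound0 ω hω
          have h2 : |v ω - u ω| ≤ 1 := by
            have a1 := hv ω
            have a2 := hu ω
            rw [abs_le]
            constructor <;> linarith
          rw [abs_mul, abs_mul, abs_of_nonneg (hw ω hω)]
          have h3 : |(if cnt G m ω = 0 then (1 : ℝ) else 0)| =
              (if cnt G m ω = 0 then (1 : ℝ) else 0) := by
            split_ifs <;> simp
          rw [h3]
          have h4 : (0 : ℝ) ≤ (if cnt G m ω = 0 then (1 : ℝ) else 0) := by split_ifs <;> norm_num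
          calc w ω * ((if cnt G m ω = 0 then (1 : ℝ) else 0) * |v ω - u ω|) ≤
                w ω * ((if cnt G m ω = 0 then (1 : ℝ) else 0) * 1) :=
                mul_le_mul_of_nonneg_left (mul_le_mul_of_nonneg_left h2 h4) (hw ω hω)
            _ ≤ w ω * (1 / (cnt G m ω + 1)) := by
                rw [mul_one]
                exact mul_le_mul_of_nonneg_left h1 (hw ω hω)
            _ = w ω / (cnt G m ω + 1) := by ring
      _ ≤ W / (q * (r * r)) := hinv
      _ ≤ _ := hWr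
  have e5 : ∑ ω ∈ T, w ω * v ω - ∑ ω ∈ T, w ω * u ω =
      ∑ ω ∈ T, w ω * ((if cnt G m ω = 0 then 0 else 1) * (v ω - u ω)) +
      ∑ ω ∈ T, w ω * ((if cnt G m ω = 0 then 1 else 0) * (v ω - u ω)) := by
    rw [← sum_sub_distrib, ← sum_add_distrib]
    refine sum_congr rfl fun ω _ => ?_
    split_ifs <;> ring
  rw [e5]
  refine (abs_add_le _ _).trans ?_
  calc _ ≤ ((1 + lam) / p * ((1 + 2 / q) / 2) + (J * 2) / (q * p)) * (W / r) +
        1 / q * (W / r) := add_le_add e3 e4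
    _ = _ := by ring

end Q214.LO
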