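import Pool.Agent.Q214.LO.Flip
import Pool.Agent.Q214.LO.Abs

/-!
# Adding a hexagon as a loop
-/

set_option autoImplicit false

namespace Q214.LO

open Finset
open scoped Classical

variable {D : Set P} {a b : P} {ω : Finset (Sym2 P)}

/-- the hexagon is free -/
structure Emp (D : Set P) (a b z : P) (c : Fin 6 → P) (ω : Finset (Sym2 P)) : Prop where
  cyc : Cyc z c
  cfg : Config D a b ω
  ha : a ∉ hexagon z
  hb : b ∉ hexagon z
  em : ∀ e ∈ hexE z, e ∉ ω

variable {z : P} {c : Fin 6 → P}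

theorem Emp.iso (R : Emp D a b z c ω) {v : P} (hv : v ∈ hexagon z) (u : P) : s(v, u) ∉ ω := by
  obtain ⟨j, rfl⟩ := (R.cyc.hex v).1 hv
  have ha : c j ≠ a := fun h => R.ha (h ▸ hv)
  have hb : c j ≠ b := fun h => R.hb (h ▸ hv)
  have e1 : s(c j, c (j + 1)) ∉ ω := R.em _ ((mem_hexE R.cyc.ev).2
    ⟨hv, (R.cyc.hex _).2 ⟨_, rfl⟩, R.cyc.cc j⟩)
  have hj0 : ∀ j : Fin 6, j - 1 + 1 = j := by decide
  have hj : c (j - 1 + 1) = c j := by rw [hj0 j]
  have hn := R.cyc.cc (j - 1)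
  rw [hj] at hn
  have e2 : s(c j, c (j - 1)) ∉ ω := R.em _ ((mem_hexE R.cyc.ev).2
    ⟨hv, (R.cyc.hex _).2 ⟨_, rfl⟩, nbr_symm hn⟩)
  refine R.cfg.iso ha hb (x := c (j + 1)) (y := c (j - 1)) ?_ (R.cyc.cc j) (nbr_symm hn) e1 e2 u
  intro h
  have h1 := R.cyc.inj _ _ h
  have h2 : ∀ j : Fin 6, j + 1 ≠ j - 1 := by decide
  exact h2 j h1

theorem Emp.mem_iff (R : Emp D a b z c ω) {u t : P} (hu : u ∉ hexagon z) :
    s(u, t) ∈ tg z ω ↔ s(u, t) ∈ ω :=
  mem_tg_of_not fun h => hu ((mem_hexE R.cyc.ev).1 h).1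

theorem Emp.new (R : Emp D a b z c ω) {u t : P} (hu : u ∈ hexagon z) :
    s(u, t) ∈ tg z ω ↔ t ∈ hexagon z ∧ Nbr u t := by
  rw [mem_tg, mem_hexE R.cyc.ev]
  constructor
  · rintro (⟨h1, -⟩ | ⟨⟨-, h2, h3⟩, -⟩)
    · exact absurd h1 (R.iso hu t)
    · exact ⟨h2, h3⟩
  · rintro ⟨h1, h2⟩
    exact Or.inr ⟨⟨hu, h1, h2⟩, R.iso hu t⟩

theorem Emp.comp_hex (R : Emp D a b z c ω) {v : P} (hv : v ∈ hexagon z) :
    comp (tg z ω) v = hexagon z := by
  have h1 : ∀ u, u ∈ comp (tg z ω) v → u ∈ hexagon z := by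
    intro u hu
    unfold comp at hu
    rw [Set.mem_ofPred_eq] at hu
    induction hu with
    | refl => exact hv
    | tail h1 h2 ih => exact ((R.new ih).1 h2).1
  have h2 : ∀ j : Fin 6, c j ∈ comp (tg z ω) (c 0) := by
    have hs : ∀ j : Fin 6, c j ∈ comp (tg z ω) (c 0) → c (j + 1) ∈ comp (tg z ω) (c 0) := by
      intro j hj
      exact comp_step hj ((R.new ((R.cyc.hex _).2 ⟨j, rfl⟩)).2
        ⟨(R.cyc.hex _).2 ⟨_, rfl⟩, R.cyc.cc j⟩)
    have h0 := mem_comp_self (tg z ω) (c 0)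
    have h1 := hs 0 h0
    have h2 := hs 1 h1
    have h3 := hs 2 h2
    have h4 := hs 3 h3
    have h5 := hs 4 h4
    intro j
    fin_cases j
    · exact h0
    · exact h1
    · exact h2
    · exact h3
    · exact h4
    · exact h5
  obtain ⟨j, rfl⟩ := (R.cyc.hex v).1 hv
  ext u
  refine ⟨h1 u, fun hu => ?_⟩
  obtain ⟨k, rfl⟩ := (R.cyc.hex u).1 hu
  exact comp_trans (comp_symm (h2 j)) (h2 k)

theorem Emp.deg0 (R : Emp D a b z c ω) {v : P} (hv : v ∈ hexagon z) : deg ω v = 0 := by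
  unfold deg
  have : {u : P | s(v, u) ∈ ω} = ∅ := by
    ext u
    simp [R.iso hv u]
  rw [this, Set.ncard_empty]

theorem Emp.deg2 (R : Emp D a b z c ω) (hzD : hexagon z ⊆ D) {v : P} (hv : v ∈ hexagon z) :
    deg (tg z ω) v = 2 := by
  have hcf := tg_config R.cyc.ev hzD R.ha R.hb R.cfg
  have h1 := hcf.2.2.2 v (fun h => R.ha (h ▸ hv)) (fun h => R.hb (h ▸ hv))
  rcases h1 with h1 | h1
  · exfalso
    obtain ⟨j, rfl⟩ := (R.cyc.hex v).1 hv
    rw [deg_eq (a := a) (b := b) hcf.1, card_eq_zero] at h1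
    have h2 : s(c j, c (j + 1)) ∈ tg z ω := (R.new hv).2 ⟨(R.cyc.hex _).2 ⟨_, rfl⟩, R.cyc.cc j⟩
    have h3 : c (j + 1) ∈ (nbF (c j)).filter (fun u => s(c j, u) ∈ tg z ω) :=
      mem_filter.2 ⟨mem_nbF.2 (hcf.nbr h2), h2⟩
    rw [h1] at h3
    exact absurd h3 (notMem_empty _)
  · exact h1

theorem Emp.loops_eq (R : Emp D a b z c ω) (hzD : hexagon z ⊆ D) :
    Loops (tg z ω) = insert (hexagon z) (Loops ω) := by
  have hagree : ∀ u t, u ∉ hexagon z → (s(u, t) ∈ tg z ω ↔ s(u, t) ∈ ω) := fun u t hu =>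
    R.mem_iff hu
  ext A
  rw [Set.mem_insert_iff]
  constructor
  · intro hA
    by_cases hF : ∀ u ∈ A, u ∉ hexagon z
    · exact Or.inr (loops_agree hagree hA hF)
    · left
      push Not at hF
      obtain ⟨u, hu, huz⟩ := hF
      obtain ⟨v, rfl, -⟩ := hA
      rw [← comp_eq hu]
      exact R.comp_hex huz
  · rintro (rfl | hA)
    · exact ⟨c 0, (R.comp_hex ((R.cyc.hex _).2 ⟨0, rfl⟩)).symm, fun u hu => R.deg2 hzD hu⟩
    · refine loops_agree (fun u t hu => (hagree u t hu).symm) hA fun u hu huz => ?_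
      obtain ⟨v, rfl, h2⟩ := hA
      have := h2 u hu
      rw [R.deg0 huz] at this
      exact absurd this (by decide)

theorem Emp.loops_card (R : Emp D a b z c ω) (hD : D.Finite) (hzD : hexagon z ⊆ D) :
    loops (tg z ω) = loops ω + 1 := by
  unfold loops
  rw [R.loops_eq hzD]
  refine Set.ncard_insert_of_notMem ?_ (loops_finite hD R.cfg)
  rintro ⟨v, h1, h2⟩
  have hc : c 0 ∈ hexagon z := (R.cyc.hex _).2 ⟨0, rfl⟩
  have := h2 _ hc
  rw [R.deg0 hc] at this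
  exact absurd this (by decide)

theorem Emp.card (R : Emp D a b z c ω) : (tg z ω).card = ω.card + 6 := by
  have e : tg z ω = ω ∪ hexE z := by
    ext e
    rw [mem_tg, mem_union]
    have := R.em e
    tauto
  rw [e, card_union_of_disjoint]
  · congr 1
    rw [hexE_eq R.cyc, card_image_of_injective]
    · simp
    · intro j k hjk
      simp only [Sym2.eq_iff] at hjk
      rcases hjk with ⟨h1, h2⟩ | ⟨h1, h2⟩
      · exact R.cyc.inj _ _ h1
      · have h3 := R.cyc.inj _ _ h1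
        have h4 := R.cyc.inj _ _ h2
        revert h3 h4
        clear h1 h2
        revert j k
        decide
  · rw [disjoint_left]
    exact fun e he he' => R.em e he' he

theorem Emp.not_comp (R : Emp D a b z c ω) {u : P} (hu : u ∈ comp ω a) : u ∉ hexagon z := by
  intro huz
  have h5 := comp_symm hu
  unfold comp at h5
  rw [Set.mem_ofPred_eq] at h5
  rcases Relation.ReflTransGen.cases_head h5 with h6 | ⟨t, ht, -⟩
  · exact R.ha (h6 ▸ huz)
  · exact R.iso huz t ht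

theorem Emp.path_eq (R : Emp D a b z c ω) : path a (tg z ω) = path a ω := by
  have hc : comp (tg z ω) a = comp ω a := comp_agree fun u hu t => (R.mem_iff (R.not_comp hu)).symm
  unfold path
  ext e
  induction e using Sym2.ind with
  | _ u t =>
    rw [mem_filter, mem_filter, hc]
    simp only [Sym2.mem_iff, forall_eq_or_imp, forall_eq]
    constructor
    · rintro ⟨h1, h2, h3⟩
      exact ⟨(R.mem_iff (R.not_comp h2)).1 h1, h2, h3⟩
    · rintro ⟨h1, h2, h3⟩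
      exact ⟨(R.mem_iff (R.not_comp h2)).2 h1, h2, h3⟩

theorem Emp.wt_eq (R : Emp D a b z c ω) (hD : D.Finite) (hzD : hexagon z ⊆ D) (x n : ℝ) :
    wt x n (tg z ω) = (x ^ 6 * n) * wt x n ω := by
  unfold wt
  rw [R.loops_card hD hzD, R.card, pow_add, pow_add]
  ring

/-! ## the sites -/

/-- the data of the sites: disjoint flowers -/
structure Sites (D : Set P) (a b : P) (m : ℕ) (Z : ℕ → P) : Prop where
  ev : ∀ i < m, Even ((Z i).1 + (Z i).2)
  sub : ∀ i < m, Flower (Z i) ⊆ D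
  na : ∀ i < m, a ∉ Flower (Z i)
  nb : ∀ i < m, b ∉ Flower (Z i)
  dis : ∀ i < m, ∀ j < m, i ≠ j → ∀ u ∈ Flower (Z i), u ∉ Flower (Z j)

theorem hex_flower (z : P) : hexagon z ⊆ Flower z := fun _ hx => ⟨z, Or.inl rfl, hx⟩

/-- good: the hexagon is empty or full -/
def Gh (Z : ℕ → P) (i : ℕ) (ω : Finset (Sym2 P)) : Prop :=
  (∀ e ∈ hexE (Z i), e ∉ ω) ∨ ∀ e ∈ hexE (Z i), e ∈ ω

def Sh (Z : ℕ → P) (i : ℕ) (ω : Finset (Sym2 P)) : Prop := ∀ e ∈ hexE (Z i), e ∈ ω

/-- all configurations -/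
noncomputable def TB (D : Set P) (hD : D.Finite) (a b : P) : Finset (Finset (Sym2 P)) :=
  (hD.toFinset.sym2.powerset).filter (Config D a b)

theorem mem_TB (hD : D.Finite) : ω ∈ TB D hD a b ↔ Config D a b ω := by
  unfold TB
  rw [mem_filter, mem_powerset]
  refine ⟨fun h => h.2, fun h => ⟨?_, h⟩⟩
  intro e he
  induction e using Sym2.ind with
  | _ u t =>
    rw [mk_mem_sym2_iff, hD.mem_toFinset, hD.mem_toFinset]
    exact (h.1 u t he).2

theorem cyc_exists {z : P} (hz : Even (z.1 + z.2)) : ∃ (c g : Fin 6 → P), Cyc z c ∧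
    (∀ j, Even ((g j).1 + (g j).2)) ∧ (∀ j, hexagon (g j) ⊆ Flower z) ∧
    (∀ j, s(c j, c (j + 1)) ∈ hexE (g j)) ∧
    (∀ j k, j ≠ k → s(c j, c (j + 1)) ∉ hexE (g k)) := by
  have h := frame_of hz 0
  refine ⟨_, _, ⟨hz, h.cc, h.inj, h.hex⟩, h.ge, h.gF, fun j => ?_, fun j k hjk hm => ?_⟩
  · exact (mem_hexE (h.ge j)).2 ⟨(h.cg j).1, (h.cg j).2, h.cc j⟩
  · have h2 := (mem_hexE (h.ge k)).1 hm
    exact h.cgn j k hjk ⟨h2.1, h2.2.1⟩

/-- a change in a hexagon disjoint from the hexagon of the site -/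
theorem gh_tg {Z : ℕ → P} {j : ℕ} (hj : Even ((Z j).1 + (Z j).2)) {h : P}
    (hh : Even (h.1 + h.2)) (hd : ∀ u ∈ hexagon h, u ∉ hexagon (Z j)) :
    (Gh Z j (tg h ω) ↔ Gh Z j ω) ∧ (Sh Z j (tg h ω) ↔ Sh Z j ω) := by
  have key : ∀ e ∈ hexE (Z j), (e ∈ tg h ω ↔ e ∈ ω) := by
    intro e he
    refine mem_tg_of_not fun h1 => ?_
    induction e using Sym2.ind with
    | _ u t => exact hd u ((mem_hexE hh).1 h1).1 ((mem_hexE hj).1 he).1
  have k1 : Sh Z j (tg h ω) ↔ Sh Z j ω := by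
    unfold Sh
    exact forall₂_congr fun e he => key e he
  refine ⟨?_, k1⟩
  unfold Gh
  exact or_congr (forall₂_congr fun e he => not_congr (key e he)) k1

theorem gh_flip {Z : ℕ → P} {i : ℕ} :
    (Gh Z i (tg (Z i) ω) ↔ Gh Z i ω) ∧ (Gh Z i ω → (Sh Z i (tg (Z i) ω) ↔ ¬ Sh Z i ω)) := by
  have key : ∀ e ∈ hexE (Z i), (e ∈ tg (Z i) ω ↔ e ∉ ω) := fun e he => mem_tg_of_mem he
  have hne : (hexE (Z i)).Nonempty := by
    unfold hexE
    exact insert_nonempty _ _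
  have k1 : Sh Z i (tg (Z i) ω) ↔ ∀ e ∈ hexE (Z i), e ∉ ω := by
    unfold Sh
    exact forall₂_congr fun e he => key e he
  constructor
  · unfold Gh
    have k2 : (∀ e ∈ hexE (Z i), e ∉ tg (Z i) ω) ↔ ∀ e ∈ hexE (Z i), e ∈ ω :=
      forall₂_congr fun e he => by rw [key e he, not_not]
    change (_ ∨ Sh Z i (tg (Z i) ω)) ↔ _
    rw [k1, k2]
    exact or_comm
  · intro hG
    rw [k1]
    obtain ⟨e, he⟩ := hne
    constructor
    · intro h1 h2
      exact h1 e he (h2 e he)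
    · intro h1
      rcases hG with h2 | h2
      · exact h2
      · exact absurd h2 h1

theorem flips2 {m : ℕ} {Z : ℕ → P} (S : Sites D a b m Z) (hD : D.Finite) (x n : ℝ) :
    Flips (TB D hD a b) (wt x n) (x ^ 6 * n) m (Gh Z) (Sh Z) (fun i ω => tg (Z i) ω) := by
  have hcf : ∀ i < m, ∀ ω, Config D a b ω → Config D a b (tg (Z i) ω) := fun i hi ω h =>
    tg_config (S.ev i hi) ((hex_flower _).trans (S.sub i hi)) (fun h1 => S.na i hi (hex_flower _ h1))
      (fun h1 => S.nb i hi (hex_flower _ h1)) h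
  refine ⟨?_, ?_, ?_, ?_, ?_, ?_⟩
  · intro i hi ω hω _
    rw [mem_TB hD] at hω ⊢
    exact hcf i hi ω hω
  · intro i _ ω _ _
    exact tg_tg _ _
  · intro i hi ω _ _ j hj
    by_cases hji : j = i
    · subst hji
      exact gh_flip.1
    · exact (gh_tg (S.ev j hj) (S.ev i hi) fun u hu hu' => S.dis i hi j hj (Ne.symm hji) u
        (hex_flower _ hu) (hex_flower _ hu')).1
  · intro i hi ω _ _ j hj hji
    exact (gh_tg (S.ev j hj) (S.ev i hi) fun u hu hu' => S.dis i hi j hj (Ne.symm hji) u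
        (hex_flower _ hu) (hex_flower _ hu')).2
  · intro i _ ω _ hG
    exact gh_flip.2 hG
  · intro i hi ω hω hG hs
    rw [mem_TB hD] at hω
    obtain ⟨c, g, hc, -⟩ := cyc_exists (S.ev i hi)
    have hE : ∀ e ∈ hexE (Z i), e ∉ ω := by
      rcases hG with h | h
      · exact h
      · exact absurd h hs
    have R : Emp D a b (Z i) c ω := ⟨hc, hω, fun h1 => S.na i hi (hex_flower _ h1),
      fun h1 => S.nb i hi (hex_flower _ h1), hE⟩
    exact R.wt_eq hD ((hex_flower _).trans (S.sub i hi)) x n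

/-- the first `k` edges of the hexagon are not in `ω` -/
def AH (c : Fin 6 → P) (k : ℕ) (ω : Finset (Sym2 P)) : Prop :=
  ∀ j : Fin 6, j.val < k → s(c j, c (j + 1)) ∉ ω

def BH (c : Fin 6 → P) (k : Fin 6) (ω : Finset (Sym2 P)) : Prop := s(c k, c (k + 1)) ∉ ω

/-- the resampling -/
theorem resample2 {m : ℕ} {Z : ℕ → P} (S : Sites D a b m Z) (hD : D.Finite) {x n : ℝ}
    (hx : 0 < x) (hn : 0 < n) {i : ℕ} (hi : i < m) (θ : ℝ) (hθ : 0 ≤ θ) :
    ((1 + KK x n) ^ 6)⁻¹ * ∑ ω ∈ TB D hD a b, wt x n ω * θ ^ cnt (Gh Z) i ω ≤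
      ∑ ω ∈ (TB D hD a b).filter (Gh Z i), wt x n ω * θ ^ cnt (Gh Z) i ω := by
  have hK := KK_pos hx hn
  have hw : ∀ ω, 0 ≤ wt x n ω := fun ω => by unfold wt; positivity
  have hf : ∀ ω ∈ TB D hD a b, 0 ≤ wt x n ω * θ ^ cnt (Gh Z) i ω := fun ω _ =>
    mul_nonneg (hw ω) (pow_nonneg hθ _)
  obtain ⟨c, g, hc, hge, hgF, hm1, hm2⟩ := cyc_exists (S.ev i hi)
  have hstage : ∀ k : ℕ, k ≤ 6 → ∑ ω ∈ TB D hD a b, wt x n ω * θ ^ cnt (Gh Z) i ω ≤
      (1 + KK x n) ^ k * ∑ ω ∈ (TB D hD a b).filter (AH c k),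
        wt x n ω * θ ^ cnt (Gh Z) i ω := by
    intro k hk6
    induction k with
    | zero =>
      rw [pow_zero, one_mul]
      refine le_of_eq (sum_congr ?_ fun _ _ => rfl)
      ext ω
      rw [mem_filter]
      exact ⟨fun h => ⟨h, fun j hj => absurd hj (Nat.not_lt_zero _)⟩, fun h => h.1⟩
    | succ k ih =>
      have hk : k < 6 := by omega
      have h1 := stage (TB D hD a b) (fun ω => wt x n ω * θ ^ cnt (Gh Z) i ω) hf
        (AH c k) (BH c ⟨k, hk⟩) (tg (g ⟨k, hk⟩)) (KK x n) hK.le ?_ ?_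
      · have e : (TB D hD a b).filter (AH c (k + 1)) =
            (TB D hD a b).filter (fun ω => AH c k ω ∧ BH c ⟨k, hk⟩ ω) := by
          refine filter_congr fun ω _ => ?_
          constructor
          · exact fun h => ⟨fun j hj => h j (by omega), h ⟨k, hk⟩ (Nat.lt_succ_self k)⟩
          · rintro ⟨h2, h3⟩ j hj
            rcases Nat.lt_succ_iff_lt_or_eq.1 hj with h4 | h4
            · exact h2 j h4
            · have : j = ⟨k, hk⟩ := Fin.ext h4
              rw [this]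
              exact h3
        rw [e, pow_succ, mul_assoc]
        exact (ih (by omega)).trans (mul_le_mul_of_nonneg_left h1 (by positivity))
      · intro ω hω hA hB
        rw [mem_TB hD] at hω
        have hcf : Config D a b (tg (g ⟨k, hk⟩) ω) := tg_config (hge _)
          ((hgF _).trans (S.sub i hi)) (fun h1 => S.na i hi (hgF _ h1))
          (fun h1 => S.nb i hi (hgF _ h1)) hω
        refine ⟨(mem_TB hD).2 hcf, ?_, ?_, ?_⟩
        · intro j hj
          rw [mem_tg_of_not (hm2 j ⟨k, hk⟩ (fun h => by rw [h] at hj; exact lt_irrefl _ hj))]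
          exact hA j hj
        · unfold BH at hB ⊢
          rw [mem_tg_of_mem (hm1 _)]
          exact hB
        · have hcn : cnt (Gh Z) i (tg (g ⟨k, hk⟩) ω) = cnt (Gh Z) i ω := by
            unfold cnt
            congr 1
            refine filter_congr fun j hj => ?_
            rw [mem_range] at hj
            exact (gh_tg (S.ev j (by omega)) (hge _) fun u hu hu' =>
              S.dis i hi j (by omega) (by omega) u (hgF _ hu) (hex_flower _ hu')).1
          rw [hcn]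
          have h4 := wt_tg hx hn hD (hge ⟨k, hk⟩) ((hgF _).trans (S.sub i hi))
            (fun h1 => S.na i hi (hgF _ h1)) (fun h1 => S.nb i hi (hgF _ h1)) hω
          calc wt x n ω * θ ^ cnt (Gh Z) i ω ≤
                (KK x n * wt x n (tg (g ⟨k, hk⟩) ω)) * θ ^ cnt (Gh Z) i ω :=
                mul_le_mul_of_nonneg_right h4 (pow_nonneg hθ _)
            _ = _ := by ring
      · intro ω _ ω' _ _ _ _ _ h
        have h3 := congrArg (tg (g ⟨k, hk⟩)) h
        rwa [tg_tg, tg_tg] at h3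
  have h7 := hstage 6 le_rfl
  have hsub : ∑ ω ∈ (TB D hD a b).filter (AH c 6), wt x n ω * θ ^ cnt (Gh Z) i ω ≤
      ∑ ω ∈ (TB D hD a b).filter (Gh Z i), wt x n ω * θ ^ cnt (Gh Z) i ω := by
    refine sum_le_sum_of_subset_of_nonneg ?_ fun ω hω _ => hf ω (mem_filter.1 hω).1
    intro ω hω
    rw [mem_filter] at hω ⊢
    refine ⟨hω.1, Or.inl fun e he => ?_⟩
    rw [hexE_eq hc, mem_image] at he
    obtain ⟨j, -, rfl⟩ := he
    exact hω.2 j j.isLt
  have h9 := h7.trans (mul_le_mul_of_nonneg_left hsub (by positivity))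
  rw [inv_mul_le_iff₀ (by positivity)]
  exact h9

/-- **the bulk theorem** -/
theorem bulk (x n : ℝ) (hx : 0 < x) (hn : 0 < n) : ∃ C : ℝ, 0 < C ∧
    ∀ (D : Set P) (hD : D.Finite) (a b : P) (m : ℕ) (Z : ℕ → P), Sites D a b m Z →
    ∀ U : Finset (Sym2 P) → ℕ → ℕ → Prop,
    |∑ ω ∈ TB D hD a b, wt x n ω * (if U (path a ω) (ω.card + 6) (loops ω + 1) then 1 else 0) -
      ∑ ω ∈ TB D hD a b, wt x n ω * (if U (path a ω) ω.card (loops ω) then 1 else 0)| ≤
      C / √((m : ℝ) + 1) * ∑ ω ∈ TB D hD a b, wt x n ω := by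
  have hK := KK_pos hx hn
  have hq0 : 0 < ((1 + KK x n) ^ 6)⁻¹ := by positivity
  have hq1 : ((1 + KK x n) ^ 6)⁻¹ ≤ 1 := by
    rw [inv_le_one₀ (by positivity)]
    exact one_le_pow₀ (by linarith)
  obtain ⟨C, hC, h⟩ := regular (x ^ 6 * n) ((1 + KK x n) ^ 6)⁻¹ (by positivity) hq0 hq1 0
  refine ⟨C, hC, ?_⟩
  intro D hD a b m Z S U
  have hw : ∀ ω, 0 ≤ wt x n ω := fun ω => by unfold wt; positivity
  refine h (TB D hD a b) (wt x n) m (Gh Z) (Gh Z) (Sh Z) (fun i ω => tg (Z i) ω)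
    (fun ω _ => hw ω) (flips2 S hD x n)
    (fun i hi θ h0 h1 => resample2 S hD hx hn hi θ h0) (fun ω _ => le_rfl)
    (fun ω => if U (path a ω) ω.card (loops ω) then 1 else 0)
    (fun ω => if U (path a ω) (ω.card + 6) (loops ω + 1) then 1 else 0)
    (fun ω => by split_ifs <;> norm_num) (fun ω => by split_ifs <;> norm_num) ?_
  intro i hi ω hω hG hs
  rw [mem_TB hD] at hω
  obtain ⟨c, g, hc, -⟩ := cyc_exists (S.ev i hi)
  have hE : ∀ e ∈ hexE (Z i), e ∉ ω := by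
    rcases hG with h | h
    · exact h
    · exact absurd h hs
  have R : Emp D a b (Z i) c ω := ⟨hc, hω, fun h1 => S.na i hi (hex_flower _ h1),
    fun h1 => S.nb i hi (hex_flower _ h1), hE⟩
  simp only [R.path_eq, R.card, R.loops_card hD ((hex_flower _).trans (S.sub i hi))]

end Q214.LO
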