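import Mathlib

/-!
# Configurations of the loop O(n) model on the honeycomb lattice
-/

set_option autoImplicit false

namespace Q214.LO

open Finset
open scoped Classical

abbrev P := ℤ × ℤ

/-- adjacency in the honeycomb lattice -/
def Nbr (p q : P) : Prop :=
  (p.2 = q.2 ∧ (p.1 - q.1 = 1 ∨ q.1 - p.1 = 1)) ∨
    (p.1 = q.1 ∧ ((q.2 = p.2 + 1 ∧ Even (p.1 + p.2)) ∨ (p.2 = q.2 + 1 ∧ Even (q.1 + q.2))))

/-- the vertices of the hexagon `z` -/
def hexagon (z : P) : Set P := {v | (z.1 ≤ v.1 ∧ v.1 ≤ z.1 + 2) ∧ (z.2 ≤ v.2 ∧ v.2 ≤ z.2 + 1)}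

/-- the edges of the hexagon `z` -/
def hexE (z : P) : Finset (Sym2 P) :=
  {s((z.1, z.2), (z.1 + 1, z.2)), s((z.1 + 1, z.2), (z.1 + 2, z.2)),
    s((z.1 + 2, z.2), (z.1 + 2, z.2 + 1)), s((z.1 + 2, z.2 + 1), (z.1 + 1, z.2 + 1)),
    s((z.1 + 1, z.2 + 1), (z.1, z.2 + 1)), s((z.1, z.2 + 1), (z.1, z.2))}

/-- the degree -/
noncomputable def deg (ω : Finset (Sym2 P)) (v : P) : ℕ := Set.ncard {u : P | s(v, u) ∈ ω}

/-- the configurations -/
def Config (D : Set P) (a b : P) (ω : Finset (Sym2 P)) : Prop :=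
  (∀ u v, s(u, v) ∈ ω → Nbr u v ∧ u ∈ D ∧ v ∈ D) ∧ deg ω a = 1 ∧ deg ω b = 1 ∧
    ∀ v, v ≠ a → v ≠ b → deg ω v = 0 ∨ deg ω v = 2

theorem nbr_symm {u v : P} (h : Nbr u v) : Nbr v u := by
  obtain ⟨u1, u2⟩ := u
  obtain ⟨v1, v2⟩ := v
  unfold Nbr at h ⊢
  simp only [Int.even_iff] at h ⊢
  omega

theorem nbr_irrefl {u : P} : ¬ Nbr u u := by
  unfold Nbr
  omega

/-- the vertical neighbour -/
def vn (v : P) : P := if Even (v.1 + v.2) then (v.1, v.2 + 1) else (v.1, v.2 - 1)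

/-- the neighbours -/
def nbF (v : P) : Finset P := {(v.1 + 1, v.2), (v.1 - 1, v.2), vn v}

theorem mem_nbF {u v : P} : u ∈ nbF v ↔ Nbr v u := by
  obtain ⟨u1, u2⟩ := u
  obtain ⟨v1, v2⟩ := v
  unfold nbF vn Nbr
  by_cases h : Even (v1 + v2)
  · simp only [h, if_true, mem_insert, mem_singleton, Prod.mk.injEq, and_true]
    rw [Int.even_iff] at h ⊢
    omega
  · simp only [h, if_false, mem_insert, mem_singleton, Prod.mk.injEq, and_false, false_or]
    rw [Int.even_iff] at h ⊢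
    omega

/-- the degree as a number of neighbours -/
theorem deg_eq {D : Set P} {a b : P} {ω : Finset (Sym2 P)}
    (h : ∀ u v, s(u, v) ∈ ω → Nbr u v ∧ u ∈ D ∧ v ∈ D) (v : P) :
    deg ω v = ((nbF v).filter (fun u => s(v, u) ∈ ω)).card := by
  unfold deg
  rw [← Set.ncard_coe_finset]
  congr 1
  ext u
  simp only [Set.mem_ofPred_eq, coe_filter, mem_nbF]
  exact ⟨fun h1 => ⟨(h _ _ h1).1, h1⟩, fun h1 => h1.2⟩

theorem card_three (v : P) (p : P → Prop) [DecidablePred p] : ((nbF v).filter p).card =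
    (if p (v.1 + 1, v.2) then 1 else 0) + ((if p (v.1 - 1, v.2) then 1 else 0) +
      (if p (vn v) then 1 else 0)) := by
  unfold nbF
  rw [card_filter, sum_insert, sum_insert, sum_singleton]
  · rw [mem_singleton]
    unfold vn
    split_ifs <;> simp
  · rw [mem_insert, mem_singleton]
    unfold vn
    split_ifs <;> simp <;> omega

theorem mem_hexE {z u v : P} (hz : Even (z.1 + z.2)) :
    s(u, v) ∈ hexE z ↔ u ∈ hexagon z ∧ v ∈ hexagon z ∧ Nbr u v := by
  obtain ⟨u1, u2⟩ := u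
  obtain ⟨v1, v2⟩ := v
  obtain ⟨z1, z2⟩ := z
  rw [Int.even_iff] at hz
  simp only at hz
  constructor
  · intro h
    unfold hexE at h
    simp only [mem_insert, mem_singleton, Sym2.eq_iff, Prod.mk.injEq] at h
    unfold hexagon Nbr
    simp only [Set.mem_ofPred_eq, Int.even_iff]
    rcases h with (h | h) | (h | h) | (h | h) | (h | h) | (h | h) | (h | h) <;>
      obtain ⟨⟨h1, h2⟩, h3, h4⟩ := h <;> refine ⟨?_, ?_, ?_⟩ <;> omega
  · rintro ⟨h1, h2, h3⟩
    unfold hexagon at h1 h2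
    simp only [Set.mem_ofPred_eq] at h1 h2
    unfold hexE
    simp only [mem_insert, mem_singleton]
    have h5 : u2 = z2 ∨ u2 = z2 + 1 := by omega
    rcases h3 with ⟨h3, h4 | h4⟩ | ⟨h3, ⟨h4, h6⟩ | ⟨h4, h6⟩⟩
    · simp only at h3 h4
      have h6 : u1 = z1 + 1 ∨ u1 = z1 + 2 := by omega
      rcases h5 with h5 | h5 <;> rcases h6 with h6 | h6
      · have : v1 = z1 := by omega
        subst h3 h5 h6 this
        exact Or.inl Sym2.eq_swap
      · have : v1 = z1 + 1 := by omega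
        subst h3 h5 h6 this
        exact Or.inr (Or.inl Sym2.eq_swap)
      · have : v1 = z1 := by omega
        have h7 : v2 = z2 + 1 := by omega
        subst h5 h6 this h7
        exact Or.inr (Or.inr (Or.inr (Or.inr (Or.inl rfl))))
      · have : v1 = z1 + 1 := by omega
        have h7 : v2 = z2 + 1 := by omega
        subst h5 h6 this h7
        exact Or.inr (Or.inr (Or.inr (Or.inl rfl)))
    · simp only at h3 h4
      have h6 : u1 = z1 ∨ u1 = z1 + 1 := by omega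
      rcases h5 with h5 | h5 <;> rcases h6 with h6 | h6
      · have : v1 = z1 + 1 := by omega
        have h7 : v2 = z2 := by omega
        subst h5 h6 this h7
        exact Or.inl rfl
      · have : v1 = z1 + 2 := by omega
        have h7 : v2 = z2 := by omega
        subst h5 h6 this h7
        exact Or.inr (Or.inl rfl)
      · have : v1 = z1 + 1 := by omega
        have h7 : v2 = z2 + 1 := by omega
        subst h5 h6 this h7
        exact Or.inr (Or.inr (Or.inr (Or.inr (Or.inl Sym2.eq_swap))))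
      · have : v1 = z1 + 2 := by omega
        have h7 : v2 = z2 + 1 := by omega
        subst h5 h6 this h7
        exact Or.inr (Or.inr (Or.inr (Or.inl Sym2.eq_swap)))
    · rw [Int.even_iff] at h6
      simp only at h3 h4 h6
      have h7 : u2 = z2 := by omega
      have h8 : u1 = z1 ∨ u1 = z1 + 2 := by omega
      rcases h8 with h8 | h8
      · subst h7 h8 h3 h4
        exact Or.inr (Or.inr (Or.inr (Or.inr (Or.inr Sym2.eq_swap))))
      · subst h7 h8 h3 h4
        exact Or.inr (Or.inr (Or.inl rfl))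
    · rw [Int.even_iff] at h6
      simp only at h3 h4 h6
      have h7 : v2 = z2 := by omega
      have h8 : v1 = z1 ∨ v1 = z1 + 2 := by omega
      rcases h8 with h8 | h8
      · subst h7 h8 h3 h4
        exact Or.inr (Or.inr (Or.inr (Or.inr (Or.inr rfl))))
      · subst h7 h8 h3 h4
        exact Or.inr (Or.inr (Or.inl Sym2.eq_swap))

/-- the change of the configuration around a hexagon -/
noncomputable def tg (z : P) (ω : Finset (Sym2 P)) : Finset (Sym2 P) := symmDiff ω (hexE z)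

theorem tg_tg (z : P) (ω : Finset (Sym2 P)) : tg z (tg z ω) = ω := by
  unfold tg
  exact symmDiff_symmDiff_cancel_right _ _

theorem mem_tg {z : P} {ω : Finset (Sym2 P)} {e : Sym2 P} :
    e ∈ tg z ω ↔ (e ∈ ω ∧ e ∉ hexE z) ∨ (e ∈ hexE z ∧ e ∉ ω) := by
  unfold tg
  exact mem_symmDiff

theorem mem_tg_of_not {z : P} {ω : Finset (Sym2 P)} {e : Sym2 P} (h : e ∉ hexE z) :
    e ∈ tg z ω ↔ e ∈ ω := by
  rw [mem_tg]
  tauto

theorem mem_tg_of_mem {z : P} {ω : Finset (Sym2 P)} {e : Sym2 P} (h : e ∈ hexE z) :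
    e ∈ tg z ω ↔ e ∉ ω := by
  rw [mem_tg]
  tauto

theorem hex_even {z : P} (hz : Even (z.1 + z.2)) (v : P) :
    Even ((nbF v).filter (fun u => s(v, u) ∈ hexE z)).card := by
  rw [card_three]
  have h1 : s(v, (v.1 + 1, v.2)) ∈ hexE z ↔
      z.1 ≤ v.1 ∧ v.1 + 1 ≤ z.1 + 2 ∧ z.2 ≤ v.2 ∧ v.2 ≤ z.2 + 1 := by
    rw [mem_hexE hz]
    unfold hexagon Nbr
    simp only [Set.mem_ofPred_eq]
    constructor
    · rintro ⟨h1, h2, -⟩
      omega
    · intro h1
      exact ⟨by omega, by omega, Or.inl ⟨trivial, Or.inr (by omega)⟩⟩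
  have h2 : s(v, (v.1 - 1, v.2)) ∈ hexE z ↔
      z.1 ≤ v.1 - 1 ∧ v.1 ≤ z.1 + 2 ∧ z.2 ≤ v.2 ∧ v.2 ≤ z.2 + 1 := by
    rw [mem_hexE hz]
    unfold hexagon Nbr
    simp only [Set.mem_ofPred_eq]
    constructor
    · rintro ⟨h1, h2, -⟩
      omega
    · intro h1
      exact ⟨by omega, by omega, Or.inl ⟨trivial, Or.inl (by omega)⟩⟩
  have h3 : s(v, vn v) ∈ hexE z ↔ (v ∈ hexagon z ∧ vn v ∈ hexagon z) := by
    rw [mem_hexE hz]
    have : Nbr v (vn v) := mem_nbF.1 (by unfold nbF; simp)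
    tauto
  rw [if_congr h1 rfl rfl, if_congr h2 rfl rfl, if_congr h3 rfl rfl]
  clear h1 h2 h3
  obtain ⟨v1, v2⟩ := v
  obtain ⟨z1, z2⟩ := z
  unfold hexagon vn
  by_cases h : Even (v1 + v2)
  · simp only [h, if_true, Set.mem_ofPred_eq]
    rw [Int.even_iff] at h
    simp only [Int.even_iff, Nat.even_iff] at hz ⊢
    split_ifs <;> omega
  · simp only [h, if_false, Set.mem_ofPred_eq]
    rw [Int.even_iff] at h
    simp only [Int.even_iff, Nat.even_iff] at hz ⊢
    split_ifs <;> omega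

theorem tg_even {z : P} (hz : Even (z.1 + z.2)) {ω : Finset (Sym2 P)} {v : P}
    (h : Even ((nbF v).filter (fun u => s(v, u) ∈ ω)).card) :
    Even ((nbF v).filter (fun u => s(v, u) ∈ tg z ω)).card := by
  have h1 := hex_even hz v
  have e : ((nbF v).filter (fun u => s(v, u) ∈ tg z ω)).card +
      2 * ((nbF v).filter (fun u => s(v, u) ∈ ω ∧ s(v, u) ∈ hexE z)).card =
      ((nbF v).filter (fun u => s(v, u) ∈ ω)).card +
      ((nbF v).filter (fun u => s(v, u) ∈ hexE z)).card := by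
    simp only [card_filter, mul_sum, ← sum_add_distrib]
    refine sum_congr rfl fun u _ => ?_
    simp only [mem_tg]
    by_cases h2 : s(v, u) ∈ ω <;> by_cases h3 : s(v, u) ∈ hexE z <;> simp [h2, h3]
  rw [Nat.even_iff] at h h1 ⊢
  omega

variable {D : Set P} {a b : P} {ω : Finset (Sym2 P)}

theorem tg_config {z : P} (hz : Even (z.1 + z.2)) (hzD : hexagon z ⊆ D) (ha : a ∉ hexagon z)
    (hb : b ∉ hexagon z) (h : Config D a b ω) : Config D a b (tg z ω) := by
  obtain ⟨h1, h2, h3, h4⟩ := h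
  have h1' : ∀ u v, s(u, v) ∈ tg z ω → Nbr u v ∧ u ∈ D ∧ v ∈ D := by
    intro u v h5
    rw [mem_tg] at h5
    rcases h5 with h5 | h5
    · exact h1 u v h5.1
    · obtain ⟨h6, h7, h8⟩ := (mem_hexE hz).1 h5.1
      exact ⟨h8, hzD h6, hzD h7⟩
  have hsame : ∀ v, v ∉ hexagon z → deg (tg z ω) v = deg ω v := by
    intro v hv
    unfold deg
    congr 1
    ext u
    simp only [Set.mem_ofPred_eq]
    exact mem_tg_of_not (fun h5 => hv ((mem_hexE hz).1 h5).1)
  refine ⟨h1', by rw [hsame a ha, h2], by rw [hsame b hb, h3], ?_⟩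
  intro v hva hvb
  have h5 := h4 v hva hvb
  rw [deg_eq (a := a) (b := b) h1] at h5
  rw [deg_eq (a := a) (b := b) h1']
  have h6 : Even ((nbF v).filter (fun u => s(v, u) ∈ ω)).card := by
    rcases h5 with h5 | h5 <;> rw [h5] <;> decide
  have h7 := tg_even hz h6
  have h8 : ((nbF v).filter (fun u => s(v, u) ∈ tg z ω)).card ≤ 3 := by
    rw [card_three]
    split_ifs <;> omega
  rw [Nat.even_iff] at h7
  omega

theorem Config.nbr (h : Config D a b ω) {u v : P} (h1 : s(u, v) ∈ ω) : Nbr u v := (h.1 u v h1).1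

theorem Config.ne (h : Config D a b ω) {u v : P} (h1 : s(u, v) ∈ ω) : u ≠ v := by
  rintro rfl
  exact nbr_irrefl (h.nbr h1)

theorem Config.two (h : Config D a b ω) {v x y t : P} (hva : v ≠ a) (hvb : v ≠ b)
    (h1 : s(v, x) ∈ ω) (h2 : s(v, y) ∈ ω) (h3 : s(v, t) ∈ ω) : x = y ∨ x = t ∨ y = t := by
  by_contra hc
  push Not at hc
  have h4 := h.2.2.2 v hva hvb
  rw [deg_eq (a := a) (b := b) h.1] at h4
  have h5 : 2 < ((nbF v).filter (fun u => s(v, u) ∈ ω)).card := by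
    rw [two_lt_card]
    exact ⟨x, mem_filter.2 ⟨mem_nbF.2 (h.nbr h1), h1⟩, y,
      mem_filter.2 ⟨mem_nbF.2 (h.nbr h2), h2⟩, t, mem_filter.2 ⟨mem_nbF.2 (h.nbr h3), h3⟩,
      hc.1, hc.2.1, hc.2.2⟩
  omega

theorem Config.other (h : Config D a b ω) {v x : P} (hva : v ≠ a) (hvb : v ≠ b)
    (h1 : s(v, x) ∈ ω) : ∃ y, y ≠ x ∧ s(v, y) ∈ ω := by
  have h4 := h.2.2.2 v hva hvb
  rw [deg_eq (a := a) (b := b) h.1] at h4
  have h5 : x ∈ (nbF v).filter (fun u => s(v, u) ∈ ω) :=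
    mem_filter.2 ⟨mem_nbF.2 (h.nbr h1), h1⟩
  have h6 : 0 < ((nbF v).filter (fun u => s(v, u) ∈ ω)).card := card_pos.2 ⟨x, h5⟩
  have h7 : 1 < ((nbF v).filter (fun u => s(v, u) ∈ ω)).card := by omega
  obtain ⟨y, hy, hyx⟩ := exists_mem_ne h7 x
  exact ⟨y, hyx, (mem_filter.1 hy).2⟩

theorem Config.end_unique (h : Config D a b ω) {v x y : P} (hv : v = a ∨ v = b)
    (h1 : s(v, x) ∈ ω) (h2 : s(v, y) ∈ ω) : x = y := by
  have h3 : deg ω v = 1 := by
    rcases hv with rfl | rfl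
    · exact h.2.1
    · exact h.2.2.1
  rw [deg_eq (a := a) (b := b) h.1, card_eq_one] at h3
  obtain ⟨t, ht⟩ := h3
  have h4 : x ∈ (nbF v).filter (fun u => s(v, u) ∈ ω) :=
    mem_filter.2 ⟨mem_nbF.2 (h.nbr h1), h1⟩
  have h5 : y ∈ (nbF v).filter (fun u => s(v, u) ∈ ω) :=
    mem_filter.2 ⟨mem_nbF.2 (h.nbr h2), h2⟩
  rw [ht, mem_singleton] at h4 h5
  rw [h4, h5]

theorem Config.end_exists (h : Config D a b ω) {v : P} (hv : v = a ∨ v = b) :
    ∃ x, s(v, x) ∈ ω := by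
  have h3 : deg ω v = 1 := by
    rcases hv with rfl | rfl
    · exact h.2.1
    · exact h.2.2.1
  rw [deg_eq (a := a) (b := b) h.1, card_eq_one] at h3
  obtain ⟨t, ht⟩ := h3
  have : t ∈ (nbF v).filter (fun u => s(v, u) ∈ ω) := by rw [ht]; exact mem_singleton_self t
  exact ⟨t, (mem_filter.1 this).2⟩

/-! ## components and loops -/

/-- the connected component -/
def comp (ω : Finset (Sym2 P)) (v : P) : Set P :=
  {u | Relation.ReflTransGen (fun p q => s(p, q) ∈ ω) v u}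

/-- the closed loops, given by their sets of vertices -/
def Loops (ω : Finset (Sym2 P)) : Set (Set P) :=
  {A | ∃ v, A = comp ω v ∧ ∀ u ∈ A, deg ω u = 2}

/-- the number of closed loops -/
noncomputable def loops (ω : Finset (Sym2 P)) : ℕ := (Loops ω).ncard

theorem mem_comp_self (ω : Finset (Sym2 P)) (v : P) : v ∈ comp ω v := Relation.ReflTransGen.refl

theorem comp_step {v p q : P} (h : p ∈ comp ω v) (h1 : s(p, q) ∈ ω) : q ∈ comp ω v :=
  Relation.ReflTransGen.tail h h1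

theorem comp_symm {v u : P} (h : u ∈ comp ω v) : v ∈ comp ω u := by
  unfold comp at h ⊢
  rw [Set.mem_ofPred_eq] at h ⊢
  induction h with
  | refl => exact Relation.ReflTransGen.refl
  | tail h1 h2 ih =>
    refine Relation.ReflTransGen.head ?_ ih
    rwa [Sym2.eq_swap] at h2

theorem comp_trans {v u t : P} (h : u ∈ comp ω v) (h1 : t ∈ comp ω u) : t ∈ comp ω v :=
  Relation.ReflTransGen.trans h h1

theorem comp_eq {v u : P} (h : u ∈ comp ω v) : comp ω u = comp ω v := by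
  ext t
  exact ⟨fun h1 => comp_trans h h1, fun h1 => comp_trans (comp_symm h) h1⟩

theorem comp_agree {ω' : Finset (Sym2 P)} {v : P}
    (h : ∀ u ∈ comp ω v, ∀ t, s(u, t) ∈ ω ↔ s(u, t) ∈ ω') : comp ω' v = comp ω v := by
  ext t
  constructor
  · intro h1
    unfold comp at h1
    rw [Set.mem_ofPred_eq] at h1
    induction h1 with
    | refl => exact mem_comp_self _ _
    | tail h2 h3 ih => exact comp_step ih ((h _ ih _).2 h3)
  · intro h1
    have h2 : t ∈ comp ω v := h1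
    unfold comp at h1
    rw [Set.mem_ofPred_eq] at h1
    clear h2
    have key : t ∈ comp ω v ∧ t ∈ comp ω' v := by
      induction h1 with
      | refl => exact ⟨mem_comp_self _ _, mem_comp_self _ _⟩
      | tail h2 h3 ih => exact ⟨comp_step ih.1 h3, comp_step ih.2 ((h _ ih.1 _).1 h3)⟩
    exact key.2

/-- a loop which avoids `F` is a loop of a configuration which agrees outside `F` -/
theorem loops_agree {ω' : Finset (Sym2 P)} {F : Set P}
    (h : ∀ u t, u ∉ F → (s(u, t) ∈ ω ↔ s(u, t) ∈ ω')) {A : Set P} (hA : A ∈ Loops ω)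
    (hF : ∀ u ∈ A, u ∉ F) : A ∈ Loops ω' := by
  obtain ⟨v, rfl, h2⟩ := hA
  refine ⟨v, (comp_agree fun u hu t => h u t (hF u hu)).symm, fun u hu => ?_⟩
  rw [← h2 u hu]
  unfold deg
  congr 1
  ext t
  exact (h u t (hF u hu)).symm

theorem loops_finite (hD : D.Finite) (h : Config D a b ω) : (Loops ω).Finite := by
  refine (hD.image (comp ω)).subset ?_
  rintro A ⟨v, rfl, h2⟩
  have h3 := h2 v (mem_comp_self _ _)
  have h4 : {u : P | s(v, u) ∈ ω}.Nonempty := by
    refine Set.nonempty_of_ncard_ne_zero ?_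
    unfold deg at h3
    omega
  obtain ⟨u, hu⟩ := h4
  exact ⟨v, (h.1 _ _ hu).2.1, rfl⟩

/-- the vertices of the hexagon as a finite set -/
noncomputable def hexF (z : P) : Finset P := Finset.Icc z.1 (z.1 + 2) ×ˢ Finset.Icc z.2 (z.2 + 1)

theorem mem_hexF (z x : P) : x ∈ hexF z ↔ x ∈ hexagon z := by
  unfold hexF hexagon
  rw [Finset.mem_product, Finset.mem_Icc, Finset.mem_Icc]
  rfl

theorem card_hexF (z : P) : (hexF z).card = 6 := by
  unfold hexF
  rw [Finset.card_product, Int.card_Icc, Int.card_Icc]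
  have e1 : z.1 + 2 + 1 - z.1 = 3 := by ring
  have e2 : z.2 + 1 + 1 - z.2 = 2 := by ring
  rw [e1, e2]
  rfl

theorem loops_tg_le (hD : D.Finite) {z : P} (hz : Even (z.1 + z.2)) (hzD : hexagon z ⊆ D)
    (ha : a ∉ hexagon z) (hb : b ∉ hexagon z) (h : Config D a b ω) :
    loops (tg z ω) ≤ loops ω + 6 := by
  unfold loops
  have h1 : Loops (tg z ω) ⊆ Loops ω ∪ (comp (tg z ω)) '' (hexF z : Set P) := by
    intro A hA
    by_cases hF : ∀ u ∈ A, u ∉ hexagon z
    · left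
      refine loops_agree (F := hexagon z) ?_ hA hF
      intro u t hu
      exact mem_tg_of_not (fun h5 => hu ((mem_hexE hz).1 h5).1)
    · right
      push Not at hF
      obtain ⟨u, hu, huz⟩ := hF
      obtain ⟨v, rfl, -⟩ := hA
      exact ⟨u, by rw [mem_coe, mem_hexF]; exact huz, comp_eq hu⟩
  have hfin := loops_finite hD h
  have hfin2 : ((comp (tg z ω)) '' (hexF z : Set P)).Finite := (hexF z).finite_toSet.image _
  refine (Set.ncard_le_ncard h1 (hfin.union hfin2)).trans ((Set.ncard_union_le _ _).trans ?_)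
  refine Nat.add_le_add_left ?_ _
  refine (Set.ncard_image_le (hexF z).finite_toSet).trans ?_
  rw [Set.ncard_coe_finset, card_hexF]

theorem loops_le_tg (hD : D.Finite) {z : P} (hz : Even (z.1 + z.2)) (hzD : hexagon z ⊆ D)
    (ha : a ∉ hexagon z) (hb : b ∉ hexagon z) (h : Config D a b ω) :
    loops ω ≤ loops (tg z ω) + 6 := by
  have h1 := loops_tg_le hD hz hzD ha hb (tg_config hz hzD ha hb h)
  rwa [tg_tg] at h1

theorem card_hexE_le (z : P) : (hexE z).card ≤ 6 := by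
  unfold hexE
  exact card_le_six

theorem card_tg_le (z : P) (ω : Finset (Sym2 P)) : (tg z ω).card ≤ ω.card + 6 := by
  have h1 : tg z ω ⊆ ω ∪ hexE z := by
    intro e he
    rw [mem_tg] at he
    rw [mem_union]
    tauto
  have h2 := card_hexE_le z
  exact (card_le_card h1).trans ((card_union_le _ _).trans (by omega))

theorem card_le_tg (z : P) (ω : Finset (Sym2 P)) : ω.card ≤ (tg z ω).card + 6 := by
  have h1 := card_tg_le z (tg z ω)
  rwa [tg_tg] at h1

/-- the weight -/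
noncomputable def wt (x n : ℝ) (ω : Finset (Sym2 P)) : ℝ := x ^ ω.card * n ^ loops ω

theorem pow_compare {t : ℝ} (ht : 0 < t) {i j : ℕ} (h1 : i ≤ j + 6) (h2 : j ≤ i + 6) :
    t ^ i ≤ (max t t⁻¹) ^ 6 * t ^ j := by
  obtain ⟨M, hM⟩ : ∃ M, M = max t t⁻¹ := ⟨_, rfl⟩
  have hM1 : 1 ≤ M := by
    rw [hM]
    rcases le_or_gt 1 t with h | h
    · exact h.trans (le_max_left _ _)
    · exact ((one_le_inv₀ ht).2 h.le).trans (le_max_right _ _)
  rw [← hM]
  rcases le_total i j with h | h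
  · obtain ⟨k, rfl⟩ := Nat.exists_eq_add_of_le h
    have hk : k ≤ 6 := by omega
    have h3 : 1 ≤ M ^ 6 * t ^ k := by
      have h4 : t⁻¹ ^ k ≤ M ^ 6 := by
        calc t⁻¹ ^ k ≤ M ^ k := pow_le_pow_left₀ (by positivity) (by rw [hM]; exact le_max_right _ _) k
          _ ≤ M ^ 6 := pow_le_pow_right₀ hM1 hk
      calc (1 : ℝ) = t⁻¹ ^ k * t ^ k := by rw [← mul_pow, inv_mul_cancel₀ ht.ne', one_pow]
        _ ≤ M ^ 6 * t ^ k := mul_le_mul_of_nonneg_right h4 (by positivity)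
    calc t ^ i = 1 * t ^ i := (one_mul _).symm
      _ ≤ (M ^ 6 * t ^ k) * t ^ i := mul_le_mul_of_nonneg_right h3 (by positivity)
      _ = M ^ 6 * t ^ (i + k) := by rw [pow_add]; ring
  · obtain ⟨k, rfl⟩ := Nat.exists_eq_add_of_le h
    have hk : k ≤ 6 := by omega
    have h4 : t ^ k ≤ M ^ 6 := by
      calc t ^ k ≤ M ^ k := pow_le_pow_left₀ ht.le (by rw [hM]; exact le_max_left _ _) k
        _ ≤ M ^ 6 := pow_le_pow_right₀ hM1 hk
    rw [pow_add, mul_comm]
    exact mul_le_mul_of_nonneg_right h4 (by positivity)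

/-- the constant of the finite energy property -/
noncomputable def KK (x n : ℝ) : ℝ := (max x x⁻¹) ^ 6 * (max n n⁻¹) ^ 6

theorem KK_pos {x n : ℝ} (hx : 0 < x) (hn : 0 < n) : 0 < KK x n := by
  unfold KK
  have h1 : 0 < max x x⁻¹ := lt_of_lt_of_le hx (le_max_left _ _)
  have h2 : 0 < max n n⁻¹ := lt_of_lt_of_le hn (le_max_left _ _)
  positivity

theorem wt_tg {x n : ℝ} (hx : 0 < x) (hn : 0 < n) (hD : D.Finite) {z : P}
    (hz : Even (z.1 + z.2)) (hzD : hexagon z ⊆ D)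
    (ha : a ∉ hexagon z) (hb : b ∉ hexagon z) (h : Config D a b ω) :
    wt x n ω ≤ KK x n * wt x n (tg z ω) := by
  unfold wt KK
  have h1 := pow_compare hx (card_le_tg z ω) (card_tg_le z ω)
  have h2 := pow_compare hn (loops_le_tg hD hz hzD ha hb h) (loops_tg_le hD hz hzD ha hb h)
  calc x ^ ω.card * n ^ loops ω ≤ ((max x x⁻¹) ^ 6 * x ^ (tg z ω).card) *
        ((max n n⁻¹) ^ 6 * n ^ loops (tg z ω)) := by
        refine mul_le_mul h1 h2 (by positivity) ?_
        have : 0 < max x x⁻¹ := lt_of_lt_of_le hx (le_max_left _ _)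
        positivity
    _ = _ := by ring

end Q214.LO
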