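import Pool.Agent.Q214.LO.Five

/-!
# The joint law of the length of the path and of maps which are changed at few hexagons
-/

set_option autoImplicit false

namespace Q214.LO

open Finset
open scoped Classical

variable {D : Set P} {a b : P} {ω : Finset (Sym2 P)}

/-- the stages -/
def AA5 (D : Set P) (a b : P) (i k : ℕ) (ω : Finset (Sym2 P)) : Prop :=
  ∃ v, hit D a b i ω = some v ∧ ∀ j < k, (ek v (sw1 D a i v) (sc D a i v) j ∈ ω ↔ j < 2)

def BB5 (D : Set P) (a b : P) (i k : ℕ) (ω : Finset (Sym2 P)) : Prop :=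
  ∃ v, hit D a b i ω = some v ∧ (ek v (sw1 D a i v) (sc D a i v) k ∈ ω ↔ k < 2)

theorem aa5_iff {i k : ℕ} {v : P} (h : hit D a b i ω = some v) :
    AA5 D a b i k ω ↔ ∀ j < k, (ek v (sw1 D a i v) (sc D a i v) j ∈ ω ↔ j < 2) := by
  unfold AA5
  constructor
  · rintro ⟨v', h1, h2⟩
    rw [h, Option.some.injEq] at h1
    rwa [h1]
  · exact fun h1 => ⟨v, h, h1⟩

theorem bb5_iff {i k : ℕ} {v : P} (h : hit D a b i ω = some v) :
    BB5 D a b i k ω ↔ (ek v (sw1 D a i v) (sc D a i v) k ∈ ω ↔ k < 2) := by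
  unfold BB5
  constructor
  · rintro ⟨v', h1, h2⟩
    rw [h, Option.some.injEq] at h1
    rwa [h1]
  · exact fun h1 => ⟨v, h, h1⟩

/-- the resampling of a site -/
theorem resample5 (hD : D.Finite) (hF : Fat D) (hab : a ≠ b) {x n : ℝ} (hx : 0 < x) (hn : 0 < n)
    {i : ℕ} (hi : 20 * (i + 1) + 10 ≤ lev a b) (θ : ℝ) (hθ : 0 ≤ θ) :
    ((1 + KK x n) ^ 7)⁻¹ * ∑ ω ∈ TT D hD a b, wt x n ω * θ ^ cnt (Gi5 D a b) i ω ≤
      ∑ ω ∈ (TT D hD a b).filter (Gi5 D a b i), wt x n ω * θ ^ cnt (Gi5 D a b) i ω := by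
  have hK := KK_pos hx hn
  have hw : ∀ ω, 0 ≤ wt x n ω := fun ω => by unfold wt; positivity
  have hf : ∀ ω ∈ TT D hD a b, 0 ≤ wt x n ω * θ ^ cnt (Gi5 D a b) i ω := fun ω _ =>
    mul_nonneg (hw ω) (pow_nonneg hθ _)
  have key : ∀ ω ∈ TT D hD a b, ∃ (v : P) (A B : List P), Site D a b i ω v A B ∧
      Config D a b ω := by
    intro ω hω
    rw [mem_TT hD] at hω
    obtain ⟨v, A, B, h2⟩ := site_exists hD hF hab hω hi
    exact ⟨v, A, B, h2, hω⟩
  have hstage : ∀ k : ℕ, k ≤ 7 → ∑ ω ∈ TT D hD a b, wt x n ω * θ ^ cnt (Gi5 D a b) i ω ≤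
      (1 + KK x n) ^ k * ∑ ω ∈ (TT D hD a b).filter (AA5 D a b i k),
        wt x n ω * θ ^ cnt (Gi5 D a b) i ω := by
    intro k hk7
    induction k with
    | zero =>
      rw [pow_zero, one_mul]
      refine le_of_eq (sum_congr ?_ fun _ _ => rfl)
      ext ω
      rw [mem_filter]
      refine ⟨fun h => ⟨h, ?_⟩, fun h => h.1⟩
      obtain ⟨v, A, B, S, -⟩ := key ω h
      exact ⟨v, S.hit, fun j hj => absurd hj (Nat.not_lt_zero j)⟩
    | succ k ih =>
      have h1 := stage (TT D hD a b) (fun ω => wt x n ω * θ ^ cnt (Gi5 D a b) i ω) hf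
        (AA5 D a b i k) (BB5 D a b i k) (ta D a b i k) (KK x n) hK.le ?_ ?_
      · have e : (TT D hD a b).filter (AA5 D a b i (k + 1)) =
            (TT D hD a b).filter (fun ω => AA5 D a b i k ω ∧ BB5 D a b i k ω) := by
          refine filter_congr fun ω hω => ?_
          obtain ⟨v, A, B, S, -⟩ := key ω hω
          rw [aa5_iff S.hit, aa5_iff S.hit, bb5_iff S.hit]
          constructor
          · exact fun h => ⟨fun j hj => h j (by omega), h k (by omega)⟩
          · rintro ⟨h2, h3⟩ j hj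
            rcases Nat.lt_succ_iff_lt_or_eq.1 hj with h4 | rfl
            · exact h2 j h4
            · exact h3
        rw [e, pow_succ, mul_assoc]
        exact (ih (by omega)).trans (mul_le_mul_of_nonneg_left h1 (by positivity))
      · intro ω hω hA hB
        obtain ⟨v, A, B, S, hcf⟩ := key ω hω
        have hfr := S.frame hcf
        change IsFr (cen D a i v) v (sw1 D a i v) (sc D a i v) (sg D a i v) at hfr
        have hz := (cen_spec S.vH).1.1
        obtain ⟨hke, hkF⟩ := hk_even hfr hz k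
        obtain ⟨hcf', B', S'⟩ := site_tg hD hab hcf S hi hke hkF
        rw [ta_eq S.hit]
        rw [aa5_iff S.hit] at hA
        rw [bb5_iff S.hit] at hB
        have hem := ek_mem hfr hz k
        refine ⟨(mem_TT hD).2 hcf', ?_, ?_, ?_⟩
        · rw [aa5_iff S'.hit]
          intro j hj
          rw [mem_tg_of_not (ek_not_mem hfr hz hj (by omega))]
          exact hA j hj
        · rw [bb5_iff S'.hit, mem_tg_of_mem hem]
          tauto
        · have hc : cnt (Gi5 D a b) i (tg (hk (cen D a i v) (sg D a i v) k) ω) =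
              cnt (Gi5 D a b) i ω := by
            unfold cnt
            congr 1
            refine filter_congr fun j hj => ?_
            rw [mem_range] at hj
            obtain ⟨v', A2, B2, S2⟩ := site_exists (i := j) hD hF hab hcf (by omega)
            have h3 := S.hit_lt S' hj
            rw [gi5_iff S2.hit, gi5_iff (h3.trans S2.hit)]
            refine gd5_tg hke fun y hy => ?_
            exact flower_disjoint (by omega) S.vH S2.vH (hkF hy)
          rw [hc]
          have h4 := wt_tg hx hn hD hke (hkF.trans (cen_spec S.vH).1.2.1)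
            (fun h1 => S.not_a (hkF h1)) (fun h1 => S.not_b hi (hkF h1)) hcf
          calc wt x n ω * θ ^ cnt (Gi5 D a b) i ω ≤
                (KK x n * wt x n (tg (hk (cen D a i v) (sg D a i v) k) ω)) *
                  θ ^ cnt (Gi5 D a b) i ω := mul_le_mul_of_nonneg_right h4 (pow_nonneg hθ _)
            _ = _ := by ring
      · intro ω hω ω' hω' _ _ _ _ h
        obtain ⟨v, A, B, S, hcf⟩ := key ω hω
        obtain ⟨v', A', B', S', hcf'⟩ := key ω' hω'
        have hfr := S.frame hcf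
        have hfr' := S'.frame hcf'
        obtain ⟨hke, hkF⟩ := hk_even hfr (cen_spec S.vH).1.1 k
        obtain ⟨hke', hkF'⟩ := hk_even hfr' (cen_spec S'.vH).1.1 k
        obtain ⟨-, B1, S1⟩ := site_tg hD hab hcf S hi hke hkF
        obtain ⟨-, B2, S2⟩ := site_tg hD hab hcf' S' hi hke' hkF'
        rw [ta_eq S.hit, ta_eq S'.hit] at h
        have h1 := S1.hit
        have h2 := S2.hit
        change hit D a b i (tg (hk (cen D a i v) (sg D a i v) k) ω) = some v at h1
        change hit D a b i (tg (hk (cen D a i v') (sg D a i v') k) ω') = some v' at h2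
        rw [h, h2, Option.some.injEq] at h1
        subst h1
        have h3 := congrArg (tg (hk (cen D a i v') (sg D a i v') k)) h
        rwa [tg_tg, tg_tg] at h3
  have h7 := hstage 7 le_rfl
  have hsub : ∑ ω ∈ (TT D hD a b).filter (AA5 D a b i 7), wt x n ω * θ ^ cnt (Gi5 D a b) i ω ≤
      ∑ ω ∈ (TT D hD a b).filter (Gi5 D a b i), wt x n ω * θ ^ cnt (Gi5 D a b) i ω := by
    refine sum_le_sum_of_subset_of_nonneg ?_ fun ω hω _ => hf ω (mem_filter.1 hω).1
    intro ω hω
    rw [mem_filter] at hω ⊢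
    refine ⟨hω.1, ?_⟩
    obtain ⟨v, A, B, S, hcf⟩ := key ω hω.1
    rw [gi5_iff S.hit]
    have h8 := (aa5_iff S.hit).1 hω.2
    have g0 := (h8 0 (by omega)).2 (by omega)
    have g1 := (h8 1 (by omega)).2 (by omega)
    have g2 : ek v (sw1 D a i v) (sc D a i v) 2 ∉ ω := fun h =>
      absurd ((h8 2 (by omega)).1 h) (by omega)
    have g3 : ek v (sw1 D a i v) (sc D a i v) 3 ∉ ω := fun h =>
      absurd ((h8 3 (by omega)).1 h) (by omega)
    have g4 : ek v (sw1 D a i v) (sc D a i v) 4 ∉ ω := fun h =>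
      absurd ((h8 4 (by omega)).1 h) (by omega)
    have g5 : ek v (sw1 D a i v) (sc D a i v) 5 ∉ ω := fun h =>
      absurd ((h8 5 (by omega)).1 h) (by omega)
    have g6 : ek v (sw1 D a i v) (sc D a i v) 6 ∉ ω := fun h =>
      absurd ((h8 6 (by omega)).1 h) (by omega)
    obtain ⟨e1, e2, e3, e4, e5, e6⟩ := ek_vals v (sw1 D a i v) (sc D a i v)
    rw [e1] at g1
    rw [e2] at g2
    rw [e3] at g3
    rw [e4] at g4
    rw [e5] at g5
    rw [e6] at g6
    exact ⟨S.frame hcf, S.vH, g0, Or.inl ⟨g1, g2, g3, g4, g5, g6⟩⟩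
  have h9 := h7.trans (mul_le_mul_of_nonneg_left hsub (by positivity))
  rw [inv_mul_le_iff₀ (by positivity)]
  exact h9

/-- `ω'` is obtained from `ω` by replacing an edge of the path in the hexagon `z` by the other
five edges of the hexagon -/
def Flip5 (a z : P) (ω ω' : Finset (Sym2 P)) : Prop :=
  Even (z.1 + z.2) ∧ ∃ c : Fin 6 → P, Function.Injective c ∧
    (∀ j, c j ∈ hexagon z ∧ Nbr (c j) (c (j + 1))) ∧ c 0 ∈ comp ω a ∧ s(c 0, c 1) ∈ ω ∧
    (deg ω (c 2) = 0 ∧ deg ω (c 3) = 0 ∧ deg ω (c 4) = 0 ∧ deg ω (c 5) = 0) ∧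
    ω' = (ω \ {s(c 0, c 1)}) ∪
      {s(c 1, c 2), s(c 2, c 3), s(c 3, c 4), s(c 4, c 5), s(c 5, c 0)}

theorem Rep5.flip {z : P} {c : Fin 6 → P} (R : Rep5 D a b z c ω) : Flip5 a z ω (tg z ω) := by
  have hdeg0 : ∀ j : Fin 6, (j = 2 ∨ j = 3 ∨ j = 4 ∨ j = 5) → deg ω (c j) = 0 := by
    intro j hj
    unfold deg
    have : {u : P | s(c j, u) ∈ ω} = ∅ := by
      ext u
      simp [R.iso j hj u]
    rw [this, Set.ncard_empty]
  exact ⟨R.cyc.ev, c, fun j k h => R.cyc.inj j k h,
    fun j => ⟨(R.cyc.hex _).2 ⟨j, rfl⟩, R.cyc.cc j⟩, R.cmp, R.st.1,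
    ⟨hdeg0 2 (by tauto), hdeg0 3 (by tauto), hdeg0 4 (by tauto), hdeg0 5 (by tauto)⟩,
    tg_st1 R.cyc R.st⟩

theorem Flip5.rep {z : P} {ω' : Finset (Sym2 P)} (h : Flip5 a z ω ω') (h1 : Config D a b ω)
    (h2 : Config D a b ω') : ∃ c, Rep5 D a b z c ω ∧ ω' = tg z ω := by
  obtain ⟨hz, c, hinj, hc, h3, h4, h5, h6⟩ := h
  have hcyc : Cyc z c := by
    refine ⟨hz, fun j => (hc j).2, fun j k hjk => hinj hjk, fun x => ?_⟩
    have e : (Finset.univ.image c) = hexF z := by
      refine eq_of_subset_of_card_le ?_ ?_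
      · intro y hy
        rw [mem_image] at hy
        obtain ⟨j, -, rfl⟩ := hy
        exact (mem_hexF _ _).2 (hc j).1
      · rw [card_hexF, card_image_of_injective _ hinj]
        simp
    rw [← mem_hexF, ← e, mem_image]
    simp
  have hiso : ∀ j : Fin 6, (j = 2 ∨ j = 3 ∨ j = 4 ∨ j = 5) → ∀ u, s(c j, u) ∉ ω := by
    intro j hj u hu
    have h7 : deg ω (c j) = 0 := by
      rcases hj with rfl | rfl | rfl | rfl
      · exact h5.1
      · exact h5.2.1
      · exact h5.2.2.1
      · exact h5.2.2.2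
    rw [deg_eq (a := a) (b := b) h1.1, card_eq_zero] at h7
    have h8 : u ∈ (nbF (c j)).filter (fun u => s(c j, u) ∈ ω) :=
      mem_filter.2 ⟨mem_nbF.2 (h1.nbr hu), hu⟩
    rw [h7] at h8
    exact absurd h8 (notMem_empty u)
  have hst : St1 ω c := ⟨h4, fun h => hiso 2 (by tauto) _ (sw h), hiso 2 (by tauto) _,
    hiso 3 (by tauto) _, hiso 4 (by tauto) _, hiso 5 (by tauto) _⟩
  have e : ω' = tg z ω := by rw [h6, tg_st1 hcyc hst]
  exact ⟨c, ⟨hcyc, h1, e ▸ h2, hst, hiso, h3⟩, e⟩

/-- the map `F` changes at at most `J` hexagons -/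
def Few {α : Type} (J : ℕ) (D : Set P) (a b : P) (F : Finset (Sym2 P) → α) : Prop :=
  ∀ ω', Config D a b ω' → ∃ S : Finset P, S.card ≤ J ∧ ∀ (z : P) (ω : Finset (Sym2 P)),
    z ∉ S → Config D a b ω → Flip5 a z ω ω' → F ω = F ω'

/-- **the main theorem** -/
theorem main5 (x n : ℝ) (hx : 0 < x) (hn : 0 < n) (J : ℕ) : ∃ C : ℝ, 0 < C ∧
    ∀ (D : Set P) (hD : D.Finite), Fat D → ∀ a b : P, a ≠ b →
    ∀ {α : Type} (F : Finset (Sym2 P) → α), Few J D a b F → ∀ U : ℕ → α → Prop,
    |∑ ω ∈ TT D hD a b, wt x n ω * (if U ((path a ω).card + 4) (F ω) then 1 else 0) -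
      ∑ ω ∈ TT D hD a b, wt x n ω * (if U ((path a ω).card) (F ω) then 1 else 0)| ≤
      C / √(lev a b) * ∑ ω ∈ TT D hD a b, wt x n ω := by
  have hK := KK_pos hx hn
  have hq0 : 0 < ((1 + KK x n) ^ 7)⁻¹ := by positivity
  have hq1 : ((1 + KK x n) ^ 7)⁻¹ ≤ 1 := by
    rw [inv_le_one₀ (by positivity)]
    exact one_le_pow₀ (by linarith)
  obtain ⟨C, hC, h⟩ := regular2 (x ^ 4) ((1 + KK x n) ^ 7)⁻¹ (by positivity) hq0 hq1 J
  refine ⟨C * √30, by positivity, ?_⟩
  intro D hD hF a b hab α F hFew U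
  have hw : ∀ ω, 0 ≤ wt x n ω := fun ω => by unfold wt; positivity
  obtain ⟨m, hm⟩ : ∃ m, m = (lev a b - 10) / 20 := ⟨_, rfl⟩
  have hm1 : 20 * m + 10 ≤ lev a b ∨ m = 0 := by omega
  have hm2 : lev a b ≤ 30 * (m + 1) := by omega
  have hlev : 1 ≤ lev a b := by
    by_contra hc
    apply hab
    unfold lev at hc
    ext <;> omega
  have h1 := h (TT D hD a b) (wt x n) m (Gi5 D a b) (Sti5 D a b) (fi D a b)
    (fun ω _ => hw ω) (flips5 hD hF hab x n m hm1)
    (fun i hi θ h0 h1 => resample5 hD hF hab hx hn (by omega) θ h0)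
    (fun ω => if U ((path a ω).card) (F ω) then 1 else 0)
    (fun ω => if U ((path a ω).card + 4) (F ω) then 1 else 0)
    (fun ω => by split_ifs <;> norm_num) (fun ω => by split_ifs <;> norm_num) ?_
  · refine h1.trans ?_
    refine mul_le_mul_of_nonneg_right ?_ (sum_nonneg fun ω _ => hw ω)
    have h3 : (0 : ℝ) < lev a b := by exact_mod_cast hlev
    rw [div_le_div_iff₀ (by positivity) (by positivity), mul_assoc]
    refine mul_le_mul_of_nonneg_left ?_ hC.le
    rw [← Real.sqrt_mul (by norm_num)]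
    refine Real.sqrt_le_sqrt ?_
    exact_mod_cast hm2
  · intro ω hω
    have hω' := hω
    rw [mem_TT hD] at hω
    obtain ⟨S, hS, hSF⟩ := hFew ω hω
    have hsite : ∀ i < m, ∃ (v : P) (A B : List P), Site D a b i ω v A B := fun i hi =>
      site_exists hD hF hab hω (by omega)
    refine le_trans ?_ hS
    refine card_le_card_of_injOn (fun i => cen D a i ((hit D a b i ω).getD (0, 0))) ?_ ?_
    · intro i hi
      rw [mem_coe, mem_filter, mem_range] at hi
      obtain ⟨hi1, hG, hst, hne⟩ := hi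
      obtain ⟨v, A, B, S1⟩ := hsite i hi1
      rw [mem_coe]
      change cen D a i ((hit D a b i ω).getD (0, 0)) ∈ S
      rw [S1.hit, Option.getD_some]
      by_contra hc
      apply hne
      have hz := (cen_spec S1.vH).1.1
      obtain ⟨hcf, B', S2⟩ := site_tg hD hab hω S1 (by omega) hz (hexagon_sub_flower _)
      obtain ⟨hfr, -, h3, h4⟩ := (gi5_iff S1.hit).1 hG
      rw [sti5_iff S1.hit] at hst
      have hcyc := hfr.cyc hz
      have h5 : s(v, sw1 D a i v) ∈ tg (cen D a i v) ω := by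
        rwa [mem_tg_of_not]
        exact fun h6 => hfr.vz ((mem_hexE hz).1 h6).1
      have hR := (pth_st1 hD hab hcf S2 (by omega) h5 ((st1_tg hcyc).2 hst)).1
      have hfl := hR.flip
      rw [tg_tg] at hfl
      have h7 := hSF _ _ hc hcf hfl
      have h8 := hR.path_card
      rw [tg_tg] at h8
      simp only [fi_eq S1.hit, h8, h7]
    · intro i hi j hj hij
      rw [mem_coe, mem_filter, mem_range] at hi hj
      obtain ⟨v, A, B, S1⟩ := hsite i hi.1
      obtain ⟨v', A', B', S2⟩ := hsite j hj.1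
      simp only [S1.hit, S2.hit, Option.getD_some] at hij
      by_contra hne
      have h6 := flower_disjoint hne S1.vH S2.vH (cen_self S1.vH)
      apply h6
      rw [← hij]
      exact cen_self S1.vH

/-! ## extents -/

/-- the extent of the path for the kernel `ρ` -/
noncomputable def extent (ρ : P → P → ℝ) (a : P) (ω : Finset (Sym2 P)) : ℝ :=
  sSup {t | ∃ u ∈ comp ω a, ∃ v ∈ comp ω a, t = ρ u v}

theorem comp_fin (hD : D.Finite) (h : Config D a b ω) : (comp ω a).Finite := by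
  refine (hD.union (Set.finite_singleton a)).subset ?_
  intro u hu
  unfold comp at hu
  rw [Set.mem_ofPred_eq] at hu
  rcases Relation.ReflTransGen.cases_tail hu with h1 | ⟨t, -, ht⟩
  · exact Or.inr h1
  · exact Or.inl (h.1 t u ht).2.2

/-- the hexagons which contain a vertex -/
def hexAt (v : P) : Finset P :=
  {(v.1, v.2), (v.1 - 1, v.2), (v.1 - 2, v.2), (v.1, v.2 - 1), (v.1 - 1, v.2 - 1),
    (v.1 - 2, v.2 - 1)}

theorem mem_hexAt {v z : P} (h : v ∈ hexagon z) : z ∈ hexAt v := by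
  unfold hexagon at h
  rw [Set.mem_ofPred_eq] at h
  unfold hexAt
  simp only [mem_insert, mem_singleton, Prod.ext_iff]
  omega

theorem card_hexAt (v : P) : (hexAt v).card ≤ 6 := by
  unfold hexAt
  exact card_le_six

theorem extent_few (hD : D.Finite) (ρ : P → P → ℝ) {ω' : Finset (Sym2 P)}
    (h' : Config D a b ω') : ∃ S : Finset P, S.card ≤ 12 ∧ ∀ (z : P) (ω : Finset (Sym2 P)),
      z ∉ S → Config D a b ω → Flip5 a z ω ω' → extent ρ a ω = extent ρ a ω' := by
  have hfin : {t | ∃ u ∈ comp ω' a, ∃ v ∈ comp ω' a, t = ρ u v}.Finite := by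
    have h1 := (comp_fin hD h').prod (comp_fin hD h')
    refine (h1.image (fun p : P × P => ρ p.1 p.2)).subset ?_
    rintro t ⟨u, hu, v, hv, rfl⟩
    exact ⟨(u, v), ⟨hu, hv⟩, rfl⟩
  have hne : {t | ∃ u ∈ comp ω' a, ∃ v ∈ comp ω' a, t = ρ u v}.Nonempty :=
    ⟨_, a, mem_comp_self _ _, a, mem_comp_self _ _, rfl⟩
  obtain ⟨u, hu, v, hv, huv⟩ := hne.csSup_mem hfin
  refine ⟨hexAt u ∪ hexAt v, (card_union_le _ _).trans
    (Nat.add_le_add (card_hexAt u) (card_hexAt v)), ?_⟩
  intro z ω hz h hfl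
  obtain ⟨c, R, rfl⟩ := hfl.rep h h'
  rw [mem_union, not_or] at hz
  have hold : ∀ y ∈ comp (tg z ω) a, y ∉ hexagon z → y ∈ comp ω a := by
    intro y hy hyz
    rcases R.bwd hy with h1 | h1
    · exfalso
      apply hyz
      rcases h1 with rfl | rfl | rfl | rfl <;> exact (R.cyc.hex _).2 ⟨_, rfl⟩
    · exact h1
  have hu' := hold u hu fun h1 => hz.1 (mem_hexAt h1)
  have hv' := hold v hv fun h1 => hz.2 (mem_hexAt h1)
  have hsub : {t | ∃ u ∈ comp ω a, ∃ v ∈ comp ω a, t = ρ u v} ⊆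
      {t | ∃ u ∈ comp (tg z ω) a, ∃ v ∈ comp (tg z ω) a, t = ρ u v} := by
    rintro t ⟨p, hp, q, hq, rfl⟩
    exact ⟨p, R.fwd hp, q, R.fwd hq, rfl⟩
  unfold extent
  apply le_antisymm
  · exact csSup_le_csSup hfin.bddAbove ⟨_, a, mem_comp_self _ _, a, mem_comp_self _ _, rfl⟩ hsub
  · rw [huv]
    exact le_csSup (hfin.subset hsub).bddAbove ⟨u, hu', v, hv', rfl⟩

theorem odd_flip5 {z z' : P} {c : Fin 6 → P} (R : Rep5 D a b z c ω) (hz' : Even (z'.1 + z'.2))
    (hne : z ≠ z') : (Odd ((path a (tg z ω)).filter (fun e => e ∈ ray z')).card ↔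
      Odd ((path a ω).filter (fun e => e ∈ ray z')).card) := by
  have h1 := ray_hex R.cyc.ev hz' hne
  have e0 : ∀ e, e ∈ path a (tg z ω) ↔ (e ∈ path a ω ∧ e ∉ hexE z) ∨
      (e ∈ hexE z ∧ e ∉ path a ω) := by
    intro e
    rw [R.path_eq, mem_hexE' R.cyc]
    have hsub : ∀ e, e ∉ ω → e ∉ path a ω := fun e he h => he (mem_filter.1 h).1
    have h01 := R.h01
    have s2 := hsub _ R.st.2.1
    have s3 := hsub _ R.st.2.2.1
    have s4 := hsub _ R.st.2.2.2.1
    have s5 := hsub _ R.st.2.2.2.2.1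
    have s6 := hsub _ R.st.2.2.2.2.2
    simp only [mem_union, mem_sdiff, mem_insert, mem_singleton]
    constructor
    · rintro (⟨h9, h10⟩ | rfl | rfl | rfl | rfl | rfl)
      · left
        refine ⟨h9, ?_⟩
        rintro (rfl | rfl | rfl | rfl | rfl | rfl) <;> tauto
      · exact Or.inr ⟨by tauto, s2⟩
      · exact Or.inr ⟨by tauto, s3⟩
      · exact Or.inr ⟨by tauto, s4⟩
      · exact Or.inr ⟨by tauto, s5⟩
      · exact Or.inr ⟨by tauto, s6⟩
    · rintro (⟨h9, h10⟩ | ⟨rfl | rfl | rfl | rfl | rfl | rfl, h10⟩) <;> tauto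
  have e : ((path a (tg z ω)).filter (fun e => e ∈ ray z')).card +
      2 * ((path a ω ∩ hexE z).filter (fun e => e ∈ ray z')).card =
      ((path a ω).filter (fun e => e ∈ ray z')).card +
      ((hexE z).filter (fun e => e ∈ ray z')).card := by
    have h2 : ((path a ω).filter (fun e => e ∈ ray z')).card +
        ((hexE z).filter (fun e => e ∈ ray z')).card =
        ((path a ω ∪ hexE z).filter (fun e => e ∈ ray z')).card +
        ((path a ω ∩ hexE z).filter (fun e => e ∈ ray z')).card := by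
      rw [filter_union, filter_inter_distrib, card_union_add_card_inter]
    have h3 : ((path a ω ∪ hexE z).filter (fun e => e ∈ ray z')).card =
        ((path a (tg z ω)).filter (fun e => e ∈ ray z')).card +
        ((path a ω ∩ hexE z).filter (fun e => e ∈ ray z')).card := by
      rw [← card_union_of_disjoint]
      · congr 1
        ext e
        simp only [mem_filter, mem_union, mem_inter, e0]
        tauto
      · rw [disjoint_left]
        intro e he he'
        simp only [mem_filter, mem_inter, e0] at he he'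
        tauto
    omega
  rw [Nat.even_iff] at h1
  rw [Nat.odd_iff, Nat.odd_iff]
  omega

/-- the extents, the sides and the loops -/
theorem few_extents (hD : D.Finite) {J : ℕ} (ρ : Fin J → P → P → ℝ) (z : Fin J → P)
    (hz : ∀ i, Even ((z i).1 + (z i).2)) :
    Few (13 * J) D a b (fun ω => ((fun i => extent (ρ i) a ω), (fun i => Odd ((path a ω).filter
      (fun e => e ∈ ray (z i))).card), ω \ path a ω) :
        Finset (Sym2 P) → (Fin J → ℝ) × (Fin J → Prop) × Finset (Sym2 P)) := by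
  intro ω' h'
  choose S hS hSF using fun i => extent_few hD (ρ i) h'
  refine ⟨(Finset.univ.biUnion S) ∪ Finset.univ.image z, ?_, ?_⟩
  · refine (card_union_le _ _).trans ?_
    have h1 : (Finset.univ.biUnion S).card ≤ ∑ i : Fin J, (S i).card := card_biUnion_le
    have h2 : ∑ i : Fin J, (S i).card ≤ ∑ _i : Fin J, 12 := sum_le_sum fun i _ => hS i
    have h3 : (Finset.univ.image z).card ≤ J := card_image_le.trans (by simp)
    rw [sum_const, card_univ, Fintype.card_fin, smul_eq_mul] at h2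
    omega
  · intro y ω hy h hfl
    rw [mem_union, not_or] at hy
    obtain ⟨c, R, e⟩ := hfl.rep h h'
    have e1 : (fun i => extent (ρ i) a ω) = fun i => extent (ρ i) a ω' := by
      funext i
      refine hSF i y ω (fun h1 => hy.1 ?_) h hfl
      rw [mem_biUnion]
      exact ⟨i, mem_univ i, h1⟩
    have e2 : (fun i => Odd ((path a ω).filter (fun e => e ∈ ray (z i))).card) =
        fun i => Odd ((path a ω').filter (fun e => e ∈ ray (z i))).card := by
      funext i
      rw [e]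
      refine (propext (odd_flip5 R (hz i) ?_)).symm
      rintro rfl
      exact hy.2 (mem_image_of_mem z (mem_univ i))
    have e3 : ω \ path a ω = ω' \ path a ω' := by
      rw [e]
      exact R.rest.symm
    change ((fun i => extent (ρ i) a ω), (fun i => Odd ((path a ω).filter
      (fun e => e ∈ ray (z i))).card), ω \ path a ω) = ((fun i => extent (ρ i) a ω'),
      (fun i => Odd ((path a ω').filter (fun e => e ∈ ray (z i))).card), ω' \ path a ω')
    rw [e1, e2, e3]

end Q214.LO
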