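import Pool.Agent.Q214.LO.Main

/-!
# The joint law of the length of the path and of events which do not see the replacements
-/

set_option autoImplicit false

namespace Q214.LO

open Finset
open scoped Classical

variable {D : Set P} {a b : P} {ω : Finset (Sym2 P)}

/-- the hexagon changed in stage `k` -/
def hk (z : P) (g : Fin 6 → P) : ℕ → P
  | 0 => g 0
  | 1 => z
  | (k + 2) => g (Fin.ofNat 6 (k + 1))

/-- the edge prescribed in stage `k` -/
def ek (v w : P) (c : Fin 6 → P) : ℕ → Sym2 P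
  | 0 => s(v, w)
  | (j + 1) => s(c (Fin.ofNat 6 j), c (Fin.ofNat 6 j + 1))

theorem hk_even {z v w : P} {c g : Fin 6 → P} (h : IsFr z v w c g) (hz : Even (z.1 + z.2))
    (k : ℕ) : Even ((hk z g k).1 + (hk z g k).2) ∧ hexagon (hk z g k) ⊆ Flower z := by
  rcases k with _ | _ | k
  · exact ⟨h.ge 0, h.gF 0⟩
  · exact ⟨hz, hexagon_sub_flower z⟩
  · exact ⟨h.ge _, h.gF _⟩

theorem ek_mem {z v w : P} {c g : Fin 6 → P} (h : IsFr z v w c g) (hz : Even (z.1 + z.2))
    (k : ℕ) : ek v w c k ∈ hexE (hk z g k) := by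
  rcases k with _ | _ | k
  · exact (mem_hexE (h.ge 0)).2 ⟨h.vg, h.wg, h.vw⟩
  · exact (mem_hexE hz).2 ⟨(h.hex _).2 ⟨_, rfl⟩, (h.hex _).2 ⟨_, rfl⟩, h.cc _⟩
  · exact (mem_hexE (h.ge _)).2 ⟨(h.cg _).1, (h.cg _).2, h.cc _⟩

theorem cast_ne {j k : ℕ} (hj : j < 6) (hk6 : k < 6) (h : j ≠ k) :
    Fin.ofNat 6 j ≠ Fin.ofNat 6 k := by
  intro h1
  have h2 : j % 6 = k % 6 := congrArg Fin.val h1
  omega

theorem ek_not_mem {z v w : P} {c g : Fin 6 → P} (h : IsFr z v w c g) (hz : Even (z.1 + z.2))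
    {j k : ℕ} (hjk : j < k) (hk7 : k < 7) : ek v w c j ∉ hexE (hk z g k) := by
  rcases j with _ | j
  · rcases k with _ | _ | k
    · omega
    · intro h1
      exact h.vz ((mem_hexE hz).1 h1).1
    · intro h1
      have h2 := (mem_hexE (h.ge (Fin.ofNat 6 (k + 1)))).1 h1
      have h3 : Fin.ofNat 6 (k + 1) ≠ Fin.ofNat 6 0 := cast_ne (by omega) (by omega) (by omega)
      exact h.vwg _ h3 ⟨h2.1, h2.2.1⟩
  · rcases k with _ | _ | k
    · omega
    · omega
    · intro h1
      have h2 := (mem_hexE (h.ge (Fin.ofNat 6 (k + 1)))).1 h1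
      exact h.cgn (Fin.ofNat 6 j) (Fin.ofNat 6 (k + 1)) (cast_ne (by omega) (by omega) (by omega))
        ⟨h2.1, h2.2.1⟩

theorem ek_vals (v w : P) (c : Fin 6 → P) : ek v w c 1 = s(c 0, c 1) ∧ ek v w c 2 = s(c 1, c 2) ∧
    ek v w c 3 = s(c 2, c 3) ∧ ek v w c 4 = s(c 3, c 4) ∧ ek v w c 5 = s(c 4, c 5) ∧
    ek v w c 6 = s(c 5, c 0) := ⟨rfl, rfl, rfl, rfl, rfl, rfl⟩

/-- the stages -/
def AA (D : Set P) (a b : P) (i k : ℕ) (ω : Finset (Sym2 P)) : Prop :=
  ∃ v, hit D a b i ω = some v ∧ ∀ j < k, (ek v (sw1 D a i v) (sc D a i v) j ∈ ω ↔ j < 3)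

def BB (D : Set P) (a b : P) (i k : ℕ) (ω : Finset (Sym2 P)) : Prop :=
  ∃ v, hit D a b i ω = some v ∧ (ek v (sw1 D a i v) (sc D a i v) k ∈ ω ↔ k < 3)

noncomputable def ta (D : Set P) (a b : P) (i k : ℕ) (ω : Finset (Sym2 P)) : Finset (Sym2 P) :=
  tg (hk (cen D a i ((hit D a b i ω).getD (0, 0))) (sg D a i ((hit D a b i ω).getD (0, 0))) k) ω

theorem aa_iff {i k : ℕ} {v : P} (h : hit D a b i ω = some v) :
    AA D a b i k ω ↔ ∀ j < k, (ek v (sw1 D a i v) (sc D a i v) j ∈ ω ↔ j < 3) := by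
  unfold AA
  constructor
  · rintro ⟨v', h1, h2⟩
    rw [h, Option.some.injEq] at h1
    rwa [h1]
  · exact fun h1 => ⟨v, h, h1⟩

theorem bb_iff {i k : ℕ} {v : P} (h : hit D a b i ω = some v) :
    BB D a b i k ω ↔ (ek v (sw1 D a i v) (sc D a i v) k ∈ ω ↔ k < 3) := by
  unfold BB
  constructor
  · rintro ⟨v', h1, h2⟩
    rw [h, Option.some.injEq] at h1
    rwa [h1]
  · exact fun h1 => ⟨v, h, h1⟩

theorem ta_eq {i k : ℕ} {v : P} (h : hit D a b i ω = some v) :
    ta D a b i k ω = tg (hk (cen D a i v) (sg D a i v) k) ω := by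
  unfold ta
  rw [h, Option.getD_some]

/-- the resampling of a site -/
theorem resample (hD : D.Finite) (hF : Fat D) (hab : a ≠ b) {x n : ℝ} (hx : 0 < x) (hn : 0 < n)
    {i : ℕ} (hi : 20 * (i + 1) + 10 ≤ lev a b) (θ : ℝ) (hθ : 0 ≤ θ) :
    ((1 + KK x n) ^ 7)⁻¹ * ∑ ω ∈ TT D hD a b, wt x n ω * θ ^ cnt (Gi D a b) i ω ≤
      ∑ ω ∈ (TT D hD a b).filter (Gi D a b i), wt x n ω * θ ^ cnt (Gi D a b) i ω := by
  have hK := KK_pos hx hn
  have hw : ∀ ω, 0 ≤ wt x n ω := fun ω => by unfold wt; positivity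
  have hf : ∀ ω ∈ TT D hD a b, 0 ≤ wt x n ω * θ ^ cnt (Gi D a b) i ω := fun ω _ =>
    mul_nonneg (hw ω) (pow_nonneg hθ _)
  have key : ∀ ω ∈ TT D hD a b, ∃ (v : P) (A B : List P), Site D a b i ω v A B ∧
      Config D a b ω := by
    intro ω hω
    rw [mem_TT hD] at hω
    obtain ⟨v, A, B, h2⟩ := site_exists hD hF hab hω hi
    exact ⟨v, A, B, h2, hω⟩
  have hstage : ∀ k : ℕ, k ≤ 7 → ∑ ω ∈ TT D hD a b, wt x n ω * θ ^ cnt (Gi D a b) i ω ≤
      (1 + KK x n) ^ k * ∑ ω ∈ (TT D hD a b).filter (AA D a b i k),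
        wt x n ω * θ ^ cnt (Gi D a b) i ω := by
    intro k hk7
    induction k with
    | zero =>
      rw [pow_zero, one_mul]
      refine le_of_eq (sum_congr ?_ fun _ _ => rfl)
      ext ω
      rw [mem_filter]
      refine ⟨fun h => ⟨h, ?_⟩, fun h => h.1⟩
      obtain ⟨v, A, B, S, -⟩ := key ω h
      exact ⟨v, S.hit, fun j hj => absurd hj (Nat.not_lt_zero j)⟩
    | succ k ih =>
      have h1 := stage (TT D hD a b) (fun ω => wt x n ω * θ ^ cnt (Gi D a b) i ω) hf
        (AA D a b i k) (BB D a b i k) (ta D a b i k) (KK x n) hK.le ?_ ?_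
      · have e : (TT D hD a b).filter (AA D a b i (k + 1)) =
            (TT D hD a b).filter (fun ω => AA D a b i k ω ∧ BB D a b i k ω) := by
          refine filter_congr fun ω hω => ?_
          obtain ⟨v, A, B, S, -⟩ := key ω hω
          rw [aa_iff S.hit, aa_iff S.hit, bb_iff S.hit]
          constructor
          · exact fun h => ⟨fun j hj => h j (by omega), h k (by omega)⟩
          · rintro ⟨h2, h3⟩ j hj
            rcases Nat.lt_succ_iff_lt_or_eq.1 hj with h4 | rfl
            · exact h2 j h4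
            · exact h3
        rw [e, pow_succ, mul_assoc]
        exact (ih (by omega)).trans (mul_le_mul_of_nonneg_left h1 (by positivity))
      · intro ω hω hA hB
        obtain ⟨v, A, B, S, hcf⟩ := key ω hω
        have hfr := S.frame hcf
        change IsFr (cen D a i v) v (sw1 D a i v) (sc D a i v) (sg D a i v) at hfr
        have hz := (cen_spec S.vH).1.1
        obtain ⟨hke, hkF⟩ := hk_even hfr hz k
        obtain ⟨hcf', B', S'⟩ := site_tg hD hab hcf S hi hke hkF
        rw [ta_eq S.hit]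
        rw [aa_iff S.hit] at hA
        rw [bb_iff S.hit] at hB
        have hem := ek_mem hfr hz k
        refine ⟨(mem_TT hD).2 hcf', ?_, ?_, ?_⟩
        · rw [aa_iff S'.hit]
          intro j hj
          rw [mem_tg_of_not (ek_not_mem hfr hz hj (by omega))]
          exact hA j hj
        · rw [bb_iff S'.hit, mem_tg_of_mem hem]
          tauto
        · have hc : cnt (Gi D a b) i (tg (hk (cen D a i v) (sg D a i v) k) ω) =
              cnt (Gi D a b) i ω := by
            unfold cnt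
            congr 1
            refine filter_congr fun j hj => ?_
            rw [mem_range] at hj
            obtain ⟨v', A2, B2, S2⟩ := site_exists (i := j) hD hF hab hcf (by omega)
            have h3 := S.hit_lt S' hj
            rw [gi_iff S2.hit, gi_iff (h3.trans S2.hit)]
            refine gd_tg hke fun y hy => ?_
            exact flower_disjoint (by omega) S.vH S2.vH (hkF hy)
          rw [hc]
          have h4 := wt_tg hx hn hD hke (hkF.trans (cen_spec S.vH).1.2.1)
            (fun h1 => S.not_a (hkF h1)) (fun h1 => S.not_b hi (hkF h1)) hcf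
          calc wt x n ω * θ ^ cnt (Gi D a b) i ω ≤
                (KK x n * wt x n (tg (hk (cen D a i v) (sg D a i v) k) ω)) *
                  θ ^ cnt (Gi D a b) i ω := mul_le_mul_of_nonneg_right h4 (pow_nonneg hθ _)
            _ = _ := by ring
      · intro ω hω ω' hω' _ _ _ _ h
        obtain ⟨v, A, B, S, hcf⟩ := key ω hω
        obtain ⟨v', A', B', S', hcf'⟩ := key ω' hω'
        have hfr := S.frame hcf
        have hfr' := S'.frame hcf'
        obtain ⟨hke, hkF⟩ := hk_even hfr (cen_spec S.vH).1.1 k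
        obtain ⟨hke', hkF'⟩ := hk_even hfr' (cen_spec S'.vH).1.1 k
        obtain ⟨-, B1, S1⟩ := site_tg hD hab hcf S hi hke hkF
        obtain ⟨-, B2, S2⟩ := site_tg hD hab hcf' S' hi hke' hkF'
        rw [ta_eq S.hit, ta_eq S'.hit] at h
        have h1 := S1.hit
        have h2 := S2.hit
        change hit D a b i (tg (hk (cen D a i v) (sg D a i v) k) ω) = some v at h1
        change hit D a b i (tg (hk (cen D a i v') (sg D a i v') k) ω') = some v' at h2
        rw [h, h2, Option.some.injEq] at h1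
        subst h1
        have h3 := congrArg (tg (hk (cen D a i v') (sg D a i v') k)) h
        rwa [tg_tg, tg_tg] at h3
  have h7 := hstage 7 le_rfl
  have hsub : ∑ ω ∈ (TT D hD a b).filter (AA D a b i 7), wt x n ω * θ ^ cnt (Gi D a b) i ω ≤
      ∑ ω ∈ (TT D hD a b).filter (Gi D a b i), wt x n ω * θ ^ cnt (Gi D a b) i ω := by
    refine sum_le_sum_of_subset_of_nonneg ?_ fun ω hω _ => hf ω (mem_filter.1 hω).1
    intro ω hω
    rw [mem_filter] at hω ⊢
    refine ⟨hω.1, ?_⟩
    obtain ⟨v, A, B, S, hcf⟩ := key ω hω.1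
    rw [gi_iff S.hit]
    have h8 := (aa_iff S.hit).1 hω.2
    have g0 := (h8 0 (by omega)).2 (by omega)
    have g1 := (h8 1 (by omega)).2 (by omega)
    have g2 := (h8 2 (by omega)).2 (by omega)
    have g3 : ek v (sw1 D a i v) (sc D a i v) 3 ∉ ω := fun h =>
      absurd ((h8 3 (by omega)).1 h) (by omega)
    have g4 : ek v (sw1 D a i v) (sc D a i v) 4 ∉ ω := fun h =>
      absurd ((h8 4 (by omega)).1 h) (by omega)
    have g5 : ek v (sw1 D a i v) (sc D a i v) 5 ∉ ω := fun h =>
      absurd ((h8 5 (by omega)).1 h) (by omega)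
    have g6 : ek v (sw1 D a i v) (sc D a i v) 6 ∉ ω := fun h =>
      absurd ((h8 6 (by omega)).1 h) (by omega)
    obtain ⟨e1, e2, e3, e4, e5, e6⟩ := ek_vals v (sw1 D a i v) (sc D a i v)
    rw [e1] at g1
    rw [e2] at g2
    rw [e3] at g3
    rw [e4] at g4
    rw [e5] at g5
    rw [e6] at g6
    exact ⟨S.frame hcf, S.vH, g0, Or.inl ⟨⟨g1, g2⟩, g3, g4, g5, g6⟩⟩
  have h9 := h7.trans (mul_le_mul_of_nonneg_left hsub (by positivity))
  rw [inv_mul_le_iff₀ (by positivity)]
  exact h9

/-- `ω'` is obtained from `ω` by replacing two edges of the path in the hexagon `z` by the other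
four edges of the hexagon -/
def Flip (a z : P) (ω ω' : Finset (Sym2 P)) : Prop :=
  Even (z.1 + z.2) ∧ ∃ c : Fin 6 → P, Function.Injective c ∧
    (∀ j, c j ∈ hexagon z ∧ Nbr (c j) (c (j + 1))) ∧ c 0 ∈ comp ω a ∧
    (s(c 0, c 1) ∈ ω ∧ s(c 1, c 2) ∈ ω) ∧
    (deg ω (c 3) = 0 ∧ deg ω (c 4) = 0 ∧ deg ω (c 5) = 0) ∧
    ω' = (ω \ {s(c 0, c 1), s(c 1, c 2)}) ∪
      {s(c 2, c 3), s(c 3, c 4), s(c 4, c 5), s(c 5, c 0)}

/-- the event does not distinguish configurations which differ by a replacement outside `S` -/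
def Blind (S : Finset P) (D : Set P) (a b : P) (E : Finset (Sym2 P) → Prop) : Prop :=
  ∀ (z : P) (ω ω' : Finset (Sym2 P)), z ∉ S → Config D a b ω → Config D a b ω' →
    Flip a z ω ω' → (E ω ↔ E ω')

theorem Rep.flip {z : P} {c : Fin 6 → P} (R : Rep D a b z c ω) : Flip a z ω (tg z ω) := by
  have hdeg0 : ∀ j : Fin 6, (j = 3 ∨ j = 4 ∨ j = 5) → deg ω (c j) = 0 := by
    intro j hj
    unfold deg
    have : {u : P | s(c j, u) ∈ ω} = ∅ := by
      ext u
      simp [R.iso j hj u]
    rw [this, Set.ncard_empty]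
  exact ⟨R.cyc.ev, c, fun j k h => R.cyc.inj j k h,
    fun j => ⟨(R.cyc.hex _).2 ⟨j, rfl⟩, R.cyc.cc j⟩, R.cmp, R.st.1,
    ⟨hdeg0 3 (by tauto), hdeg0 4 (by tauto), hdeg0 5 (by tauto)⟩, tg_st2 R.cyc R.st⟩

theorem Flip.rep {z : P} {ω' : Finset (Sym2 P)} (h : Flip a z ω ω') (h1 : Config D a b ω)
    (h2 : Config D a b ω') : ∃ c, Rep D a b z c ω ∧ ω' = tg z ω := by
  obtain ⟨hz, c, hinj, hc, h3, h4, h5, h6⟩ := h
  have hcyc : Cyc z c := by
    refine ⟨hz, fun j => (hc j).2, fun j k hjk => hinj hjk, fun x => ?_⟩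
    have e : (Finset.univ.image c) = hexF z := by
      refine eq_of_subset_of_card_le ?_ ?_
      · intro y hy
        rw [mem_image] at hy
        obtain ⟨j, -, rfl⟩ := hy
        exact (mem_hexF _ _).2 (hc j).1
      · rw [card_hexF, card_image_of_injective _ hinj]
        simp
    rw [← mem_hexF, ← e, mem_image]
    simp
  have hiso : ∀ j : Fin 6, (j = 3 ∨ j = 4 ∨ j = 5) → ∀ u, s(c j, u) ∉ ω := by
    intro j hj u hu
    have h7 : deg ω (c j) = 0 := by
      rcases hj with rfl | rfl | rfl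
      · exact h5.1
      · exact h5.2.1
      · exact h5.2.2
    rw [deg_eq (a := a) (b := b) h1.1, card_eq_zero] at h7
    have h8 : u ∈ (nbF (c j)).filter (fun u => s(c j, u) ∈ ω) :=
      mem_filter.2 ⟨mem_nbF.2 (h1.nbr hu), hu⟩
    rw [h7] at h8
    exact absurd h8 (notMem_empty u)
  have hst : St2 ω c := ⟨h4, fun h => hiso 3 (by tauto) _ (sw h), hiso 3 (by tauto) _,
    hiso 4 (by tauto) _, hiso 5 (by tauto) _⟩
  have e : ω' = tg z ω := by rw [h6, tg_st2 hcyc hst]
  exact ⟨c, ⟨hcyc, h1, e ▸ h2, hst, hiso, h3⟩, e⟩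

/-- **the main theorem** -/
theorem main (x n : ℝ) (hx : 0 < x) (hn : 0 < n) (J : ℕ) : ∃ C : ℝ, 0 < C ∧
    ∀ (D : Set P) (hD : D.Finite), Fat D → ∀ a b : P, a ≠ b → ∀ S : Finset P, S.card ≤ J →
    ∀ E : ℕ → Finset (Sym2 P) → Prop, (∀ k, Blind S D a b (E k)) →
    |∑ ω ∈ TT D hD a b, wt x n ω * (if E ((path a ω).card + 2) ω then 1 else 0) -
      ∑ ω ∈ TT D hD a b, wt x n ω * (if E ((path a ω).card) ω then 1 else 0)| ≤
      C / √(lev a b) * ∑ ω ∈ TT D hD a b, wt x n ω := by
  have hK := KK_pos hx hn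
  have hq0 : 0 < ((1 + KK x n) ^ 7)⁻¹ := by positivity
  have hq1 : ((1 + KK x n) ^ 7)⁻¹ ≤ 1 := by
    rw [inv_le_one₀ (by positivity)]
    exact one_le_pow₀ (by linarith)
  obtain ⟨C, hC, h⟩ := regular (x ^ 2) ((1 + KK x n) ^ 7)⁻¹ (by positivity) hq0 hq1 J
  refine ⟨C * √30, by positivity, ?_⟩
  intro D hD hF a b hab S hS E hE
  have hw : ∀ ω, 0 ≤ wt x n ω := fun ω => by unfold wt; positivity
  obtain ⟨m, hm⟩ : ∃ m, m = (lev a b - 10) / 20 := ⟨_, rfl⟩
  have hm1 : 20 * m + 10 ≤ lev a b ∨ m = 0 := by omega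
  have hm2 : lev a b ≤ 30 * (m + 1) := by omega
  have hlev : 1 ≤ lev a b := by
    by_contra hc
    apply hab
    unfold lev at hc
    ext <;> omega
  have h1 := h (TT D hD a b) (wt x n) m (Gi D a b) (Gi' S D a b) (Sti D a b) (fi D a b)
    (fun ω _ => hw ω) (flips hD hF hab S x n m hm1)
    (fun i hi θ h0 h1 => resample hD hF hab hx hn (by omega) θ h0) ?_
    (fun ω => if E ((path a ω).card) ω then 1 else 0)
    (fun ω => if E ((path a ω).card + 2) ω then 1 else 0)
    (fun ω => by split_ifs <;> norm_num) (fun ω => by split_ifs <;> norm_num) ?_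
  · refine h1.trans ?_
    refine mul_le_mul_of_nonneg_right ?_ (sum_nonneg fun ω _ => hw ω)
    have h3 : (0 : ℝ) < lev a b := by exact_mod_cast hlev
    rw [div_le_div_iff₀ (by positivity) (by positivity), mul_assoc]
    refine mul_le_mul_of_nonneg_left ?_ hC.le
    rw [← Real.sqrt_mul (by norm_num)]
    refine Real.sqrt_le_sqrt ?_
    exact_mod_cast hm2
  · -- the excluded sites
    intro ω hω
    rw [mem_TT hD] at hω
    unfold cnt
    have hsite : ∀ i < m, ∃ (v : P) (A B : List P), Site D a b i ω v A B := fun i hi =>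
      site_exists hD hF hab hω (by omega)
    have e : (range m).filter (fun i => Gi D a b i ω) ⊆
        (range m).filter (fun i => Gi' S D a b i ω) ∪
        (range m).filter (fun i => cen D a i ((hit D a b i ω).getD (0, 0)) ∈ S) := by
      intro i hi
      rw [mem_filter, mem_range] at hi
      rw [mem_union, mem_filter, mem_filter, mem_range]
      obtain ⟨v, A, B, S1⟩ := hsite i hi.1
      by_cases h5 : cen D a i v ∈ S
      · right
        refine ⟨hi.1, ?_⟩
        rw [S1.hit, Option.getD_some]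
        exact h5
      · left
        exact ⟨hi.1, (gi'_iff S1.hit).2 ⟨(gi_iff S1.hit).1 hi.2, h5⟩⟩
    refine (card_le_card e).trans ((card_union_le _ _).trans (Nat.add_le_add_left ?_ _))
    refine le_trans ?_ hS
    refine card_le_card_of_injOn (fun i => cen D a i ((hit D a b i ω).getD (0, 0))) ?_ ?_
    · intro i hi
      rw [mem_coe, mem_filter] at hi
      exact hi.2
    · intro i hi j hj hij
      rw [mem_coe, mem_filter, mem_range] at hi hj
      obtain ⟨v, A, B, S1⟩ := hsite i hi.1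
      obtain ⟨v', A', B', S2⟩ := hsite j hj.1
      simp only [S1.hit, S2.hit, Option.getD_some] at hij
      by_contra hne
      have h6 := flower_disjoint hne S1.vH S2.vH (cen_self S1.vH)
      apply h6
      rw [← hij]
      exact cen_self S1.vH
  · -- the values at a flip
    intro i hi ω hω hG hs
    rw [mem_TT hD] at hω
    obtain ⟨v, A, B, S1⟩ := site_exists hD hF hab hω (i := i) (by omega)
    obtain ⟨⟨hfr, -, h3, h4⟩, h5⟩ := (gi'_iff S1.hit).1 hG
    rw [sti_iff S1.hit] at hs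
    have h6 : St2 ω (sc D a i v) := by
      rcases h4 with h4 | h4
      · exact h4
      · exact absurd h4 hs
    have hR := (pth_st2 hD hab hω S1 (by omega) h3 h6).1
    have h7 := hE ((path a ω).card + 2) _ _ _ h5 hR.cfg hR.cfg' hR.flip
    simp only [fi_eq S1.hit, hR.path_card]
    exact if_congr h7.symm rfl rfl

/-! ## the sides of hexagons -/

/-- the edges which cross the horizontal ray from the centre of the hexagon `z` to the right -/
def ray (z : P) : Set (Sym2 P) := {e | ∃ t : ℤ, z.1 + 2 ≤ t ∧ e = s((t, z.2), (t, z.2 + 1))}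

theorem ray_hex {z z' : P} (hz : Even (z.1 + z.2)) (hz' : Even (z'.1 + z'.2)) (hne : z ≠ z') :
    Even ((hexE z).filter (fun e => e ∈ ray z')).card := by
  have hne' : ¬ (z.1 = z'.1 ∧ z.2 = z'.2) := fun h => hne (Prod.ext h.1 h.2)
  rw [Int.even_iff] at hz hz'
  by_cases h : z.2 = z'.2 ∧ z'.1 + 2 ≤ z.1
  · have e : (hexE z).filter (fun e => e ∈ ray z') =
        {s((z.1, z.2), (z.1, z.2 + 1)), s((z.1 + 2, z.2), (z.1 + 2, z.2 + 1))} := by
      ext e
      rw [mem_filter]
      unfold hexE ray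
      simp only [mem_insert, mem_singleton, Set.mem_ofPred_eq]
      constructor
      · rintro ⟨h1, t, ht, h2⟩
        rcases h1 with rfl | rfl | rfl | rfl | rfl | rfl
        · rw [Sym2.eq_iff] at h2
          simp only [Prod.mk.injEq] at h2
          omega
        · rw [Sym2.eq_iff] at h2
          simp only [Prod.mk.injEq] at h2
          omega
        · exact Or.inr rfl
        · rw [Sym2.eq_iff] at h2
          simp only [Prod.mk.injEq] at h2
          omega
        · rw [Sym2.eq_iff] at h2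
          simp only [Prod.mk.injEq] at h2
          omega
        · exact Or.inl Sym2.eq_swap
      · rintro (rfl | rfl)
        · refine ⟨Or.inr (Or.inr (Or.inr (Or.inr (Or.inr Sym2.eq_swap)))), z.1, h.2, ?_⟩
          rw [h.1]
        · refine ⟨Or.inr (Or.inr (Or.inl rfl)), z.1 + 2, by omega, ?_⟩
          rw [h.1]
    rw [e, card_pair]
    · decide
    · intro h1
      rw [Sym2.eq_iff] at h1
      simp only [Prod.mk.injEq] at h1
      omega
  · have e : (hexE z).filter (fun e => e ∈ ray z') = ∅ := by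
      rw [filter_eq_empty_iff]
      intro e he
      unfold hexE at he
      unfold ray
      simp only [mem_insert, mem_singleton, Set.mem_ofPred_eq] at he ⊢
      rintro ⟨t, ht, h2⟩
      rcases he with rfl | rfl | rfl | rfl | rfl | rfl <;> rw [Sym2.eq_iff] at h2 <;>
        simp only [Prod.mk.injEq] at h2 <;> omega
    rw [e]
    simp

theorem odd_flip {z z' : P} {c : Fin 6 → P} (R : Rep D a b z c ω) (hz' : Even (z'.1 + z'.2))
    (hne : z ≠ z') : (Odd ((path a (tg z ω)).filter (fun e => e ∈ ray z')).card ↔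
      Odd ((path a ω).filter (fun e => e ∈ ray z')).card) := by
  have h1 := ray_hex R.cyc.ev hz' hne
  have e0 : ∀ e, e ∈ path a (tg z ω) ↔ (e ∈ path a ω ∧ e ∉ hexE z) ∨
      (e ∈ hexE z ∧ e ∉ path a ω) := by
    intro e
    rw [R.path_eq, mem_hexE' R.cyc]
    have hsub : ∀ e, e ∉ ω → e ∉ path a ω := fun e he h => he (mem_filter.1 h).1
    have s3 := hsub _ R.st.2.1
    have s4 := hsub _ R.st.2.2.1
    have s5 := hsub _ R.st.2.2.2.1
    have s6 := hsub _ R.st.2.2.2.2
    have h01 : s(c 0, c 1) ∈ path a ω := by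
      unfold path
      rw [mem_filter]
      refine ⟨R.st.1.1, ?_⟩
      simp only [Sym2.mem_iff, forall_eq_or_imp, forall_eq]
      exact ⟨R.cmp, R.c1⟩
    have h12 : s(c 1, c 2) ∈ path a ω := by
      unfold path
      rw [mem_filter]
      refine ⟨R.st.1.2, ?_⟩
      simp only [Sym2.mem_iff, forall_eq_or_imp, forall_eq]
      exact ⟨R.c1, R.c2⟩
    simp only [mem_union, mem_sdiff, mem_insert, mem_singleton]
    constructor
    · rintro (⟨h9, h10⟩ | rfl | rfl | rfl | rfl)
      · left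
        refine ⟨h9, ?_⟩
        rintro (rfl | rfl | rfl | rfl | rfl | rfl) <;> tauto
      · exact Or.inr ⟨by tauto, s3⟩
      · exact Or.inr ⟨by tauto, s4⟩
      · exact Or.inr ⟨by tauto, s5⟩
      · exact Or.inr ⟨by tauto, s6⟩
    · rintro (⟨h9, h10⟩ | ⟨rfl | rfl | rfl | rfl | rfl | rfl, h10⟩) <;> tauto
  have e : ((path a (tg z ω)).filter (fun e => e ∈ ray z')).card +
      2 * ((path a ω ∩ hexE z).filter (fun e => e ∈ ray z')).card =
      ((path a ω).filter (fun e => e ∈ ray z')).card +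
      ((hexE z).filter (fun e => e ∈ ray z')).card := by
    have h2 : ((path a ω).filter (fun e => e ∈ ray z')).card +
        ((hexE z).filter (fun e => e ∈ ray z')).card =
        ((path a ω ∪ hexE z).filter (fun e => e ∈ ray z')).card +
        ((path a ω ∩ hexE z).filter (fun e => e ∈ ray z')).card := by
      rw [filter_union, filter_inter_distrib, card_union_add_card_inter]
    have h3 : ((path a ω ∪ hexE z).filter (fun e => e ∈ ray z')).card =
        ((path a (tg z ω)).filter (fun e => e ∈ ray z')).card +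
        ((path a ω ∩ hexE z).filter (fun e => e ∈ ray z')).card := by
      rw [← card_union_of_disjoint]
      · congr 1
        ext e
        simp only [mem_filter, mem_union, mem_inter, e0]
        tauto
      · rw [disjoint_left]
        intro e he he'
        simp only [mem_filter, mem_inter, e0] at he he'
        tauto
    omega
  rw [Nat.even_iff] at h1
  rw [Nat.odd_iff, Nat.odd_iff]
  omega

/-- the sides of the hexagons and the loops are blind -/
theorem blind_sides {J : ℕ} (z : Fin J → P) (hz : ∀ i, Even ((z i).1 + (z i).2)) (D : Set P)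
    (a b : P) (U : (Fin J → Prop) → Finset (Sym2 P) → Prop) :
    Blind (Finset.univ.image z) D a b (fun ω => U (fun i => Odd ((path a ω).filter
      (fun e => e ∈ ray (z i))).card) (ω \ path a ω)) := by
  intro z' ω ω' hz' h1 h2 hF
  obtain ⟨c, R, rfl⟩ := hF.rep h1 h2
  have h3 : ∀ i, Odd ((path a (tg z' ω)).filter (fun e => e ∈ ray (z i))).card =
      Odd ((path a ω).filter (fun e => e ∈ ray (z i))).card := by
    intro i
    refine propext (odd_flip R (hz i) ?_)
    rintro rfl
    exact hz' (mem_image_of_mem z (mem_univ i))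
  simp only [h3, R.rest]

end Q214.LO
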