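import Pool.Agent.Q214.LO.Fin
import Pool.Agent.Q214.LO.Abs2

/-!
# The replacement of one edge of the path by five
-/

set_option autoImplicit false

namespace Q214.LO

open Finset
open scoped Classical

variable {D : Set P} {a b : P} {ω : Finset (Sym2 P)}

/-- the path uses exactly one edge of the hexagon -/
def St1 (ω : Finset (Sym2 P)) (c : Fin 6 → P) : Prop :=
  s(c 0, c 1) ∈ ω ∧ s(c 1, c 2) ∉ ω ∧ s(c 2, c 3) ∉ ω ∧ s(c 3, c 4) ∉ ω ∧ s(c 4, c 5) ∉ ω ∧
    s(c 5, c 0) ∉ ω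

/-- the path uses the other five edges of the hexagon -/
def St5 (ω : Finset (Sym2 P)) (c : Fin 6 → P) : Prop :=
  s(c 0, c 1) ∉ ω ∧ s(c 1, c 2) ∈ ω ∧ s(c 2, c 3) ∈ ω ∧ s(c 3, c 4) ∈ ω ∧ s(c 4, c 5) ∈ ω ∧
    s(c 5, c 0) ∈ ω

theorem st5_tg {z : P} {c : Fin 6 → P} (h : Cyc z c) : St5 (tg z ω) c ↔ St1 ω c := by
  unfold St1 St5
  rw [mem_tg_of_mem ((mem_hexE' h).2 (by tauto)), mem_tg_of_mem ((mem_hexE' h).2 (by tauto)),
    mem_tg_of_mem ((mem_hexE' h).2 (by tauto)), mem_tg_of_mem ((mem_hexE' h).2 (by tauto)),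
    mem_tg_of_mem ((mem_hexE' h).2 (by tauto)), mem_tg_of_mem ((mem_hexE' h).2 (by tauto))]
  tauto

theorem st1_tg {z : P} {c : Fin 6 → P} (h : Cyc z c) : St1 (tg z ω) c ↔ St5 ω c := by
  rw [← st5_tg h, tg_tg]

theorem st1_not {c : Fin 6 → P} (h : St1 ω c) : ¬ St5 ω c := fun h1 => h1.1 h.1

theorem tg_st1 {z : P} {c : Fin 6 → P} (h : Cyc z c) (h2 : St1 ω c) :
    tg z ω = (ω \ {s(c 0, c 1)}) ∪
      {s(c 1, c 2), s(c 2, c 3), s(c 3, c 4), s(c 4, c 5), s(c 5, c 0)} := by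
  ext e
  rw [mem_tg, mem_hexE' h]
  simp only [mem_union, mem_sdiff, mem_insert, mem_singleton]
  obtain ⟨h3, h4, h5, h6, h7, h8⟩ := h2
  constructor
  · rintro (⟨h9, h10⟩ | ⟨rfl | rfl | rfl | rfl | rfl | rfl, h10⟩) <;> tauto
  · rintro (⟨h9, h10⟩ | rfl | rfl | rfl | rfl | rfl)
    · left
      refine ⟨h9, ?_⟩
      rintro (rfl | rfl | rfl | rfl | rfl | rfl) <;> tauto
    · exact Or.inr ⟨by tauto, h4⟩
    · exact Or.inr ⟨by tauto, h5⟩
    · exact Or.inr ⟨by tauto, h6⟩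
    · exact Or.inr ⟨by tauto, h7⟩
    · exact Or.inr ⟨by tauto, h8⟩

theorem card_swap5 {X : Finset (Sym2 P)} {z : P} {c : Fin 6 → P} (h : Cyc z c)
    (h1 : s(c 0, c 1) ∈ X) (h2 : s(c 1, c 2) ∉ X) (h3 : s(c 2, c 3) ∉ X) (h4 : s(c 3, c 4) ∉ X)
    (h5 : s(c 4, c 5) ∉ X) (h6 : s(c 5, c 0) ∉ X) :
    ((X \ {s(c 0, c 1)}) ∪
      {s(c 1, c 2), s(c 2, c 3), s(c 3, c 4), s(c 4, c 5), s(c 5, c 0)}).card = X.card + 4 := by
  rw [card_union_of_disjoint]
  · have e1 : ({s(c 1, c 2), s(c 2, c 3), s(c 3, c 4), s(c 4, c 5), s(c 5, c 0)} :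
        Finset (Sym2 P)).card = 5 := by
      rw [card_insert_of_notMem, card_insert_of_notMem, card_insert_of_notMem,
        card_insert_of_notMem, card_singleton]
      · rw [mem_singleton]
        exact edge_ne h (by decide)
      · rw [mem_insert, mem_singleton, not_or]
        exact ⟨edge_ne h (by decide), edge_ne h (by decide)⟩
      · rw [mem_insert, mem_insert, mem_singleton, not_or, not_or]
        exact ⟨edge_ne h (by decide), edge_ne h (by decide), edge_ne h (by decide)⟩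
      · rw [mem_insert, mem_insert, mem_insert, mem_singleton, not_or, not_or, not_or]
        exact ⟨edge_ne h (by decide), edge_ne h (by decide), edge_ne h (by decide),
          edge_ne h (by decide)⟩
    have hsub : ({s(c 0, c 1)} : Finset (Sym2 P)) ⊆ X := by
      intro e he
      rw [mem_singleton] at he
      rw [he]
      exact h1
    have h7 := card_le_card hsub
    rw [card_singleton] at h7
    rw [e1, card_sdiff_of_subset hsub, card_singleton]
    omega
  · rw [disjoint_left]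
    intro e he he'
    rw [mem_sdiff] at he
    simp only [mem_insert, mem_singleton] at he'
    rcases he' with rfl | rfl | rfl | rfl | rfl
    · exact h2 he.1
    · exact h3 he.1
    · exact h4 he.1
    · exact h5 he.1
    · exact h6 he.1

/-- data of a replacement -/
structure Rep5 (D : Set P) (a b z : P) (c : Fin 6 → P) (ω : Finset (Sym2 P)) : Prop where
  cyc : Cyc z c
  cfg : Config D a b ω
  cfg' : Config D a b (tg z ω)
  st : St1 ω c
  iso : ∀ j : Fin 6, (j = 2 ∨ j = 3 ∨ j = 4 ∨ j = 5) → ∀ u, s(c j, u) ∉ ω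
  cmp : c 0 ∈ comp ω a

variable {z : P} {c : Fin 6 → P}

theorem Rep5.c1 (R : Rep5 D a b z c ω) : c 1 ∈ comp ω a := comp_step R.cmp R.st.1

theorem Rep5.ne (R : Rep5 D a b z c ω) (j : Fin 6) (hj : j = 2 ∨ j = 3 ∨ j = 4 ∨ j = 5) :
    c j ≠ a ∧ c j ≠ b := by
  have key : ∀ v : P, v = a ∨ v = b → c j ≠ v := by
    rintro v hv rfl
    obtain ⟨u, hu⟩ := R.cfg.end_exists hv
    exact R.iso j hj u hu
  exact ⟨key a (Or.inl rfl), key b (Or.inr rfl)⟩

theorem Rep5.edges (R : Rep5 D a b z c ω) {j : Fin 6}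
    (hj : j = 1 ∨ j = 2 ∨ j = 3 ∨ j = 4 ∨ j = 5) : s(c j, c (j + 1)) ∈ tg z ω := by
  rw [tg_st1 R.cyc R.st, mem_union]
  right
  simp only [mem_insert, mem_singleton]
  rcases hj with rfl | rfl | rfl | rfl | rfl
  · exact Or.inl rfl
  · exact Or.inr (Or.inl rfl)
  · exact Or.inr (Or.inr (Or.inl rfl))
  · exact Or.inr (Or.inr (Or.inr (Or.inl rfl)))
  · exact Or.inr (Or.inr (Or.inr (Or.inr rfl)))

theorem Rep5.mem_iff (R : Rep5 D a b z c ω) {u t : P} (hu : ∀ j, c j ≠ u) :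
    s(u, t) ∈ tg z ω ↔ s(u, t) ∈ ω := by
  refine mem_tg_of_not fun h => ?_
  obtain ⟨j, hj⟩ := (R.cyc.hex u).1 ((mem_hexE R.cyc.ev).1 h).1
  exact hu j hj

theorem Rep5.fwd (R : Rep5 D a b z c ω) {u : P} (hu : u ∈ comp ω a) : u ∈ comp (tg z ω) a := by
  have e1 := R.edges (j := 1) (by tauto)
  have e2 := R.edges (j := 2) (by tauto)
  have e3 := R.edges (j := 3) (by tauto)
  have e4 := R.edges (j := 4) (by tauto)
  have e5 := R.edges (j := 5) (by tauto)
  unfold comp at hu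
  rw [Set.mem_ofPred_eq] at hu
  induction hu with
  | refl => exact mem_comp_self _ _
  | @tail p q h1 h2 ih =>
    by_cases h3 : s(p, q) = s(c 0, c 1)
    · rw [Sym2.eq_iff] at h3
      rcases h3 with ⟨rfl, rfl⟩ | ⟨rfl, rfl⟩
      · exact comp_step (comp_step (comp_step (comp_step (comp_step ih (sw e5)) (sw e4)) (sw e3))
          (sw e2)) (sw e1)
      · exact comp_step (comp_step (comp_step (comp_step (comp_step ih e1) e2) e3) e4) e5
    · refine comp_step ih ?_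
      rw [tg_st1 R.cyc R.st, mem_union, mem_sdiff, mem_singleton]
      exact Or.inl ⟨h2, h3⟩

theorem Rep5.others (R : Rep5 D a b z c ω) (j : Fin 6) : c j ∈ comp (tg z ω) a := by
  have e3 := R.edges (j := 3) (by tauto)
  have e2 := R.edges (j := 2) (by tauto)
  have e4 := R.edges (j := 4) (by tauto)
  have e5 := R.edges (j := 5) (by tauto)
  have h0 := R.fwd R.cmp
  have h5 : c 5 ∈ comp (tg z ω) a := comp_step h0 (sw e5)
  have h4 : c 4 ∈ comp (tg z ω) a := comp_step h5 (sw e4)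
  have h3 : c 3 ∈ comp (tg z ω) a := comp_step h4 (sw e3)
  have h2 : c 2 ∈ comp (tg z ω) a := comp_step h3 (sw e2)
  fin_cases j
  · exact h0
  · exact R.fwd R.c1
  · exact h2
  · exact h3
  · exact h4
  · exact h5

theorem Rep5.bwd (R : Rep5 D a b z c ω) {u : P} (hu : u ∈ comp (tg z ω) a) :
    (u = c 2 ∨ u = c 3 ∨ u = c 4 ∨ u = c 5) ∨ u ∈ comp ω a := by
  unfold comp at hu
  rw [Set.mem_ofPred_eq] at hu
  induction hu with
  | refl => exact Or.inr (mem_comp_self _ _)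
  | @tail p q h1 h2 ih =>
    rw [tg_st1 R.cyc R.st, mem_union, mem_sdiff] at h2
    rcases h2 with ⟨h2, h3⟩ | h2
    · right
      rcases ih with (rfl | rfl | rfl | rfl) | ih
      · exact absurd h2 (R.iso 2 (by tauto) q)
      · exact absurd h2 (R.iso 3 (by tauto) q)
      · exact absurd h2 (R.iso 4 (by tauto) q)
      · exact absurd h2 (R.iso 5 (by tauto) q)
      · exact comp_step ih h2
    · have hq : q = c 0 ∨ q = c 1 ∨ q = c 2 ∨ q = c 3 ∨ q = c 4 ∨ q = c 5 := by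
        simp only [mem_insert, mem_singleton, Sym2.eq_iff] at h2
        tauto
      rcases hq with rfl | rfl | hq
      · exact Or.inr R.cmp
      · exact Or.inr R.c1
      · exact Or.inl hq

theorem Rep5.new (R : Rep5 D a b z c ω) {u : P}
    (hu : u = c 2 ∨ u = c 3 ∨ u = c 4 ∨ u = c 5) : u ∉ comp ω a := by
  intro h
  have h0 : ∃ j : Fin 6, (j = 2 ∨ j = 3 ∨ j = 4 ∨ j = 5) ∧ u = c j := by
    rcases hu with h | h | h | h
    · exact ⟨2, by tauto, h⟩
    · exact ⟨3, by tauto, h⟩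
    · exact ⟨4, by tauto, h⟩
    · exact ⟨5, by tauto, h⟩
  obtain ⟨j, hj, rfl⟩ := h0
  have h5 := comp_symm h
  unfold comp at h5
  rw [Set.mem_ofPred_eq] at h5
  rcases Relation.ReflTransGen.cases_head h5 with h6 | ⟨t, ht, -⟩
  · exact (R.ne j hj).1 h6
  · exact R.iso j hj t ht

theorem Rep5.path_eq (R : Rep5 D a b z c ω) : path a (tg z ω) =
    (path a ω \ {s(c 0, c 1)}) ∪
      {s(c 1, c 2), s(c 2, c 3), s(c 3, c 4), s(c 4, c 5), s(c 5, c 0)} := by
  ext e
  induction e using Sym2.ind with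
  | _ u t =>
    unfold path
    rw [mem_filter, mem_union, mem_sdiff, mem_filter]
    simp only [Sym2.mem_iff, forall_eq_or_imp, forall_eq]
    constructor
    · rintro ⟨h1, h2, h3⟩
      rw [tg_st1 R.cyc R.st, mem_union, mem_sdiff] at h1
      rcases h1 with ⟨h1, h4⟩ | h1
      · left
        refine ⟨⟨h1, ?_, ?_⟩, h4⟩
        · rcases R.bwd h2 with (rfl | rfl | rfl | rfl) | h5
          · exact absurd h1 (R.iso 2 (by tauto) t)
          · exact absurd h1 (R.iso 3 (by tauto) t)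
          · exact absurd h1 (R.iso 4 (by tauto) t)
          · exact absurd h1 (R.iso 5 (by tauto) t)
          · exact h5
        · rcases R.bwd h3 with (rfl | rfl | rfl | rfl) | h5
          · exact absurd (sw h1) (R.iso 2 (by tauto) u)
          · exact absurd (sw h1) (R.iso 3 (by tauto) u)
          · exact absurd (sw h1) (R.iso 4 (by tauto) u)
          · exact absurd (sw h1) (R.iso 5 (by tauto) u)
          · exact h5
      · exact Or.inr h1
    · rintro (⟨⟨h1, h2, h3⟩, h4⟩ | h1)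
      · refine ⟨?_, R.fwd h2, R.fwd h3⟩
        rw [tg_st1 R.cyc R.st, mem_union, mem_sdiff]
        exact Or.inl ⟨h1, h4⟩
      · refine ⟨?_, ?_⟩
        · rw [tg_st1 R.cyc R.st, mem_union]
          exact Or.inr h1
        · have h0 := R.others 0
          have h1' := R.others 1
          have h2 := R.others 2
          have h3 := R.others 3
          have h4 := R.others 4
          have h5 := R.others 5
          simp only [mem_insert, mem_singleton, Sym2.eq_iff] at h1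
          rcases h1 with (⟨rfl, rfl⟩ | ⟨rfl, rfl⟩) | (⟨rfl, rfl⟩ | ⟨rfl, rfl⟩) |
            (⟨rfl, rfl⟩ | ⟨rfl, rfl⟩) | (⟨rfl, rfl⟩ | ⟨rfl, rfl⟩) |
            (⟨rfl, rfl⟩ | ⟨rfl, rfl⟩) <;> constructor <;> assumption

theorem Rep5.h01 (R : Rep5 D a b z c ω) : s(c 0, c 1) ∈ path a ω := by
  unfold path
  rw [mem_filter]
  refine ⟨R.st.1, ?_⟩
  simp only [Sym2.mem_iff, forall_eq_or_imp, forall_eq]
  exact ⟨R.cmp, R.c1⟩

theorem Rep5.path_card (R : Rep5 D a b z c ω) :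
    (path a (tg z ω)).card = (path a ω).card + 4 := by
  rw [R.path_eq]
  have hsub : ∀ e, e ∉ ω → e ∉ path a ω := fun e he h => he (mem_filter.1 h).1
  exact card_swap5 R.cyc R.h01 (hsub _ R.st.2.1) (hsub _ R.st.2.2.1) (hsub _ R.st.2.2.2.1)
    (hsub _ R.st.2.2.2.2.1) (hsub _ R.st.2.2.2.2.2)

theorem Rep5.card (R : Rep5 D a b z c ω) : (tg z ω).card = ω.card + 4 := by
  rw [tg_st1 R.cyc R.st]
  exact card_swap5 R.cyc R.st.1 R.st.2.1 R.st.2.2.1 R.st.2.2.2.1 R.st.2.2.2.2.1 R.st.2.2.2.2.2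

/-- the edges of the loops do not change -/
theorem Rep5.rest (R : Rep5 D a b z c ω) : tg z ω \ path a (tg z ω) = ω \ path a ω := by
  rw [R.path_eq]
  have h01 := R.h01
  obtain ⟨s1, s2, s3, s4, s5, s6⟩ := R.st
  rw [tg_st1 R.cyc ⟨s1, s2, s3, s4, s5, s6⟩]
  ext e
  simp only [mem_sdiff, mem_union, mem_insert, mem_singleton]
  constructor
  · rintro ⟨(⟨h1, h2⟩ | h1), h3⟩
    · exact ⟨h1, fun h4 => h3 (Or.inl ⟨h4, h2⟩)⟩
    · exact absurd (Or.inr h1) h3
  · rintro ⟨h1, h2⟩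
    have g1 : ¬ (e = s(c 0, c 1)) := by
      rintro rfl
      exact h2 h01
    refine ⟨Or.inl ⟨h1, g1⟩, ?_⟩
    rintro (⟨h3, -⟩ | rfl | rfl | rfl | rfl | rfl)
    · exact h2 h3
    · exact s2 h1
    · exact s3 h1
    · exact s4 h1
    · exact s5 h1
    · exact s6 h1

theorem Rep5.loops_eq (R : Rep5 D a b z c ω) : Loops (tg z ω) = Loops ω := by
  have hagree : ∀ u t, u ∉ Set.range c → (s(u, t) ∈ tg z ω ↔ s(u, t) ∈ ω) := fun u t hu =>
    R.mem_iff fun j hj => hu ⟨j, hj⟩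
  have hnot : ∀ (ω' : Finset (Sym2 P)), Config D a b ω' → ∀ A ∈ Loops ω', ∀ u ∈ A,
      u ∉ comp ω' a := by
    rintro ω' h' A ⟨v, rfl, h2⟩ u hu hu'
    have h3 : a ∈ comp ω' v := comp_trans hu (comp_symm hu')
    have h4 := h2 a h3
    rw [h'.2.1] at h4
    exact absurd h4 (by decide)
  have hd : ∀ (ω' : Finset (Sym2 P)), ∀ A ∈ Loops ω', ∀ u ∈ A, ¬ ∀ t, s(u, t) ∉ ω' := by
    rintro ω' A ⟨v, rfl, h2⟩ u hu h
    have h4 := h2 u hu
    have h5 : deg ω' u = 0 := by
      unfold deg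
      have : {t : P | s(u, t) ∈ ω'} = ∅ := by
        ext t
        simp [h t]
      rw [this, Set.ncard_empty]
    rw [h5] at h4
    exact absurd h4 (by decide)
  ext A
  constructor
  · intro hA
    refine loops_agree (ω := tg z ω) (F := Set.range c) hagree hA ?_
    rintro u hu ⟨j, rfl⟩
    exact hnot _ R.cfg' A hA _ hu (R.others j)
  · intro hA
    refine loops_agree (ω := ω) (F := Set.range c) (fun u t hu => (hagree u t hu).symm) hA ?_
    rintro u hu ⟨j, rfl⟩
    have h1 := hnot _ R.cfg A hA _ hu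
    have h2 := hd _ A hA _ hu
    fin_cases j
    · exact h1 R.cmp
    · exact h1 R.c1
    · exact h2 (R.iso 2 (by tauto))
    · exact h2 (R.iso 3 (by tauto))
    · exact h2 (R.iso 4 (by tauto))
    · exact h2 (R.iso 5 (by tauto))

theorem Rep5.wt_eq (R : Rep5 D a b z c ω) (x n : ℝ) : wt x n (tg z ω) = x ^ 4 * wt x n ω := by
  unfold wt loops
  rw [R.loops_eq, R.card, pow_add]
  ring

/-! ## the path -/

theorem pth_st1 (hD : D.Finite) (hab : a ≠ b) (h : Config D a b ω) {i : ℕ} {v : P}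
    {A B : List P} (S : Site D a b i ω v A B) (hi : 20 * (i + 1) + 10 ≤ lev a b)
    (hG : s(v, sw1 D a i v) ∈ ω) (h2 : St1 ω (sc D a i v)) :
    Rep5 D a b (cen D a i v) (sc D a i v) ω ∧ ∃ B',
      pth ω a b = A ++ [v, sw1 D a i v, sc D a i v 0] ++ sc D a i v 1 :: B' ∧
      pth (tg (cen D a i v) ω) a b = A ++ [v, sw1 D a i v, sc D a i v 0, sc D a i v 5,
        sc D a i v 4, sc D a i v 3, sc D a i v 2] ++ sc D a i v 1 :: B' := by
  have hfr := S.frame h
  have hz := (cen_spec S.vH).1.1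
  have hzD := (cen_spec S.vH).1.2.1
  have hvF := cen_self S.vH
  have hfol := S.fol hD hab h
  have hna := S.not_a
  have hnb := S.not_b hi
  have hAF : ∀ x ∈ A, x ∉ Flower (cen D a i v) := fun x hx hx' => S.av x hx (cen_sub S.vH hx')
  change IsFr (cen D a i v) v (sw1 D a i v) (sc D a i v) (sg D a i v) at hfr
  obtain ⟨A', p, eA, hpv, hpF⟩ := S.prv
  generalize sw1 D a i v = w at *
  generalize sc D a i v = c at *
  generalize sg D a i v = g at *
  generalize cen D a i v = z at *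
  have hcyc : Cyc z c := ⟨hz, hfr.cc, hfr.inj, hfr.hex⟩
  have hcz : ∀ j, c j ∈ hexagon z := fun j => (hfr.hex _).2 ⟨j, rfl⟩
  have hcF : ∀ j, c j ∈ Flower z := fun j => hexagon_sub_flower z (hcz j)
  have hwF : w ∈ Flower z := hfr.gF 0 hfr.wg
  have hca : ∀ j, c j ≠ a := fun j hj => hna (hj ▸ hcF j)
  have hcb : ∀ j, c j ≠ b := fun j hj => hnb (hj ▸ hcF j)
  have hwc : ∀ j, w ≠ c j := fun j hj => hfr.wz (hj ▸ hcz j)
  have hvc : ∀ j, v ≠ c j := fun j hj => hfr.vz (hj ▸ hcz j)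
  have hcfg' : Config D a b (tg z ω) := tg_config hz ((hexagon_sub_flower z).trans hzD)
    (fun h1 => hna (hexagon_sub_flower z h1)) (fun h1 => hnb (hexagon_sub_flower z h1)) h
  have hne : ∀ j k : Fin 6, j ≠ k → c j ≠ c k := fun j k hjk h1 => hjk (hfr.inj _ _ h1)
  have hw0 : s(w, c 0) ∈ ω := by
    have : s(c 0, w) ∈ ω := by
      refine h.fork (hca 0) (hcb 0) (x := c 1) (y := c 5) (hne _ _ (by decide)) (hfr.cc 0)
        (nbr_symm (hfr.cc 5)) (nbr_symm hfr.wc) (hwc 1) (hwc 5) h2.1 ?_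
      intro h3
      exact h2.2.2.2.2.2 (sw h3)
    exact sw this
  have hiso : ∀ j : Fin 6, (j = 2 ∨ j = 3 ∨ j = 4 ∨ j = 5) → ∀ u, s(c j, u) ∉ ω := by
    rintro j (rfl | rfl | rfl | rfl)
    · refine h.iso (hca 2) (hcb 2) (x := c 1) (y := c 3) (hne _ _ (by decide))
        (nbr_symm (hfr.cc 1)) (hfr.cc 2) (fun h3 => h2.2.1 (sw h3)) h2.2.2.1
    · refine h.iso (hca 3) (hcb 3) (x := c 2) (y := c 4) (hne _ _ (by decide))
        (nbr_symm (hfr.cc 2)) (hfr.cc 3) (fun h3 => h2.2.2.1 (sw h3)) h2.2.2.2.1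
    · refine h.iso (hca 4) (hcb 4) (x := c 3) (y := c 5) (hne _ _ (by decide))
        (nbr_symm (hfr.cc 3)) (hfr.cc 4) (fun h3 => h2.2.2.2.1 (sw h3)) h2.2.2.2.2.1
    · refine h.iso (hca 5) (hcb 5) (x := c 4) (y := c 0) (hne _ _ (by decide))
        (nbr_symm (hfr.cc 4)) (hfr.cc 5) (fun h3 => h2.2.2.2.2.1 (sw h3)) h2.2.2.2.2.2
  have hvw : v ≠ w := h.ne hG
  have hAn : ∀ x, x ∈ Flower z → x ∉ A := fun x hx hx' => hAF x hx' hx
  have f1 : Fol ω a (A ++ [v, w, c 0, c 1]) := by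
    refine ⟨?_, ?_, ?_⟩
    · rw [← hfol.1, eA]
      rcases A' with _ | ⟨q, A'⟩ <;> rfl
    · rw [List.nodup_append]
      refine ⟨(List.nodup_append.1 hfol.2.1).1, ?_, ?_⟩
      · simp only [List.nodup_cons, List.mem_cons, List.not_mem_nil, or_false, not_or,
          not_false_eq_true, List.nodup_nil, and_true]
        exact ⟨⟨hvw, hvc 0, hvc 1⟩, ⟨hwc 0, hwc 1⟩, hne _ _ (by decide)⟩
      · rintro x hx y hy rfl
        simp only [List.mem_cons, List.not_mem_nil, or_false] at hy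
        rcases hy with rfl | rfl | rfl | rfl
        · exact hAn _ hvF hx
        · exact hAn _ hwF hx
        · exact hAn _ (hcF 0) hx
        · exact hAn _ (hcF 1) hx
    · refine chain_app hfol.2.2 ?_
      simp only [List.isChain_cons_cons, List.isChain_singleton, and_true]
      exact ⟨hG, hw0, h2.1⟩
  obtain ⟨B', hB'⟩ := fol_le_pth hab h (pth_spec hD hab h) f1
  have hpt : pth ω a b = A ++ [v, w, c 0] ++ c 1 :: B' := by
    rw [← hB']
    simp
  have hR : Rep5 D a b z c ω := by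
    refine ⟨hcyc, h, hcfg', h2, hiso, ?_⟩
    exact fol_comp f1 _ (by simp)
  refine ⟨hR, B', hpt, ?_⟩
  have hspec := pth_spec hD hab h
  rw [hpt] at hspec
  have hnd := hspec.1.2.1
  have hch := hspec.1.2.2
  have hlast : (c 1 :: B').getLast? = some b := by
    have h3 := hspec.2
    rw [List.getLast?_append] at h3
    have h4 : (c 1 :: B').getLast? ≠ none := by simp
    obtain ⟨y, hy⟩ := Option.ne_none_iff_exists'.1 h4
    rw [hy, Option.some_or] at h3
    rw [hy, h3]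
  have hB1 : ∀ j : Fin 6, (j = 2 ∨ j = 3 ∨ j = 4 ∨ j = 5) → c j ∉ c 1 :: B' := by
    intro j hj hmem
    have h3 : c j ∈ comp ω a := fol_comp hspec.1 _ (by
      rw [List.mem_append]
      exact Or.inr hmem)
    refine hR.new ?_ h3
    rcases hj with rfl | rfl | rfl | rfl <;> tauto
  have hB2 : ∀ x ∈ A ++ [v, w, c 0], x ∉ c 1 :: B' := by
    intro x hx hx'
    rw [List.nodup_append] at hnd
    exact hnd.2.2 x hx x hx' rfl
  have hc0 : c 0 ∉ c 1 :: B' := hB2 _ (by simp)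
  have hchB : (c 1 :: B').IsChain (fun p q => s(p, q) ∈ ω) := (List.isChain_append.1 hch).2.1
  have hchA : (A ++ [v, w, c 0]).IsChain (fun p q => s(p, q) ∈ ω) :=
    (List.isChain_append.1 hch).1
  have hold : ∀ u t, s(u, t) ∈ ω → s(u, t) ≠ s(c 0, c 1) → s(u, t) ∈ tg z ω := by
    intro u t h3 h4
    rw [tg_st1 hcyc h2, mem_union, mem_sdiff, mem_singleton]
    exact Or.inl ⟨h3, h4⟩
  have hchA' : (A ++ [v, w, c 0]).IsChain (fun p q => s(p, q) ∈ tg z ω) := by
    have hn : ∀ p ∈ A ++ [v, w, c 0], p ≠ c 1 := by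
      rintro p hp rfl
      rw [List.mem_append] at hp
      rcases hp with hp | hp
      · exact hAn _ (hcF 1) hp
      · simp only [List.mem_cons, List.not_mem_nil, or_false] at hp
        rcases hp with hp | hp | hp
        · exact hvc 1 hp.symm
        · exact hwc 1 hp.symm
        · exact hne 1 0 (by decide) hp
    refine chain_old hchA fun p hp q hq hpq => hold _ _ hpq ?_
    rw [Ne, Sym2.eq_iff]
    rintro (⟨h3, h4⟩ | ⟨h3, h4⟩)
    · exact hn q hq h4
    · exact hn p hp h3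
  have hchB' : (c 1 :: B').IsChain (fun p q => s(p, q) ∈ tg z ω) := by
    have hn : ∀ p ∈ c 1 :: B', p ≠ c 0 := by
      rintro p hp rfl
      exact hc0 hp
    refine chain_old hchB fun p hp q hq hpq => hold _ _ hpq ?_
    rw [Ne, Sym2.eq_iff]
    rintro (⟨h3, h4⟩ | ⟨h3, h4⟩)
    · exact hn p hp h3
    · exact hn q hq h4
  refine pth_eq hD hab hcfg' ⟨⟨?_, ?_, ?_⟩, ?_⟩
  · rw [← hfol.1, eA]
    rcases A' with _ | ⟨q, A'⟩ <;> rfl
  · rw [List.nodup_append] at hnd ⊢
    refine ⟨?_, hnd.2.1, ?_⟩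
    · rw [List.nodup_append]
      refine ⟨(List.nodup_append.1 hfol.2.1).1, ?_, ?_⟩
      · simp only [List.nodup_cons, List.mem_cons, List.not_mem_nil, or_false, not_or,
          not_false_eq_true, List.nodup_nil, and_true]
        exact ⟨⟨hvw, hvc 0, hvc 5, hvc 4, hvc 3, hvc 2⟩, ⟨hwc 0, hwc 5, hwc 4, hwc 3, hwc 2⟩,
          ⟨hne _ _ (by decide), hne _ _ (by decide), hne _ _ (by decide), hne _ _ (by decide)⟩,
          ⟨hne _ _ (by decide), hne _ _ (by decide), hne _ _ (by decide)⟩,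
          ⟨hne _ _ (by decide), hne _ _ (by decide)⟩, hne _ _ (by decide)⟩
      · rintro x hx y hy rfl
        simp only [List.mem_cons, List.not_mem_nil, or_false] at hy
        rcases hy with rfl | rfl | rfl | rfl | rfl | rfl | rfl
        · exact hAn _ hvF hx
        · exact hAn _ hwF hx
        · exact hAn _ (hcF 0) hx
        · exact hAn _ (hcF 5) hx
        · exact hAn _ (hcF 4) hx
        · exact hAn _ (hcF 3) hx
        · exact hAn _ (hcF 2) hx
    · rintro x hx y hy rfl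
      rw [List.mem_append] at hx
      rcases hx with hx | hx
      · exact hB2 x (by rw [List.mem_append]; exact Or.inl hx) hy
      · simp only [List.mem_cons, List.not_mem_nil, or_false] at hx
        rcases hx with rfl | rfl | rfl | rfl | rfl | rfl | rfl
        · exact hB2 _ (by simp) hy
        · exact hB2 _ (by simp) hy
        · exact hB2 _ (by simp) hy
        · exact hB1 5 (by tauto) hy
        · exact hB1 4 (by tauto) hy
        · exact hB1 3 (by tauto) hy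
        · exact hB1 2 (by tauto) hy
  · have e1 : A ++ [v, w, c 0, c 5, c 4, c 3, c 2] ++ c 1 :: B' =
        (A ++ [v, w]) ++ c 0 :: ([c 5, c 4, c 3, c 2] ++ c 1 :: B') := by simp
    rw [e1]
    refine chain_app (by simpa using hchA') ?_
    have e5 := hR.edges (j := 5) (by tauto)
    have e4 := hR.edges (j := 4) (by tauto)
    have e3 := hR.edges (j := 3) (by tauto)
    have e2 := hR.edges (j := 2) (by tauto)
    have e1 := hR.edges (j := 1) (by tauto)
    simp only [List.cons_append, List.nil_append, List.isChain_cons_cons]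
    exact ⟨sw e5, sw e4, sw e3, sw e2, sw e1, hchB'⟩
  · rw [List.getLast?_append, hlast, Option.some_or]

theorem hit_st1 (hD : D.Finite) (hab : a ≠ b) (h : Config D a b ω) {i : ℕ} {v : P}
    {A B : List P} (S : Site D a b i ω v A B) (hi : 20 * (i + 1) + 10 ≤ lev a b)
    (hG : s(v, sw1 D a i v) ∈ ω) (h2 : St1 ω (sc D a i v)) (j : ℕ) (hj : j ≠ i) :
    hit D a b j (tg (cen D a i v) ω) = hit D a b j ω := by
  obtain ⟨-, B', e1, e2⟩ := pth_st1 hD hab h S hi hG h2
  have hfr := S.frame h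
  change IsFr (cen D a i v) v (sw1 D a i v) (sc D a i v) (sg D a i v) at hfr
  have hcF : ∀ k, sc D a i v k ∉ HH D a j := fun k => flower_HH hj S.vH
    (hexagon_sub_flower _ ((hfr.hex _).2 ⟨k, rfl⟩))
  have hwF : sw1 D a i v ∉ HH D a j := flower_HH hj S.vH (hfr.gF 0 hfr.wg)
  have hvF : v ∉ HH D a j := flower_HH hj S.vH (cen_self S.vH)
  unfold hit
  rw [e1, e2]
  refine find_mid ?_ ?_
  · intro x hx
    simp only [List.mem_cons, List.not_mem_nil, or_false] at hx
    rcases hx with rfl | rfl | rfl | rfl | rfl | rfl | rfl <;>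
      first | exact hvF | exact hwF | exact hcF _
  · intro x hx
    simp only [List.mem_cons, List.not_mem_nil, or_false] at hx
    rcases hx with rfl | rfl | rfl <;> first | exact hvF | exact hwF | exact hcF _

/-- the pattern is good -/
def Gd5 (D : Set P) (a : P) (i : ℕ) (v : P) (ω : Finset (Sym2 P)) : Prop :=
  IsFr (cen D a i v) v (sw1 D a i v) (sc D a i v) (sg D a i v) ∧ v ∈ HH D a i ∧
    s(v, sw1 D a i v) ∈ ω ∧ (St1 ω (sc D a i v) ∨ St5 ω (sc D a i v))

theorem st1_tg_iff {z h : P} (hh : Even (h.1 + h.2)) {c : Fin 6 → P}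
    (hd : ∀ j, c j ∉ hexagon h) : (St1 (tg h ω) c ↔ St1 ω c) ∧ (St5 (tg h ω) c ↔ St5 ω c) := by
  have key : ∀ j k, s(c j, c k) ∈ tg h ω ↔ s(c j, c k) ∈ ω := fun j k =>
    mem_tg_of_not (fun h1 => hd j ((mem_hexE hh).1 h1).1)
  unfold St1 St5
  simp only [key]
  exact ⟨trivial, trivial⟩

theorem gd5_tg {h : P} (hh : Even (h.1 + h.2)) {j : ℕ} {v : P}
    (hd : ∀ x ∈ hexagon h, x ∉ Flower (cen D a j v)) :
    Gd5 D a j v (tg h ω) ↔ Gd5 D a j v ω := by
  unfold Gd5
  constructor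
  · rintro ⟨h1, h2, h3, h4⟩
    have h5 := st1_tg_iff (z := h) (ω := ω) hh (c := sc D a j v) (fun k hk => hd _ hk
      (hexagon_sub_flower _ ((h1.hex _).2 ⟨k, rfl⟩)))
    rw [h5.1, h5.2] at h4
    refine ⟨h1, h2, ?_, h4⟩
    rwa [mem_tg_of_not] at h3
    exact fun h6 => hd _ ((mem_hexE hh).1 h6).1 (cen_self h2)
  · rintro ⟨h1, h2, h3, h4⟩
    have h5 := st1_tg_iff (z := h) (ω := ω) hh (c := sc D a j v) (fun k hk => hd _ hk
      (hexagon_sub_flower _ ((h1.hex _).2 ⟨k, rfl⟩)))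
    rw [h5.1, h5.2]
    refine ⟨h1, h2, ?_, h4⟩
    rwa [mem_tg_of_not]
    exact fun h6 => hd _ ((mem_hexE hh).1 h6).1 (cen_self h2)

theorem hit_flip5 (hD : D.Finite) (hab : a ≠ b) (h : Config D a b ω) {i : ℕ} {v : P}
    {A B : List P} (S : Site D a b i ω v A B) (hi : 20 * (i + 1) + 10 ≤ lev a b)
    (hG : Gd5 D a i v ω) (j : ℕ) :
    hit D a b j (tg (cen D a i v) ω) = hit D a b j ω := by
  have hz := (cen_spec S.vH).1.1
  obtain ⟨hcf, B', S'⟩ := site_tg hD hab h S hi hz (hexagon_sub_flower _)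
  by_cases hj : j = i
  · subst hj
    rw [S.hit, S'.hit]
  · obtain ⟨hfr, -, h3, h4⟩ := hG
    have hcyc := hfr.cyc hz
    rcases h4 with h4 | h4
    · exact hit_st1 hD hab h S hi h3 h4 j hj
    · have h5 : s(v, sw1 D a i v) ∈ tg (cen D a i v) ω := by
        rwa [mem_tg_of_not]
        exact fun h6 => hfr.vz ((mem_hexE hz).1 h6).1
      have h6 := hit_st1 hD hab hcf S' hi h5 ((st1_tg hcyc).2 h4) j hj
      rw [tg_tg] at h6
      exact h6.symm

/-- the sites -/
def Gi5 (D : Set P) (a b : P) (i : ℕ) (ω : Finset (Sym2 P)) : Prop :=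
  ∃ v, hit D a b i ω = some v ∧ Gd5 D a i v ω

def Sti5 (D : Set P) (a b : P) (i : ℕ) (ω : Finset (Sym2 P)) : Prop :=
  ∃ v, hit D a b i ω = some v ∧ St5 ω (sc D a i v)

theorem gi5_iff {i : ℕ} {v : P} (h : hit D a b i ω = some v) :
    Gi5 D a b i ω ↔ Gd5 D a i v ω := by
  unfold Gi5
  constructor
  · rintro ⟨v', h1, h2⟩
    rw [h, Option.some.injEq] at h1
    rwa [h1]
  · exact fun h1 => ⟨v, h, h1⟩

theorem sti5_iff {i : ℕ} {v : P} (h : hit D a b i ω = some v) :
    Sti5 D a b i ω ↔ St5 ω (sc D a i v) := by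
  unfold Sti5
  constructor
  · rintro ⟨v', h1, h2⟩
    rw [h, Option.some.injEq] at h1
    rwa [h1]
  · exact fun h1 => ⟨v, h, h1⟩

theorem gd5_flip {i : ℕ} {v : P} (h : Gd5 D a i v ω) : Gd5 D a i v (tg (cen D a i v) ω) := by
  obtain ⟨hfr, h2, h3, h4⟩ := h
  have hz := (cen_spec h2).1.1
  refine ⟨hfr, h2, ?_, ?_⟩
  · rwa [mem_tg_of_not]
    exact fun h6 => hfr.vz ((mem_hexE hz).1 h6).1
  · rw [st1_tg (hfr.cyc hz), st5_tg (hfr.cyc hz)]
    exact h4.symm

theorem gd5_flip_iff {i : ℕ} {v : P} :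
    Gd5 D a i v (tg (cen D a i v) ω) ↔ Gd5 D a i v ω := by
  constructor
  · intro h
    have h1 := gd5_flip h
    rwa [tg_tg] at h1
  · exact gd5_flip

theorem flips5 (hD : D.Finite) (hF : Fat D) (hab : a ≠ b) (x n : ℝ) (m : ℕ)
    (hm : 20 * m + 10 ≤ lev a b ∨ m = 0) :
    Flips (TT D hD a b) (wt x n) (x ^ 4) m (Gi5 D a b) (Sti5 D a b) (fi D a b) := by
  have key : ∀ i < m, ∀ ω ∈ TT D hD a b, ∃ (v : P) (A B : List P), Site D a b i ω v A B ∧
      20 * (i + 1) + 10 ≤ lev a b ∧ Config D a b ω := by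
    intro i hi ω hω
    rw [mem_TT hD] at hω
    have h1 : 20 * (i + 1) + 10 ≤ lev a b := by omega
    obtain ⟨v, A, B, h2⟩ := site_exists hD hF hab hω h1
    exact ⟨v, A, B, h2, h1, hω⟩
  have hother : ∀ i < m, ∀ ω ∈ TT D hD a b, ∀ j < m, j ≠ i →
      ∀ v', hit D a b j ω = some v' → ∀ v, hit D a b i ω = some v → ∀ y ∈ hexagon (cen D a i v),
      y ∉ Flower (cen D a j v') := by
    intro i hi ω hω j hj hji v' hv' v hv y hy
    obtain ⟨v1, A, B, S1, -, -⟩ := key i hi ω hω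
    obtain ⟨v2, A2, B2, S2, -, -⟩ := key j hj ω hω
    rw [S1.hit, Option.some.injEq] at hv
    rw [S2.hit, Option.some.injEq] at hv'
    subst hv hv'
    exact flower_disjoint (Ne.symm hji) S1.vH S2.vH (hexagon_sub_flower _ hy)
  refine ⟨?_, ?_, ?_, ?_, ?_, ?_⟩
  · intro i hi ω hω hG
    obtain ⟨v, A, B, S1, h1, h2⟩ := key i hi ω hω
    rw [fi_eq S1.hit, mem_TT hD]
    exact (site_tg hD hab h2 S1 h1 (cen_spec S1.vH).1.1 (hexagon_sub_flower _)).1
  · intro i hi ω hω hG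
    obtain ⟨v, A, B, S1, h1, h2⟩ := key i hi ω hω
    obtain ⟨h3, B', S2⟩ := site_tg hD hab h2 S1 h1 (cen_spec S1.vH).1.1 (hexagon_sub_flower _)
    rw [fi_eq S1.hit, fi_eq S2.hit, tg_tg]
  · intro i hi ω hω hG j hj
    obtain ⟨v, A, B, S1, h1, h2⟩ := key i hi ω hω
    obtain ⟨v', A', B', S2, h3, -⟩ := key j hj ω hω
    have hGd := (gi5_iff S1.hit).1 hG
    have hh := hit_flip5 hD hab h2 S1 h1 hGd j
    have hh' := S2.hit
    rw [fi_eq S1.hit, gi5_iff hh', gi5_iff (hh.trans hh')]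
    by_cases hji : j = i
    · subst hji
      have : v' = v := by
        have h4 := S1.hit
        rw [hh', Option.some.injEq] at h4
        exact h4
      subst this
      rw [gd5_flip_iff]
    · rw [gd5_tg (cen_spec S1.vH).1.1 (hother i hi ω hω j hj hji v' hh' v S1.hit)]
  · intro i hi ω hω hG j hj hji
    obtain ⟨v, A, B, S1, h1, h2⟩ := key i hi ω hω
    obtain ⟨v', A', B', S2, h3, -⟩ := key j hj ω hω
    have hGd := (gi5_iff S1.hit).1 hG
    have hh := hit_flip5 hD hab h2 S1 h1 hGd j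
    have hh' := S2.hit
    rw [fi_eq S1.hit, sti5_iff hh', sti5_iff (hh.trans hh')]
    have hfr := S2.frame h2
    have ho := hother i hi ω hω j hj hji v' hh' v S1.hit
    refine (st1_tg_iff (z := v) (cen_spec S1.vH).1.1 fun k hk => ho _ hk ?_).2
    exact hexagon_sub_flower _ ((hfr.hex _).2 ⟨k, rfl⟩)
  · intro i hi ω hω hG
    obtain ⟨v, A, B, S1, h1, h2⟩ := key i hi ω hω
    obtain ⟨hfr, -, -, h4⟩ := (gi5_iff S1.hit).1 hG
    have hh := hit_flip5 hD hab h2 S1 h1 ((gi5_iff S1.hit).1 hG) i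
    have hcyc := hfr.cyc (cen_spec S1.vH).1.1
    rw [fi_eq S1.hit, sti5_iff S1.hit, sti5_iff (hh.trans S1.hit), st5_tg hcyc]
    constructor
    · exact fun h5 => st1_not h5
    · intro h5
      rcases h4 with h4 | h4
      · exact h4
      · exact absurd h4 h5
  · intro i hi ω hω hG hs
    obtain ⟨v, A, B, S1, h1, h2⟩ := key i hi ω hω
    obtain ⟨hfr, -, h3, h4⟩ := (gi5_iff S1.hit).1 hG
    rw [sti5_iff S1.hit] at hs
    have h5 : St1 ω (sc D a i v) := by
      rcases h4 with h4 | h4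
      · exact h4
      · exact absurd h4 hs
    rw [fi_eq S1.hit]
    exact (pth_st1 hD hab h2 S1 h1 h3 h5).1.wt_eq x n

end Q214.LO
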