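import Pool.Agent.Q214.LO.Cfg

/-!
# The path of a configuration as a list of vertices
-/

set_option autoImplicit false

namespace Q214.LO

open Finset
open scoped Classical

variable {D : Set P} {a b : P} {ω : Finset (Sym2 P)}

/-- chains of the configuration without repetition which start at `a` -/
def Fol (ω : Finset (Sym2 P)) (a : P) (l : List P) : Prop :=
  l.head? = some a ∧ l.Nodup ∧ l.IsChain (fun p q => s(p, q) ∈ ω)

/-- two lists are comparable or they branch -/
theorem branch {β : Type} (l1 l2 : List β) : l1 <+: l2 ∨ l2 <+: l1 ∨
    ∃ (r : List β) (u u' : β) (t t' : List β), u ≠ u' ∧ l1 = r ++ u :: t ∧ l2 = r ++ u' :: t' := by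
  induction l1 generalizing l2 with
  | nil => exact Or.inl List.nil_prefix
  | cons x l1 ih =>
    rcases l2 with _ | ⟨y, l2⟩
    · exact Or.inr (Or.inl List.nil_prefix)
    · by_cases h : x = y
      · subst h
        rcases ih l2 with h1 | h1 | ⟨r, u, u', t, t', h1, h2, h3⟩
        · exact Or.inl ((List.prefix_cons_inj x).2 h1)
        · exact Or.inr (Or.inl ((List.prefix_cons_inj x).2 h1))
        · exact Or.inr (Or.inr ⟨x :: r, u, u', t, t', h1, by rw [h2]; rfl, by rw [h3]; rfl⟩)
      · exact Or.inr (Or.inr ⟨[], x, y, l1, l2, h, rfl, rfl⟩)

theorem chain_mid {R : P → P → Prop} {l l' : List P} {x y : P}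
    (h : (l ++ x :: y :: l').IsChain R) : R x y := by
  rw [List.isChain_append_cons_cons] at h
  exact h.2.1

theorem fol_prefix {l l' : List P} (h : Fol ω a l) (h1 : l' <+: l) (h2 : l' ≠ []) :
    Fol ω a l' := by
  obtain ⟨t, rfl⟩ := h1
  refine ⟨?_, ?_, ?_⟩
  · rw [← h.1]
    rcases l' with _ | ⟨x, l'⟩
    · exact absurd rfl h2
    · rfl
  · exact (List.nodup_append.1 h.2.1).1
  · exact (List.isChain_append.1 h.2.2).1

theorem sw {u v : P} (h : s(u, v) ∈ ω) : s(v, u) ∈ ω := by rwa [Sym2.eq_swap] at h

/-- the chain is determined -/
theorem fol_comparable (h : Config D a b ω) {l1 l2 : List P} (h1 : Fol ω a l1) (h2 : Fol ω a l2) :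
    l1 <+: l2 ∨ l2 <+: l1 := by
  rcases branch l1 l2 with h3 | h3 | ⟨r, u, u', t, t', hne, e1, e2⟩
  · exact Or.inl h3
  · exact Or.inr h3
  · exfalso
    rcases List.eq_nil_or_concat' r with rfl | ⟨r', x, rfl⟩
    · have a1 := h1.1
      have a2 := h2.1
      rw [e1] at a1
      rw [e2] at a2
      simp only [List.nil_append, List.head?_cons, Option.some.injEq] at a1 a2
      exact hne (a1.trans a2.symm)
    · have c1 := h1.2.2
      have c2 := h2.2.2
      rw [e1, List.append_assoc, List.singleton_append] at c1
      rw [e2, List.append_assoc, List.singleton_append] at c2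
      have b1 : s(x, u) ∈ ω := chain_mid c1
      have b2 : s(x, u') ∈ ω := chain_mid c2
      rcases List.eq_nil_or_concat' r' with rfl | ⟨r'', y, rfl⟩
      · have a1 := h1.1
        rw [e1] at a1
        simp only [List.nil_append, List.cons_append, List.head?_cons, Option.some.injEq] at a1
        exact hne (h.end_unique (Or.inl a1) b1 b2)
      · have b3 : s(y, x) ∈ ω := by
          rw [List.append_assoc, List.singleton_append] at c1
          exact chain_mid c1
        have d1 := h1.2.1
        have d2 := h2.2.1
        rw [e1] at d1
        rw [e2] at d2
        have hyu : y ≠ u := by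
          rintro rfl
          rw [List.nodup_append] at d1
          exact d1.2.2 y (by simp) y (by simp) rfl
        have hyu' : y ≠ u' := by
          rintro rfl
          rw [List.nodup_append] at d2
          exact d2.2.2 y (by simp) y (by simp) rfl
        have hxa : x ≠ a := by
          rintro rfl
          have a1 := h1.1
          rw [e1] at a1
          rcases r'' with _ | ⟨q, r''⟩
          · simp only [List.nil_append, List.cons_append, List.head?_cons, Option.some.injEq] at a1
            exact h.ne b3 a1
          · simp only [List.cons_append, List.head?_cons, Option.some.injEq] at a1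
            subst a1
            simp at d1
        by_cases hxb : x = b
        · exact hne (h.end_unique (Or.inr hxb) b1 b2)
        · rcases h.two hxa hxb (sw b3) b1 b2 with h4 | h4 | h4
          · exact hyu h4
          · exact hyu' h4
          · exact hne h4

/-- extension of a chain which has not reached `b` -/
theorem fol_extend (h : Config D a b ω) {l : List P} {v : P} (h1 : Fol ω a (l ++ [v]))
    (hv : v ≠ b) : ∃ u, Fol ω a (l ++ [v] ++ [u]) := by
  rcases List.eq_nil_or_concat' l with rfl | ⟨l', p, rfl⟩
  · have a1 := h1.1
    simp only [List.nil_append, List.head?_cons, Option.some.injEq] at a1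
    subst a1
    obtain ⟨u, hu⟩ := h.end_exists (v := v) (Or.inl rfl)
    refine ⟨u, rfl, ?_, ?_⟩
    · simp only [List.nil_append, List.cons_append, List.nodup_cons, List.mem_singleton,
        List.not_mem_nil, not_false_eq_true, List.nodup_nil, and_true]
      exact h.ne hu
    · simpa using hu
  · have c1 := h1.2.2
    have b1 : s(p, v) ∈ ω := by
      rw [List.append_assoc, List.singleton_append] at c1
      exact chain_mid c1
    have d1 := h1.2.1
    have hva : v ≠ a := by
      rintro rfl
      have a1 := h1.1
      rcases l' with _ | ⟨q, l'⟩
      · simp only [List.nil_append, List.cons_append, List.head?_cons, Option.some.injEq] at a1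
        exact h.ne b1 a1
      · simp only [List.cons_append, List.head?_cons, Option.some.injEq] at a1
        subst a1
        simp at d1
    obtain ⟨u, hup, hu⟩ := h.other hva hv (sw b1)
    refine ⟨u, ?_, ?_, ?_⟩
    · rw [← h1.1]
      rcases l' with _ | ⟨q, l'⟩ <;> rfl
    · rw [List.nodup_append]
      refine ⟨d1, by simp, ?_⟩
      rintro x hx y hy rfl
      rw [List.mem_singleton] at hy
      subst hy
      rw [List.mem_append, List.mem_singleton] at hx
      rcases hx with hx | hx
      · obtain ⟨r, t, hrt⟩ := List.append_of_mem hx
        rcases t with _ | ⟨t0, t⟩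
        · have := List.append_inj_right' hrt rfl
          simp only [List.cons.injEq, and_true] at this
          exact hup this.symm
        · rw [hrt] at c1 d1
          have e0 : r ++ x :: t0 :: t ++ [v] = r ++ x :: t0 :: (t ++ [v]) := by simp
          rw [e0] at c1 d1
          have g1 : s(x, t0) ∈ ω := chain_mid c1
          have hvt : t0 ≠ v := by
            rintro rfl
            rw [List.nodup_append] at d1
            simp at d1
          rcases List.eq_nil_or_concat' r with rfl | ⟨r', q, rfl⟩
          · have a1 := h1.1
            rw [hrt] at a1
            simp only [List.nil_append, List.cons_append, List.head?_cons, Option.some.injEq] at a1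
            exact hvt (h.end_unique (Or.inl a1) g1 (sw hu))
          · rw [List.append_assoc, List.singleton_append] at c1
            have g2 : s(q, x) ∈ ω := chain_mid c1
            rw [List.append_assoc, List.singleton_append] at d1
            have g3 : q ≠ t0 := by
              rintro rfl
              rw [List.nodup_append] at d1
              simp at d1
            have g4 : q ≠ v := by
              rintro rfl
              rw [List.nodup_append] at d1
              simp at d1
            have hxa : x ≠ a := by
              rintro rfl
              have a1 := h1.1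
              rw [hrt] at a1
              rcases r' with _ | ⟨q', r'⟩
              · simp only [List.nil_append, List.cons_append, List.head?_cons,
                  Option.some.injEq] at a1
                exact h.ne g2 a1
              · simp only [List.cons_append, List.head?_cons, Option.some.injEq] at a1
                subst a1
                simp at d1
            by_cases hxb : x = b
            · exact g3 (h.end_unique (Or.inr hxb) (sw g2) g1)
            · rcases h.two hxa hxb (sw g2) g1 (sw hu) with h4 | h4 | h4
              · exact g3 h4
              · exact g4 h4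
              · exact hvt h4
      · exact h.ne hu hx.symm
    · rw [List.isChain_append]
      refine ⟨c1, by simp, ?_⟩
      intro x hx y hy
      simp only [List.getLast?_append, List.getLast?_singleton, Option.some_or,
        Option.mem_def, Option.some.injEq, List.head?_cons] at hx hy
      subst hx hy
      exact hu

theorem fol_mem (h : Config D a b ω) (hab : a ≠ b) {l : List P} (h1 : Fol ω a l) :
    ∀ x ∈ l, x ∈ D := by
  intro x hx
  obtain ⟨r, t, rfl⟩ := List.append_of_mem hx
  rcases List.eq_nil_or_concat' r with rfl | ⟨r', q, rfl⟩
  · have a1 := h1.1
    simp only [List.nil_append, List.head?_cons, Option.some.injEq] at a1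
    subst a1
    obtain ⟨u, hu⟩ := h.end_exists (v := x) (Or.inl rfl)
    exact (h.1 _ _ hu).2.1
  · have c1 := h1.2.2
    rw [List.append_assoc, List.singleton_append] at c1
    exact (h.1 _ _ (chain_mid c1)).2.2

/-- the path from `a` to `b` -/
def IsPth (ω : Finset (Sym2 P)) (a b : P) (l : List P) : Prop := Fol ω a l ∧ l.getLast? = some b

theorem pth_exists (hD : D.Finite) (hab : a ≠ b) (h : Config D a b ω) : ∃ l, IsPth ω a b l := by
  by_contra hc
  push Not at hc
  have key : ∀ k : ℕ, ∃ l : List P, Fol ω a l ∧ l.length = k + 1 := by
    intro k
    induction k with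
    | zero => exact ⟨[a], ⟨rfl, by simp, by simp⟩, rfl⟩
    | succ k ih =>
      obtain ⟨l, hl, hk⟩ := ih
      have hne : l ≠ [] := by
        rintro rfl
        simp at hk
      rcases List.eq_nil_or_concat' l with rfl | ⟨l', v, rfl⟩
      · exact absurd rfl hne
      · have hv : v ≠ b := by
          rintro rfl
          exact hc _ ⟨hl, by simp⟩
        obtain ⟨u, hu⟩ := fol_extend h hl hv
        refine ⟨_, hu, ?_⟩
        rw [List.length_append, hk]
        rfl
  obtain ⟨l, hl, hk⟩ := key hD.toFinset.card
  have h1 : l.toFinset ⊆ hD.toFinset := by
    intro x hx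
    rw [List.mem_toFinset] at hx
    exact hD.mem_toFinset.2 (fol_mem h hab hl x hx)
  have h2 := card_le_card h1
  rw [List.toFinset_card_of_nodup hl.2.1] at h2
  omega

/-- every chain is a prefix of the path -/
theorem fol_le_pth (hab : a ≠ b) (h : Config D a b ω) {l l' : List P} (h1 : IsPth ω a b l)
    (h2 : Fol ω a l') : l' <+: l := by
  rcases fol_comparable h h2 h1.1 with h3 | h3
  · exact h3
  · obtain ⟨t, rfl⟩ := h3
    rcases t with _ | ⟨u, t⟩
    · rw [List.append_nil]
    · exfalso
      have hl := h1.2
      have hne : l ≠ [] := by
        rintro rfl
        simp at hl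
      rcases List.eq_nil_or_concat' l with rfl | ⟨l1, v, rfl⟩
      · exact hne rfl
      · rw [List.getLast?_append, List.getLast?_singleton, Option.some_or,
          Option.some.injEq] at hl
        subst hl
        rcases List.eq_nil_or_concat' l1 with rfl | ⟨l2, p, rfl⟩
        · have a1 := h1.1.1
          simp only [List.nil_append, List.head?_cons, Option.some.injEq] at a1
          exact hab a1.symm
        · have c1 := h2.2.2
          have d1 := h2.2.1
          rw [List.append_assoc, List.append_assoc, List.singleton_append,
            List.singleton_append] at c1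
          have g1 : s(p, v) ∈ ω := chain_mid c1
          have g2 : s(v, u) ∈ ω := by
            have : (l2 ++ [p] ++ v :: u :: t).IsChain (fun p q => s(p, q) ∈ ω) := by
              rw [List.append_assoc, List.singleton_append]
              exact c1
            exact chain_mid this
          have g3 := h.end_unique (Or.inr rfl) (sw g1) g2
          subst g3
          rw [List.append_assoc, List.append_assoc, List.singleton_append,
            List.singleton_append, List.nodup_append] at d1
          simp at d1

theorem pth_unique (hab : a ≠ b) (h : Config D a b ω) {l l' : List P} (h1 : IsPth ω a b l)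
    (h2 : IsPth ω a b l') : l = l' :=
  List.IsPrefix.eq_of_length_le (fol_le_pth hab h h2 h1.1)
    (fol_le_pth hab h h1 h2.1).length_le

/-- the path -/
noncomputable def pth (ω : Finset (Sym2 P)) (a b : P) : List P :=
  if h : ∃ l, IsPth ω a b l then h.choose else []

theorem pth_spec (hD : D.Finite) (hab : a ≠ b) (h : Config D a b ω) : IsPth ω a b (pth ω a b) := by
  unfold pth
  rw [dif_pos (pth_exists hD hab h)]
  exact (pth_exists hD hab h).choose_spec

theorem pth_eq (hD : D.Finite) (hab : a ≠ b) (h : Config D a b ω) {l : List P}
    (h1 : IsPth ω a b l) : pth ω a b = l :=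
  pth_unique hab h (pth_spec hD hab h) h1

theorem fol_comp {l : List P} (h1 : Fol ω a l) : ∀ x ∈ l, x ∈ comp ω a := by
  intro x hx
  obtain ⟨r, t, rfl⟩ := List.append_of_mem hx
  have h2 : Fol ω a (r ++ [x]) := by
    refine fol_prefix h1 ⟨t, by simp⟩ (by simp)
  clear hx h1 t
  induction r using List.reverseRecOn generalizing x with
  | nil =>
    have a1 := h2.1
    simp only [List.nil_append, List.head?_cons, Option.some.injEq] at a1
    subst a1
    exact mem_comp_self _ _
  | append_singleton r y ih =>
    have h3 := ih y (fol_prefix h2 ⟨[x], by simp⟩ (by simp))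
    have c1 := h2.2.2
    rw [List.append_assoc, List.singleton_append] at c1
    exact comp_step h3 (chain_mid c1)

end Q214.LO
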