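import Pool.Agent.Q214.LO.Flw
import Pool.Agent.Q214.LO.Pth

/-!
# The replacement of two edges of the path by four
-/

set_option autoImplicit false

namespace Q214.LO

open Finset
open scoped Classical

variable {D : Set P} {a b : P} {ω : Finset (Sym2 P)}

/-- a cyclic enumeration of the vertices of a hexagon -/
structure Cyc (z : P) (c : Fin 6 → P) : Prop where
  ev : Even (z.1 + z.2)
  cc : ∀ j, Nbr (c j) (c (j + 1))
  inj : ∀ j k, c j = c k → j = k
  hex : ∀ x, x ∈ hexagon z ↔ ∃ j, c j = x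

theorem hexE_eq {z : P} {c : Fin 6 → P} (h : Cyc z c) :
    hexE z = Finset.univ.image (fun j : Fin 6 => s(c j, c (j + 1))) := by
  symm
  refine eq_of_subset_of_card_le ?_ ?_
  · intro e he
    rw [mem_image] at he
    obtain ⟨j, -, rfl⟩ := he
    exact (mem_hexE h.ev).2 ⟨(h.hex _).2 ⟨j, rfl⟩, (h.hex _).2 ⟨j + 1, rfl⟩, h.cc j⟩
  · refine (card_hexE_le z).trans ?_
    rw [card_image_of_injective]
    · simp
    · intro j k hjk
      simp only [Sym2.eq_iff] at hjk
      rcases hjk with ⟨h1, h2⟩ | ⟨h1, h2⟩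
      · exact h.inj _ _ h1
      · have h3 := h.inj _ _ h1
        have h4 := h.inj _ _ h2
        revert h3 h4
        clear h1 h2
        revert j k
        decide

theorem mem_hexE' {z : P} {c : Fin 6 → P} (h : Cyc z c) {e : Sym2 P} :
    e ∈ hexE z ↔ e = s(c 0, c 1) ∨ e = s(c 1, c 2) ∨ e = s(c 2, c 3) ∨ e = s(c 3, c 4) ∨
      e = s(c 4, c 5) ∨ e = s(c 5, c 0) := by
  rw [hexE_eq h, mem_image]
  constructor
  · rintro ⟨j, -, rfl⟩
    fin_cases j
    · exact Or.inl rfl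
    · exact Or.inr (Or.inl rfl)
    · exact Or.inr (Or.inr (Or.inl rfl))
    · exact Or.inr (Or.inr (Or.inr (Or.inl rfl)))
    · exact Or.inr (Or.inr (Or.inr (Or.inr (Or.inl rfl))))
    · exact Or.inr (Or.inr (Or.inr (Or.inr (Or.inr rfl))))
  · rintro (rfl | rfl | rfl | rfl | rfl | rfl)
    · exact ⟨0, mem_univ _, rfl⟩
    · exact ⟨1, mem_univ _, rfl⟩
    · exact ⟨2, mem_univ _, rfl⟩
    · exact ⟨3, mem_univ _, rfl⟩
    · exact ⟨4, mem_univ _, rfl⟩
    · exact ⟨5, mem_univ _, rfl⟩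

/-- uniqueness of the third neighbour -/
theorem third {v x y u u' : P} (hxy : x ≠ y) (hx : Nbr v x) (hy : Nbr v y) (hu : Nbr v u)
    (hu' : Nbr v u') (h1 : u ≠ x) (h2 : u ≠ y) (h3 : u' ≠ x) (h4 : u' ≠ y) : u = u' := by
  by_contra hne
  have h5 : ({x, y, u, u'} : Finset P) ⊆ nbF v := by
    intro t ht
    simp only [mem_insert, mem_singleton] at ht
    rw [mem_nbF]
    rcases ht with rfl | rfl | rfl | rfl <;> assumption
  have h6 := card_le_card h5
  have h7 : ({x, y, u, u'} : Finset P).card = 4 := by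
    rw [card_insert_of_notMem, card_insert_of_notMem, card_insert_of_notMem, card_singleton]
    · simpa using hne
    · simp [h2.symm, h4.symm]
    · simp [hxy, h1.symm, h3.symm]
  have h8 : (nbF v).card ≤ 3 := by
    unfold nbF
    exact card_le_three
  omega

/-- a vertex without edges to two of its neighbours is isolated -/
theorem Config.iso (h : Config D a b ω) {v x y : P} (hva : v ≠ a) (hvb : v ≠ b) (hxy : x ≠ y)
    (hx : Nbr v x) (hy : Nbr v y) (h1 : s(v, x) ∉ ω) (h2 : s(v, y) ∉ ω) (u : P) :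
    s(v, u) ∉ ω := by
  intro hu
  obtain ⟨t, htu, ht⟩ := h.other hva hvb hu
  have a1 : u ≠ x := by rintro rfl; exact h1 hu
  have a2 : u ≠ y := by rintro rfl; exact h2 hu
  have a3 : t ≠ x := by rintro rfl; exact h1 ht
  have a4 : t ≠ y := by rintro rfl; exact h2 ht
  exact htu (third hxy hx hy (h.nbr ht) (h.nbr hu) a3 a4 a1 a2)

/-- a vertex with exactly one edge to two of its neighbours has the third edge -/
theorem Config.fork (h : Config D a b ω) {v x y t : P} (hva : v ≠ a) (hvb : v ≠ b) (hxy : x ≠ y)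
    (hx : Nbr v x) (hy : Nbr v y) (ht : Nbr v t) (htx : t ≠ x) (hty : t ≠ y)
    (h1 : s(v, x) ∈ ω) (h2 : s(v, y) ∉ ω) : s(v, t) ∈ ω := by
  obtain ⟨u, hux, hu⟩ := h.other hva hvb h1
  have a2 : u ≠ y := by rintro rfl; exact h2 hu
  have := third hxy hx hy (h.nbr hu) ht hux a2 htx hty
  rwa [this] at hu

/-- the path uses exactly two edges of the hexagon -/
def St2 (ω : Finset (Sym2 P)) (c : Fin 6 → P) : Prop :=
  (s(c 0, c 1) ∈ ω ∧ s(c 1, c 2) ∈ ω) ∧ s(c 2, c 3) ∉ ω ∧ s(c 3, c 4) ∉ ω ∧ s(c 4, c 5) ∉ ω ∧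
    s(c 5, c 0) ∉ ω

/-- the path uses the other four edges of the hexagon -/
def St4 (ω : Finset (Sym2 P)) (c : Fin 6 → P) : Prop :=
  (s(c 0, c 1) ∉ ω ∧ s(c 1, c 2) ∉ ω) ∧ s(c 2, c 3) ∈ ω ∧ s(c 3, c 4) ∈ ω ∧ s(c 4, c 5) ∈ ω ∧
    s(c 5, c 0) ∈ ω

theorem st_tg {z : P} {c : Fin 6 → P} (h : Cyc z c) : St4 (tg z ω) c ↔ St2 ω c := by
  unfold St2 St4
  rw [mem_tg_of_mem ((mem_hexE' h).2 (by tauto)), mem_tg_of_mem ((mem_hexE' h).2 (by tauto)),
    mem_tg_of_mem ((mem_hexE' h).2 (by tauto)), mem_tg_of_mem ((mem_hexE' h).2 (by tauto)),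
    mem_tg_of_mem ((mem_hexE' h).2 (by tauto)), mem_tg_of_mem ((mem_hexE' h).2 (by tauto))]
  tauto

theorem st_tg' {z : P} {c : Fin 6 → P} (h : Cyc z c) : St2 (tg z ω) c ↔ St4 ω c := by
  rw [← st_tg h, tg_tg]

theorem st_not {c : Fin 6 → P} (h : St2 ω c) : ¬ St4 ω c := fun h1 => h1.1.1 h.1.1

theorem edge_ne {z : P} {c : Fin 6 → P} (h : Cyc z c) {i j k l : Fin 6}
    (h1 : ¬ ((i = k ∧ j = l) ∨ (i = l ∧ j = k))) : s(c i, c j) ≠ s(c k, c l) := by
  intro h2
  rw [Sym2.eq_iff] at h2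
  rcases h2 with ⟨h3, h4⟩ | ⟨h3, h4⟩
  · exact h1 (Or.inl ⟨h.inj _ _ h3, h.inj _ _ h4⟩)
  · exact h1 (Or.inr ⟨h.inj _ _ h3, h.inj _ _ h4⟩)

theorem tg_st2 {z : P} {c : Fin 6 → P} (h : Cyc z c) (h2 : St2 ω c) :
    tg z ω = (ω \ {s(c 0, c 1), s(c 1, c 2)}) ∪
      {s(c 2, c 3), s(c 3, c 4), s(c 4, c 5), s(c 5, c 0)} := by
  ext e
  rw [mem_tg, mem_hexE' h]
  simp only [mem_union, mem_sdiff, mem_insert, mem_singleton]
  obtain ⟨⟨h3, h4⟩, h5, h6, h7, h8⟩ := h2
  constructor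
  · rintro (⟨h9, h10⟩ | ⟨rfl | rfl | rfl | rfl | rfl | rfl, h10⟩) <;> tauto
  · rintro (⟨h9, h10⟩ | rfl | rfl | rfl | rfl)
    · left
      refine ⟨h9, ?_⟩
      rintro (rfl | rfl | rfl | rfl | rfl | rfl) <;> tauto
    · exact Or.inr ⟨by tauto, h5⟩
    · exact Or.inr ⟨by tauto, h6⟩
    · exact Or.inr ⟨by tauto, h7⟩
    · exact Or.inr ⟨by tauto, h8⟩

theorem card_swap {X : Finset (Sym2 P)} {z : P} {c : Fin 6 → P} (h : Cyc z c)
    (h1 : s(c 0, c 1) ∈ X) (h2 : s(c 1, c 2) ∈ X) (h3 : s(c 2, c 3) ∉ X) (h4 : s(c 3, c 4) ∉ X)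
    (h5 : s(c 4, c 5) ∉ X) (h6 : s(c 5, c 0) ∉ X) :
    ((X \ {s(c 0, c 1), s(c 1, c 2)}) ∪
      {s(c 2, c 3), s(c 3, c 4), s(c 4, c 5), s(c 5, c 0)}).card = X.card + 2 := by
  rw [card_union_of_disjoint]
  · have e1 : ({s(c 2, c 3), s(c 3, c 4), s(c 4, c 5), s(c 5, c 0)} : Finset (Sym2 P)).card = 4 := by
      rw [card_insert_of_notMem, card_insert_of_notMem, card_insert_of_notMem, card_singleton]
      · rw [mem_singleton]
        exact edge_ne h (by decide)
      · rw [mem_insert, mem_singleton, not_or]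
        exact ⟨edge_ne h (by decide), edge_ne h (by decide)⟩
      · rw [mem_insert, mem_insert, mem_singleton, not_or, not_or]
        exact ⟨edge_ne h (by decide), edge_ne h (by decide), edge_ne h (by decide)⟩
    have hsub : ({s(c 0, c 1), s(c 1, c 2)} : Finset (Sym2 P)) ⊆ X := by
      intro e he
      rw [mem_insert, mem_singleton] at he
      rcases he with rfl | rfl <;> assumption
    have e2 : ({s(c 0, c 1), s(c 1, c 2)} : Finset (Sym2 P)).card = 2 := by
      rw [card_insert_of_notMem, card_singleton]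
      rw [mem_singleton]
      exact edge_ne h (by decide)
    have h7 := card_le_card hsub
    rw [e1, card_sdiff_of_subset hsub, e2]
    omega
  · rw [disjoint_left]
    intro e he he'
    rw [mem_sdiff] at he
    simp only [mem_insert, mem_singleton] at he'
    rcases he' with rfl | rfl | rfl | rfl
    · exact h3 he.1
    · exact h4 he.1
    · exact h5 he.1
    · exact h6 he.1

/-- the edges of the path -/
noncomputable def path (a : P) (ω : Finset (Sym2 P)) : Finset (Sym2 P) :=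
  ω.filter (fun e => ∀ v ∈ e, v ∈ comp ω a)

/-- data of a replacement -/
structure Rep (D : Set P) (a b z : P) (c : Fin 6 → P) (ω : Finset (Sym2 P)) : Prop where
  cyc : Cyc z c
  cfg : Config D a b ω
  cfg' : Config D a b (tg z ω)
  st : St2 ω c
  iso : ∀ j : Fin 6, (j = 3 ∨ j = 4 ∨ j = 5) → ∀ u, s(c j, u) ∉ ω
  cmp : c 0 ∈ comp ω a

variable {z : P} {c : Fin 6 → P}

theorem Rep.ne (R : Rep D a b z c ω) (j : Fin 6) (hj : j = 1 ∨ j = 3 ∨ j = 4 ∨ j = 5) :
    c j ≠ a ∧ c j ≠ b := by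
  have key : ∀ v : P, v = a ∨ v = b → c j ≠ v := by
    rintro v hv rfl
    rcases hj with rfl | hj
    · have := R.cfg.end_unique hv (sw R.st.1.1) R.st.1.2
      have := R.cyc.inj _ _ this
      exact absurd this (by decide)
    · obtain ⟨u, hu⟩ := R.cfg.end_exists hv
      exact R.iso j hj u hu
  exact ⟨key a (Or.inl rfl), key b (Or.inr rfl)⟩

theorem Rep.nb1 (R : Rep D a b z c ω) {u : P} (hu : s(c 1, u) ∈ ω) : u = c 0 ∨ u = c 2 := by
  have h1 := R.ne 1 (Or.inl rfl)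
  rcases R.cfg.two h1.1 h1.2 (sw R.st.1.1) R.st.1.2 hu with h | h | h
  · have := R.cyc.inj _ _ h
    exact absurd this (by decide)
  · exact Or.inl h.symm
  · exact Or.inr h.symm

theorem Rep.c2 (R : Rep D a b z c ω) : c 2 ∈ comp ω a :=
  comp_step (comp_step R.cmp R.st.1.1) R.st.1.2

theorem Rep.c1 (R : Rep D a b z c ω) : c 1 ∈ comp ω a := comp_step R.cmp R.st.1.1

theorem Rep.edges (R : Rep D a b z c ω) {j : Fin 6} (hj : j = 2 ∨ j = 3 ∨ j = 4 ∨ j = 5) :
    s(c j, c (j + 1)) ∈ tg z ω := by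
  rw [tg_st2 R.cyc R.st, mem_union]
  right
  simp only [mem_insert, mem_singleton]
  rcases hj with rfl | rfl | rfl | rfl
  · exact Or.inl rfl
  · exact Or.inr (Or.inl rfl)
  · exact Or.inr (Or.inr (Or.inl rfl))
  · exact Or.inr (Or.inr (Or.inr rfl))

theorem Rep.mem_iff (R : Rep D a b z c ω) {u t : P} (hu : ∀ j, c j ≠ u) :
    s(u, t) ∈ tg z ω ↔ s(u, t) ∈ ω := by
  refine mem_tg_of_not fun h => ?_
  obtain ⟨j, hj⟩ := (R.cyc.hex u).1 ((mem_hexE R.cyc.ev).1 h).1
  exact hu j hj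

theorem Rep.old (R : Rep D a b z c ω) {u t : P} (h : s(u, t) ∈ ω) (hu : u ≠ c 1) (ht : t ≠ c 1) :
    s(u, t) ∈ tg z ω := by
  rw [tg_st2 R.cyc R.st, mem_union, mem_sdiff]
  left
  refine ⟨h, ?_⟩
  simp only [mem_insert, mem_singleton, Sym2.eq_iff]
  rintro ((⟨h1, h2⟩ | ⟨h1, h2⟩) | (⟨h1, h2⟩ | ⟨h1, h2⟩))
  · exact ht h2
  · exact hu h1
  · exact hu h1
  · exact ht h2

theorem Rep.fwd (R : Rep D a b z c ω) {u : P} (hu : u ∈ comp ω a) :
    (u ≠ c 1 → u ∈ comp (tg z ω) a) ∧ (u = c 1 → c 0 ∈ comp (tg z ω) a) := by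
  have hcyc : ∀ v : P, (c 0 ∈ comp (tg z ω) v → c 2 ∈ comp (tg z ω) v) ∧
      (c 2 ∈ comp (tg z ω) v → c 0 ∈ comp (tg z ω) v) := by
    intro v
    have e2 := R.edges (j := 2) (by tauto)
    have e3 := R.edges (j := 3) (by tauto)
    have e4 := R.edges (j := 4) (by tauto)
    have e5 := R.edges (j := 5) (by tauto)
    exact ⟨fun h => comp_step (comp_step (comp_step (comp_step h (sw e5)) (sw e4)) (sw e3)) (sw e2),
      fun h => comp_step (comp_step (comp_step (comp_step h e2) e3) e4) e5⟩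
  unfold comp at hu
  rw [Set.mem_ofPred_eq] at hu
  induction hu with
  | refl =>
    refine ⟨fun _ => mem_comp_self _ _, fun h => ?_⟩
    exact absurd h.symm (R.ne 1 (Or.inl rfl)).1
  | @tail p q h1 h2 ih =>
    constructor
    · intro hq
      by_cases hp : p = c 1
      · subst hp
        rcases R.nb1 h2 with rfl | rfl
        · exact ih.2 rfl
        · exact (hcyc a).1 (ih.2 rfl)
      · exact comp_step (ih.1 hp) (R.old h2 hp hq)
    · intro hq
      subst hq
      have hp : p ≠ c 1 := R.cfg.ne h2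
      rcases R.nb1 (sw h2) with rfl | rfl
      · exact ih.1 hp
      · exact (hcyc a).2 (ih.1 hp)

theorem Rep.c0' (R : Rep D a b z c ω) : c 0 ∈ comp (tg z ω) a := (R.fwd R.c1).2 rfl

theorem Rep.others (R : Rep D a b z c ω) {j : Fin 6} (hj : j ≠ 1) : c j ∈ comp (tg z ω) a := by
  have e3 := R.edges (j := 3) (by tauto)
  have e2 := R.edges (j := 2) (by tauto)
  have e4 := R.edges (j := 4) (by tauto)
  have e5 := R.edges (j := 5) (by tauto)
  have h0 := R.c0'
  have h5 : c 5 ∈ comp (tg z ω) a := comp_step h0 (sw e5)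
  have h4 : c 4 ∈ comp (tg z ω) a := comp_step h5 (sw e4)
  have h3 : c 3 ∈ comp (tg z ω) a := comp_step h4 (sw e3)
  have h2 : c 2 ∈ comp (tg z ω) a := comp_step h3 (sw e2)
  fin_cases j
  · exact h0
  · exact absurd rfl hj
  · exact h2
  · exact h3
  · exact h4
  · exact h5

theorem Rep.bwd (R : Rep D a b z c ω) {u : P} (hu : u ∈ comp (tg z ω) a) :
    (u = c 3 ∨ u = c 4 ∨ u = c 5) ∨ (u ∈ comp ω a ∧ u ≠ c 1) := by
  unfold comp at hu
  rw [Set.mem_ofPred_eq] at hu
  induction hu with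
  | refl => exact Or.inr ⟨mem_comp_self _ _, (R.ne 1 (Or.inl rfl)).1.symm⟩
  | @tail p q h1 h2 ih =>
    rw [tg_st2 R.cyc R.st, mem_union, mem_sdiff] at h2
    rcases h2 with ⟨h2, h3⟩ | h2
    · right
      have hp : p ∈ comp ω a := by
        rcases ih with (rfl | rfl | rfl) | ih
        · exact absurd h2 (R.iso 3 (by tauto) q)
        · exact absurd h2 (R.iso 4 (by tauto) q)
        · exact absurd h2 (R.iso 5 (by tauto) q)
        · exact ih.1
      refine ⟨comp_step hp h2, ?_⟩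
      rintro rfl
      simp only [mem_insert, mem_singleton, not_or] at h3
      rcases R.nb1 (sw h2) with rfl | rfl
      · exact h3.1 rfl
      · exact h3.2 Sym2.eq_swap
    · have hq : q = c 0 ∨ q = c 2 ∨ q = c 3 ∨ q = c 4 ∨ q = c 5 := by
        simp only [mem_insert, mem_singleton, Sym2.eq_iff] at h2
        tauto
      rcases hq with rfl | rfl | hq
      · exact Or.inr ⟨R.cmp, fun h => absurd (R.cyc.inj _ _ h) (by decide)⟩
      · exact Or.inr ⟨R.c2, fun h => absurd (R.cyc.inj _ _ h) (by decide)⟩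
      · exact Or.inl hq

theorem Rep.path_eq (R : Rep D a b z c ω) : path a (tg z ω) =
    (path a ω \ {s(c 0, c 1), s(c 1, c 2)}) ∪
      {s(c 2, c 3), s(c 3, c 4), s(c 4, c 5), s(c 5, c 0)} := by
  ext e
  induction e using Sym2.ind with
  | _ u t =>
    unfold path
    rw [mem_filter, mem_union, mem_sdiff, mem_filter]
    simp only [Sym2.mem_iff, forall_eq_or_imp, forall_eq]
    constructor
    · rintro ⟨h1, h2, h3⟩
      rw [tg_st2 R.cyc R.st, mem_union, mem_sdiff] at h1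
      rcases h1 with ⟨h1, h4⟩ | h1
      · left
        refine ⟨⟨h1, ?_, ?_⟩, h4⟩
        · rcases R.bwd h2 with (rfl | rfl | rfl) | h5
          · exact absurd h1 (R.iso 3 (by tauto) t)
          · exact absurd h1 (R.iso 4 (by tauto) t)
          · exact absurd h1 (R.iso 5 (by tauto) t)
          · exact h5.1
        · rcases R.bwd h3 with (rfl | rfl | rfl) | h5
          · exact absurd (sw h1) (R.iso 3 (by tauto) u)
          · exact absurd (sw h1) (R.iso 4 (by tauto) u)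
          · exact absurd (sw h1) (R.iso 5 (by tauto) u)
          · exact h5.1
      · exact Or.inr h1
    · rintro (⟨⟨h1, h2, h3⟩, h4⟩ | h1)
      · have hu : u ≠ c 1 := by
          rintro rfl
          simp only [mem_insert, mem_singleton, not_or] at h4
          rcases R.nb1 h1 with rfl | rfl
          · exact h4.1 Sym2.eq_swap
          · exact h4.2 rfl
        have ht : t ≠ c 1 := by
          rintro rfl
          simp only [mem_insert, mem_singleton, not_or] at h4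
          rcases R.nb1 (sw h1) with rfl | rfl
          · exact h4.1 rfl
          · exact h4.2 Sym2.eq_swap
        exact ⟨R.old h1 hu ht, (R.fwd h2).1 hu, (R.fwd h3).1 ht⟩
      · refine ⟨?_, ?_⟩
        · rw [tg_st2 R.cyc R.st, mem_union]
          exact Or.inr h1
        · have h0 := R.others (j := 0) (by decide)
          have h2 := R.others (j := 2) (by decide)
          have h3 := R.others (j := 3) (by decide)
          have h4 := R.others (j := 4) (by decide)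
          have h5 := R.others (j := 5) (by decide)
          simp only [mem_insert, mem_singleton, Sym2.eq_iff] at h1
          rcases h1 with (⟨rfl, rfl⟩ | ⟨rfl, rfl⟩) | (⟨rfl, rfl⟩ | ⟨rfl, rfl⟩) |
            (⟨rfl, rfl⟩ | ⟨rfl, rfl⟩) | (⟨rfl, rfl⟩ | ⟨rfl, rfl⟩) <;> constructor <;> assumption

theorem Rep.path_card (R : Rep D a b z c ω) : (path a (tg z ω)).card = (path a ω).card + 2 := by
  rw [R.path_eq]
  have hsub : ∀ e, e ∉ ω → e ∉ path a ω := fun e he h => he (mem_filter.1 h).1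
  refine card_swap R.cyc ?_ ?_ (hsub _ R.st.2.1) (hsub _ R.st.2.2.1) (hsub _ R.st.2.2.2.1)
    (hsub _ R.st.2.2.2.2)
  · unfold path
    rw [mem_filter]
    refine ⟨R.st.1.1, ?_⟩
    simp only [Sym2.mem_iff, forall_eq_or_imp, forall_eq]
    exact ⟨R.cmp, R.c1⟩
  · unfold path
    rw [mem_filter]
    refine ⟨R.st.1.2, ?_⟩
    simp only [Sym2.mem_iff, forall_eq_or_imp, forall_eq]
    exact ⟨R.c1, R.c2⟩

theorem Rep.card (R : Rep D a b z c ω) : (tg z ω).card = ω.card + 2 := by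
  rw [tg_st2 R.cyc R.st]
  exact card_swap R.cyc R.st.1.1 R.st.1.2 R.st.2.1 R.st.2.2.1 R.st.2.2.2.1 R.st.2.2.2.2

/-- the edges of the loops do not change -/
theorem Rep.rest (R : Rep D a b z c ω) : tg z ω \ path a (tg z ω) = ω \ path a ω := by
  rw [R.path_eq]
  have h01 : s(c 0, c 1) ∈ path a ω := by
    unfold path
    rw [mem_filter]
    refine ⟨R.st.1.1, ?_⟩
    simp only [Sym2.mem_iff, forall_eq_or_imp, forall_eq]
    exact ⟨R.cmp, R.c1⟩
  have h12 : s(c 1, c 2) ∈ path a ω := by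
    unfold path
    rw [mem_filter]
    refine ⟨R.st.1.2, ?_⟩
    simp only [Sym2.mem_iff, forall_eq_or_imp, forall_eq]
    exact ⟨R.c1, R.c2⟩
  obtain ⟨⟨s1, s2⟩, s3, s4, s5, s6⟩ := R.st
  rw [tg_st2 R.cyc ⟨⟨s1, s2⟩, s3, s4, s5, s6⟩]
  ext e
  simp only [mem_sdiff, mem_union, mem_insert, mem_singleton]
  constructor
  · rintro ⟨(⟨h1, h2⟩ | h1), h3⟩
    · exact ⟨h1, fun h4 => h3 (Or.inl ⟨h4, h2⟩)⟩
    · exact absurd (Or.inr h1) h3
  · rintro ⟨h1, h2⟩
    have g1 : ¬ (e = s(c 0, c 1) ∨ e = s(c 1, c 2)) := by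
      rintro (rfl | rfl)
      · exact h2 h01
      · exact h2 h12
    refine ⟨Or.inl ⟨h1, g1⟩, ?_⟩
    rintro (⟨h3, -⟩ | rfl | rfl | rfl | rfl)
    · exact h2 h3
    · exact s3 h1
    · exact s4 h1
    · exact s5 h1
    · exact s6 h1

theorem Rep.loops_eq (R : Rep D a b z c ω) : Loops (tg z ω) = Loops ω := by
  have hagree : ∀ u t, u ∉ Set.range c → (s(u, t) ∈ tg z ω ↔ s(u, t) ∈ ω) := fun u t hu =>
    R.mem_iff fun j hj => hu ⟨j, hj⟩
  have hnot : ∀ (ω' : Finset (Sym2 P)), Config D a b ω' → ∀ A ∈ Loops ω', ∀ u ∈ A,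
      u ∉ comp ω' a := by
    rintro ω' h' A ⟨v, rfl, h2⟩ u hu hu'
    have h3 : a ∈ comp ω' v := comp_trans hu (comp_symm hu')
    have h4 := h2 a h3
    rw [h'.2.1] at h4
    exact absurd h4 (by decide)
  have hdeg0 : ∀ (ω' : Finset (Sym2 P)) (v : P), (∀ u, s(v, u) ∉ ω') → deg ω' v = 0 := by
    intro ω' v h
    unfold deg
    have : {u : P | s(v, u) ∈ ω'} = ∅ := by
      ext u
      simp [h u]
    rw [this, Set.ncard_empty]
  have hd : ∀ (ω' : Finset (Sym2 P)), ∀ A ∈ Loops ω', ∀ u ∈ A, ¬ ∀ t, s(u, t) ∉ ω' := by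
    rintro ω' A ⟨v, rfl, h2⟩ u hu h
    have h4 := h2 u hu
    rw [hdeg0 ω' u h] at h4
    exact absurd h4 (by decide)
  have hiso1 : ∀ u, s(c 1, u) ∉ tg z ω := by
    have h1 := R.ne 1 (Or.inl rfl)
    refine R.cfg'.iso h1.1 h1.2 (x := c 0) (y := c 2) ?_ (nbr_symm (R.cyc.cc 0)) (R.cyc.cc 1) ?_ ?_
    · intro h
      exact absurd (R.cyc.inj _ _ h) (by decide)
    · have h3 : s(c 0, c 1) ∉ tg z ω := by
        rw [mem_tg_of_mem ((mem_hexE' R.cyc).2 (by tauto))]
        exact fun h => h R.st.1.1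
      intro h4
      exact h3 (sw h4)
    · rw [mem_tg_of_mem ((mem_hexE' R.cyc).2 (by tauto))]
      exact fun h => h R.st.1.2
  ext A
  constructor
  · intro hA
    refine loops_agree (ω := tg z ω) (F := Set.range c) hagree hA ?_
    rintro u hu ⟨j, rfl⟩
    by_cases hj : j = 1
    · subst hj
      exact hd _ A hA _ hu hiso1
    · exact hnot _ R.cfg' A hA _ hu (R.others hj)
  · intro hA
    refine loops_agree (ω := ω) (F := Set.range c) (fun u t hu => (hagree u t hu).symm) hA ?_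
    rintro u hu ⟨j, rfl⟩
    have h1 := hnot _ R.cfg A hA _ hu
    have h2 := hd _ A hA _ hu
    fin_cases j
    · exact h1 R.cmp
    · exact h1 R.c1
    · exact h1 R.c2
    · exact h2 (R.iso 3 (by tauto))
    · exact h2 (R.iso 4 (by tauto))
    · exact h2 (R.iso 5 (by tauto))

theorem Rep.wt_eq (R : Rep D a b z c ω) (x n : ℝ) : wt x n (tg z ω) = x ^ 2 * wt x n ω := by
  unfold wt loops
  rw [R.loops_eq, R.card, pow_add]
  ring

end Q214.LO
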