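import Pool.Agent.Q214.LO.Cfg

/-!
# The flowers of seven hexagons
-/

set_option autoImplicit false

namespace Q214.LO

open Finset

/-- the vertices of the hexagon `z` and of the six adjacent hexagons -/
def Flower (z : P) : Set P :=
  {v | ∃ h : P, (h = z ∨ h = (z.1 + 2, z.2) ∨ h = (z.1 - 2, z.2) ∨ h = (z.1 + 1, z.2 + 1) ∨
    h = (z.1 - 1, z.2 + 1) ∨ h = (z.1 + 1, z.2 - 1) ∨ h = (z.1 - 1, z.2 - 1)) ∧ v ∈ hexagon h}

theorem mem_flower {z v : P} : v ∈ Flower z ↔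
    (z.2 ≤ v.2 ∧ v.2 ≤ z.2 + 1 ∧ z.1 - 2 ≤ v.1 ∧ v.1 ≤ z.1 + 4) ∨
    ((v.2 = z.2 - 1 ∨ v.2 = z.2 + 2) ∧ z.1 - 1 ≤ v.1 ∧ v.1 ≤ z.1 + 3) := by
  unfold Flower hexagon
  simp only [Set.mem_ofPred_eq]
  constructor
  · rintro ⟨h, rfl | rfl | rfl | rfl | rfl | rfl | rfl, h1⟩ <;> (try simp only at h1) <;> omega
  · rintro (h | ⟨h | h, h1⟩)
    · rcases le_or_gt v.1 z.1 with h2 | h2
      · exact ⟨_, Or.inr (Or.inr (Or.inl rfl)), by simp only; omega⟩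
      · rcases le_or_gt v.1 (z.1 + 2) with h3 | h3
        · exact ⟨_, Or.inl rfl, by omega⟩
        · exact ⟨_, Or.inr (Or.inl rfl), by simp only; omega⟩
    · rcases le_or_gt v.1 (z.1 + 1) with h3 | h3
      · exact ⟨_, Or.inr (Or.inr (Or.inr (Or.inr (Or.inr (Or.inr rfl))))), by simp only; omega⟩
      · exact ⟨_, Or.inr (Or.inr (Or.inr (Or.inr (Or.inr (Or.inl rfl))))), by simp only; omega⟩
    · rcases le_or_gt v.1 (z.1 + 1) with h3 | h3
      · exact ⟨_, Or.inr (Or.inr (Or.inr (Or.inr (Or.inl rfl)))), by simp only; omega⟩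
      · exact ⟨_, Or.inr (Or.inr (Or.inr (Or.inl rfl))), by simp only; omega⟩

/-- entry vertices -/
def vT : Fin 12 → ℤ × ℤ := ![(-2, 0), (-2, 1), (-1, -1), (-1, 2), (0, -1), (0, 2), (2, -1), (2, 2), (3, -1), (3, 2), (4, 0), (4, 1)]

/-- second vertices -/
def wT : Fin 12 → ℤ × ℤ := ![(-1, 0), (-1, 1), (-1, 0), (-1, 1), (1, -1), (1, 2), (1, -1), (1, 2), (3, 0), (3, 1), (3, 0), (3, 1)]

/-- the central hexagon -/
def cT : Fin 12 → Fin 6 → ℤ × ℤ := ![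
  ![(0, 0), (0, 1), (1, 1), (2, 1), (2, 0), (1, 0)],
  ![(0, 1), (0, 0), (1, 0), (2, 0), (2, 1), (1, 1)],
  ![(0, 0), (1, 0), (2, 0), (2, 1), (1, 1), (0, 1)],
  ![(0, 1), (1, 1), (2, 1), (2, 0), (1, 0), (0, 0)],
  ![(1, 0), (0, 0), (0, 1), (1, 1), (2, 1), (2, 0)],
  ![(1, 1), (0, 1), (0, 0), (1, 0), (2, 0), (2, 1)],
  ![(1, 0), (2, 0), (2, 1), (1, 1), (0, 1), (0, 0)],
  ![(1, 1), (2, 1), (2, 0), (1, 0), (0, 0), (0, 1)],
  ![(2, 0), (1, 0), (0, 0), (0, 1), (1, 1), (2, 1)],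
  ![(2, 1), (1, 1), (0, 1), (0, 0), (1, 0), (2, 0)],
  ![(2, 0), (2, 1), (1, 1), (0, 1), (0, 0), (1, 0)],
  ![(2, 1), (2, 0), (1, 0), (0, 0), (0, 1), (1, 1)]]

/-- the adjacent hexagons -/
def gT : Fin 12 → Fin 6 → ℤ × ℤ := ![
  ![(-2, 0), (-1, 1), (1, 1), (2, 0), (1, -1), (-1, -1)],
  ![(-2, 0), (-1, -1), (1, -1), (2, 0), (1, 1), (-1, 1)],
  ![(-1, -1), (1, -1), (2, 0), (1, 1), (-1, 1), (-2, 0)],
  ![(-1, 1), (1, 1), (2, 0), (1, -1), (-1, -1), (-2, 0)],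
  ![(-1, -1), (-2, 0), (-1, 1), (1, 1), (2, 0), (1, -1)],
  ![(-1, 1), (-2, 0), (-1, -1), (1, -1), (2, 0), (1, 1)],
  ![(1, -1), (2, 0), (1, 1), (-1, 1), (-2, 0), (-1, -1)],
  ![(1, 1), (2, 0), (1, -1), (-1, -1), (-2, 0), (-1, 1)],
  ![(1, -1), (-1, -1), (-2, 0), (-1, 1), (1, 1), (2, 0)],
  ![(1, 1), (-1, 1), (-2, 0), (-1, -1), (1, -1), (2, 0)],
  ![(2, 0), (1, 1), (-1, 1), (-2, 0), (-1, -1), (1, -1)],
  ![(2, 0), (1, -1), (-1, -1), (-2, 0), (-1, 1), (1, 1)]]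


/-- membership in a hexagon -/
def hxB (g v : ℤ × ℤ) : Bool :=
  (decide (g.1 ≤ v.1) && decide (v.1 ≤ g.1 + 2)) && (decide (g.2 ≤ v.2) && decide (v.2 ≤ g.2 + 1))

/-- adjacency -/
def nbB (p q : ℤ × ℤ) : Bool :=
  (decide (p.2 = q.2) && (decide (p.1 - q.1 = 1) || decide (q.1 - p.1 = 1))) ||
    (decide (p.1 = q.1) && ((decide (q.2 = p.2 + 1) && decide ((p.1 + p.2) % 2 = 0)) ||
      (decide (p.2 = q.2 + 1) && decide ((q.1 + q.2) % 2 = 0))))

theorem hxB_iff (z g v : P) : z + v ∈ hexagon (z + g) ↔ hxB g v = true := by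
  unfold hexagon hxB
  simp only [Set.mem_ofPred_eq, Prod.fst_add, Prod.snd_add, Bool.and_eq_true, decide_eq_true_eq]
  omega

theorem nbB_iff {z : P} (hz : Even (z.1 + z.2)) (p q : P) :
    Nbr (z + p) (z + q) ↔ nbB p q = true := by
  rw [Int.even_iff] at hz
  unfold Nbr nbB
  simp only [Prod.fst_add, Prod.snd_add, Bool.and_eq_true, Bool.or_eq_true, decide_eq_true_eq,
    Int.even_iff]
  have e1 : z.2 + p.2 = z.2 + q.2 ↔ p.2 = q.2 := by omega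
  have e2 : z.1 + p.1 - (z.1 + q.1) = 1 ↔ p.1 - q.1 = 1 := by omega
  have e3 : z.1 + q.1 - (z.1 + p.1) = 1 ↔ q.1 - p.1 = 1 := by omega
  have e4 : z.1 + p.1 = z.1 + q.1 ↔ p.1 = q.1 := by omega
  have e5 : z.2 + q.2 = z.2 + p.2 + 1 ↔ q.2 = p.2 + 1 := by omega
  have e6 : z.2 + p.2 = z.2 + q.2 + 1 ↔ p.2 = q.2 + 1 := by omega
  have e7 : (z.1 + p.1 + (z.2 + p.2)) % 2 = 0 ↔ (p.1 + p.2) % 2 = 0 := by omega
  have e8 : (z.1 + q.1 + (z.2 + q.2)) % 2 = 0 ↔ (q.1 + q.2) % 2 = 0 := by omega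
  rw [e1, e2, e3, e4, e5, e6, e7, e8]

theorem T1 : ∀ i : Fin 12, nbB (vT i) (wT i) = true := by decide
theorem T2 : ∀ i : Fin 12, nbB (wT i) (cT i 0) = true := by decide
theorem T3 : ∀ (i : Fin 12) (j : Fin 6), nbB (cT i j) (cT i (j + 1)) = true := by decide
theorem T4 : ∀ (i : Fin 12) (j k : Fin 6), cT i j = cT i k → j = k := by decide
theorem T5 : ∀ (i : Fin 12) (j : Fin 6), hxB (0, 0) (cT i j) = true := by decide
theorem T6 : ∀ (i : Fin 12), (∃ j, cT i j = (0, 0)) ∧ (∃ j, cT i j = (1, 0)) ∧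
    (∃ j, cT i j = (2, 0)) ∧ (∃ j, cT i j = (0, 1)) ∧ (∃ j, cT i j = (1, 1)) ∧
    (∃ j, cT i j = (2, 1)) := by decide
theorem T7 : ∀ i : Fin 12, hxB (0, 0) (vT i) = false ∧ hxB (0, 0) (wT i) = false := by decide
theorem T8 : ∀ (i : Fin 12) (j : Fin 6), (gT i j = (2, 0) ∨ gT i j = (-2, 0) ∨ gT i j = (1, 1) ∨
    gT i j = (-1, 1) ∨ gT i j = (1, -1) ∨ gT i j = (-1, -1)) := by decide
theorem T9 : ∀ i : Fin 12, hxB (gT i 0) (vT i) = true ∧ hxB (gT i 0) (wT i) = true := by decide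
theorem T10 : ∀ (i : Fin 12) (j : Fin 6), j ≠ 0 →
    ¬ (hxB (gT i j) (vT i) = true ∧ hxB (gT i j) (wT i) = true) := by decide
theorem T11 : ∀ (i : Fin 12) (j : Fin 6),
    hxB (gT i j) (cT i j) = true ∧ hxB (gT i j) (cT i (j + 1)) = true := by decide
theorem T12 : ∀ (i : Fin 12) (j k : Fin 6), j ≠ k →
    ¬ (hxB (gT i k) (cT i j) = true ∧ hxB (gT i k) (cT i (j + 1)) = true) := by decide

/-- a frame of the flower `z` with the entry vertex `v` -/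
structure IsFr (z v w : P) (c g : Fin 6 → P) : Prop where
  vw : Nbr v w
  wc : Nbr w (c 0)
  cc : ∀ j, Nbr (c j) (c (j + 1))
  inj : ∀ j k, c j = c k → j = k
  hex : ∀ x, x ∈ hexagon z ↔ ∃ j, c j = x
  vz : v ∉ hexagon z
  wz : w ∉ hexagon z
  ge : ∀ j, Even ((g j).1 + (g j).2)
  gF : ∀ j, hexagon (g j) ⊆ Flower z
  vg : v ∈ hexagon (g 0)
  wg : w ∈ hexagon (g 0)
  vwg : ∀ j, j ≠ 0 → ¬ (v ∈ hexagon (g j) ∧ w ∈ hexagon (g j))
  cg : ∀ j, c j ∈ hexagon (g j) ∧ c (j + 1) ∈ hexagon (g j)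
  cgn : ∀ j k, j ≠ k → ¬ (c j ∈ hexagon (g k) ∧ c (j + 1) ∈ hexagon (g k))

theorem frame_of {z : P} (hz : Even (z.1 + z.2)) (i : Fin 12) :
    IsFr z (z + vT i) (z + wT i) (fun j => z + cT i j) (fun j => z + gT i j) := by
  have hz0 : ∀ v : P, z + v ∈ hexagon z ↔ hxB (0, 0) v = true := by
    intro v
    rw [← hxB_iff z (0, 0) v]
    have : z + (0, 0) = z := by
      ext <;> simp
    rw [this]
  refine ⟨(nbB_iff hz _ _).2 (T1 i), (nbB_iff hz _ _).2 (T2 i),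
    fun j => (nbB_iff hz _ _).2 (T3 i j), ?_, ?_, ?_, ?_, ?_, ?_, (hxB_iff _ _ _).2 (T9 i).1,
    (hxB_iff _ _ _).2 (T9 i).2, ?_, ?_, ?_⟩
  · intro j k h
    exact T4 i j k (add_left_cancel h)
  · intro x
    constructor
    · intro hx
      obtain ⟨h1, h2, h3, h4, h5, h6⟩ := T6 i
      unfold hexagon at hx
      rw [Set.mem_ofPred_eq] at hx
      have h7 : x.1 = z.1 ∨ x.1 = z.1 + 1 ∨ x.1 = z.1 + 2 := by omega
      have h8 : x.2 = z.2 ∨ x.2 = z.2 + 1 := by omega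
      have key : ∀ d : P, x.1 = z.1 + d.1 → x.2 = z.2 + d.2 → (∃ j, cT i j = d) →
          ∃ j, z + cT i j = x := by
        rintro d hd1 hd2 ⟨j, rfl⟩
        exact ⟨j, by ext <;> simp [hd1, hd2]⟩
      rcases h7 with h7 | h7 | h7 <;> rcases h8 with h8 | h8
      · exact key (0, 0) (by simpa using h7) (by simpa using h8) h1
      · exact key (0, 1) (by simpa using h7) (by simpa using h8) h4
      · exact key (1, 0) (by simpa using h7) (by simpa using h8) h2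
      · exact key (1, 1) (by simpa using h7) (by simpa using h8) h5
      · exact key (2, 0) (by simpa using h7) (by simpa using h8) h3
      · exact key (2, 1) (by simpa using h7) (by simpa using h8) h6
    · rintro ⟨j, rfl⟩
      exact (hz0 _).2 (T5 i j)
  · rw [hz0, (T7 i).1]
    simp
  · rw [hz0, (T7 i).2]
    simp
  · intro j
    rw [Int.even_iff] at hz ⊢
    rcases T8 i j with h | h | h | h | h | h <;> simp only [h, Prod.fst_add, Prod.snd_add] <;>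
      omega
  · intro j x hx
    refine ⟨_, ?_, hx⟩
    have e : z + gT i j = (z.1 + (gT i j).1, z.2 + (gT i j).2) := rfl
    rcases T8 i j with h | h | h | h | h | h
    · rw [e, h]
      exact Or.inr (Or.inl (Prod.ext (by dsimp only) (by dsimp only; omega)))
    · rw [e, h]
      exact Or.inr (Or.inr (Or.inl (Prod.ext (by dsimp only; omega) (by dsimp only; omega))))
    · rw [e, h]
      exact Or.inr (Or.inr (Or.inr (Or.inl (Prod.ext (by dsimp only) (by dsimp only)))))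
    · rw [e, h]
      exact Or.inr (Or.inr (Or.inr (Or.inr (Or.inl
        (Prod.ext (by dsimp only; omega) (by dsimp only))))))
    · rw [e, h]
      exact Or.inr (Or.inr (Or.inr (Or.inr (Or.inr (Or.inl
        (Prod.ext (by dsimp only) (by dsimp only; omega)))))))
    · rw [e, h]
      exact Or.inr (Or.inr (Or.inr (Or.inr (Or.inr (Or.inr
        (Prod.ext (by dsimp only; omega) (by dsimp only; omega)))))))
  · rintro j hj ⟨h1, h2⟩
    exact T10 i j hj ⟨(hxB_iff _ _ _).1 h1, (hxB_iff _ _ _).1 h2⟩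
  · intro j
    exact ⟨(hxB_iff _ _ _).2 (T11 i j).1, (hxB_iff _ _ _).2 (T11 i j).2⟩
  · rintro j k hjk ⟨h1, h2⟩
    exact T12 i j k hjk ⟨(hxB_iff _ _ _).1 h1, (hxB_iff _ _ _).1 h2⟩

/-- the entries of a flower -/
theorem entry {z v p : P} (hz : Even (z.1 + z.2)) (hv : v ∈ Flower z) (hp : p ∉ Flower z)
    (h : Nbr v p) : ∃ i : Fin 12, v = z + vT i := by
  have key : ∀ i : Fin 12, v.1 = z.1 + (vT i).1 → v.2 = z.2 + (vT i).2 →
      ∃ i : Fin 12, v = z + vT i := fun i h1 h2 => ⟨i, by ext <;> simp [h1, h2]⟩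
  rw [mem_flower] at hv hp
  unfold Nbr at h
  simp only [Int.even_iff] at hz h
  obtain ⟨v1, v2⟩ := v
  obtain ⟨z1, z2⟩ := z
  obtain ⟨p1, p2⟩ := p
  simp only at hv hp hz h key
  have h5 : v2 = z2 - 1 ∨ v2 = z2 ∨ v2 = z2 + 1 ∨ v2 = z2 + 2 := by omega
  have h6 : v1 = z1 - 2 ∨ v1 = z1 - 1 ∨ v1 = z1 ∨ v1 = z1 + 1 ∨ v1 = z1 + 2 ∨ v1 = z1 + 3 ∨
      v1 = z1 + 4 := by omega
  rcases h5 with h5 | h5 | h5 | h5
  · rcases h6 with h6 | h6 | h6 | h6 | h6 | h6 | h6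
    · exfalso; omega
    · exact key 2 (by rw [h6]; rfl) (by rw [h5]; rfl)
    · exact key 4 (by rw [h6]; exact (add_zero _).symm) (by rw [h5]; rfl)
    · exfalso; omega
    · exact key 6 (by rw [h6]; rfl) (by rw [h5]; rfl)
    · exact key 8 (by rw [h6]; rfl) (by rw [h5]; rfl)
    · exfalso; omega
  · rcases h6 with h6 | h6 | h6 | h6 | h6 | h6 | h6
    · exact key 0 (by rw [h6]; rfl) (by rw [h5]; exact (add_zero _).symm)
    · exfalso; omega
    · exfalso; omega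
    · exfalso; omega
    · exfalso; omega
    · exfalso; omega
    · exact key 10 (by rw [h6]; rfl) (by rw [h5]; exact (add_zero _).symm)
  · rcases h6 with h6 | h6 | h6 | h6 | h6 | h6 | h6
    · exact key 1 (by rw [h6]; rfl) (by rw [h5]; rfl)
    · exfalso; omega
    · exfalso; omega
    · exfalso; omega
    · exfalso; omega
    · exfalso; omega
    · exact key 11 (by rw [h6]; rfl) (by rw [h5]; rfl)
  · rcases h6 with h6 | h6 | h6 | h6 | h6 | h6 | h6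
    · exfalso; omega
    · exact key 3 (by rw [h6]; rfl) (by rw [h5]; rfl)
    · exact key 5 (by rw [h6]; exact (add_zero _).symm) (by rw [h5]; rfl)
    · exfalso; omega
    · exact key 7 (by rw [h6]; rfl) (by rw [h5]; rfl)
    · exact key 9 (by rw [h6]; rfl) (by rw [h5]; rfl)
    · exfalso; omega

theorem frame_exists {z v p : P} (hz : Even (z.1 + z.2)) (hv : v ∈ Flower z) (hp : p ∉ Flower z)
    (h : Nbr v p) : ∃ (w : P) (c g : Fin 6 → P), IsFr z v w c g := by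
  obtain ⟨i, rfl⟩ := entry hz hv hp h
  exact ⟨_, _, _, frame_of hz i⟩

end Q214.LO
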