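import Pool.Agent.Q214.LO.Lp

/-!
# Many disjoint regions in a box
-/

set_option autoImplicit false

namespace Q214.LO

open Finset
open scoped Classical

variable {D : Set P} {a b : P}

/-- the centres in the group `t` -/
def ctr (z : P) (s t : ℕ) (i : ℕ) : P :=
  (z.1 + 10 * ((i / s : ℕ) : ℤ) + (z.1 + z.2) % 2, z.2 + 6 * (((s * t + i % s : ℕ)) : ℤ))

theorem ctr_even (z : P) (s t i : ℕ) : Even ((ctr z s t i).1 + (ctr z s t i).2) := by
  rw [Int.even_iff]
  unfold ctr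
  simp only
  omega

theorem ctr_dis (z : P) {s t i j : ℕ} (hs : 0 < s) (hij : i ≠ j) {u : P}
    (hu : u ∈ RB (ctr z s t i)) : u ∉ RB (ctr z s t j) := by
  intro hu'
  unfold RB ctr at hu hu'
  simp only [Set.mem_ofPred_eq] at hu hu'
  have h1 : i / s = j / s := by
    have h2 : ((i / s : ℕ) : ℤ) = ((j / s : ℕ) : ℤ) := by omega
    exact_mod_cast h2
  have h3 : i % s = j % s := by
    have h4 : ((s * t + i % s : ℕ) : ℤ) = ((s * t + j % s : ℕ) : ℤ) := by omega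
    have h5 : s * t + i % s = s * t + j % s := by exact_mod_cast h4
    omega
  apply hij
  rw [← Nat.div_add_mod i s, ← Nat.div_add_mod j s, h1, h3]

/-- the part of the group `t` -/
theorem ctr_row (z : P) {s t i : ℕ} (hs : 0 < s) {u : P} (hu : u ∈ RB (ctr z s t i)) :
    z.2 + 6 * ((s * t : ℕ) : ℤ) - 1 ≤ u.2 ∧ u.2 ≤ z.2 + 6 * ((s * t + s : ℕ) : ℤ) - 3 := by
  unfold RB ctr at hu
  simp only [Set.mem_ofPred_eq] at hu
  have h1 : i % s < s := Nat.mod_lt _ hs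
  have h2 : ((s * t + i % s : ℕ) : ℤ) ≤ ((s * t + s : ℕ) : ℤ) - 1 := by
    have : s * t + i % s + 1 ≤ s * t + s := by omega
    have h3 : ((s * t + i % s + 1 : ℕ) : ℤ) ≤ ((s * t + s : ℕ) : ℤ) := by exact_mod_cast this
    push_cast at h3 ⊢
    omega
  have h4 : ((s * t : ℕ) : ℤ) ≤ ((s * t + i % s : ℕ) : ℤ) := by
    exact_mod_cast Nat.le_add_right _ _
  omega

theorem ctr_row_dis (z : P) {s t t' i i' : ℕ} (hs : 0 < s) (htt : t < t') {u : P}
    (hu : u ∈ RB (ctr z s t i)) (hu' : u ∈ RB (ctr z s t' i')) : False := by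
  have h1 := ctr_row z hs hu
  have h2 := ctr_row z hs hu'
  have h3 : s * t + s ≤ s * t' := by
    have : s * (t + 1) ≤ s * t' := Nat.mul_le_mul_left s htt
    rwa [Nat.mul_succ] at this
  have h4 : ((s * t + s : ℕ) : ℤ) ≤ ((s * t' : ℕ) : ℤ) := by exact_mod_cast h3
  omega

theorem ctr_box (z : P) {s t i : ℕ} (hs : 0 < s) (ht : t < 3) (hi : i < s * s) {u : P}
    (hu : u ∈ RB (ctr z s t i)) :
    (u.1 - z.1).natAbs ≤ 10 * s ∧ (u.2 - z.2).natAbs ≤ 18 * s := by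
  have h0 := ctr_row z hs hu
  have h1 : i / s < s := Nat.div_lt_of_lt_mul hi
  have h3 : s * t + s ≤ 3 * s := by
    have : s * (t + 1) ≤ s * 3 := Nat.mul_le_mul_left s ht
    rw [Nat.mul_succ] at this
    omega
  unfold RB ctr at hu
  simp only [Set.mem_ofPred_eq] at hu
  obtain ⟨q, hq⟩ : ∃ q, q = i / s := ⟨_, rfl⟩
  obtain ⟨r, hr⟩ : ∃ r, r = s * t := ⟨_, rfl⟩
  rw [← hq] at hu h1
  rw [← hr] at h0 h3
  push_cast at h0 hu
  constructor <;> omega

/-- a group without `a`, `b` -/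
theorem sites_exist (z : P) {s : ℕ} (hs : 0 < s)
    (h : ∀ u : P, (u.1 - z.1).natAbs ≤ 10 * s → (u.2 - z.2).natAbs ≤ 18 * s → u ∈ D) (a b : P) :
    ∃ Z : ℕ → P, SitesP D a b (s * s) Z := by
  have key : ∀ v : P, ∀ t t' i i', t ≠ t' → v ∈ RB (ctr z s t i) → v ∉ RB (ctr z s t' i') := by
    intro v t t' i i' htt h1 h2
    rcases lt_or_gt_of_ne htt with h3 | h3
    · exact ctr_row_dis z hs h3 h1 h2
    · exact ctr_row_dis z hs h3 h2 h1
  have hex : ∃ t < 3, ∀ i, a ∉ RB (ctr z s t i) ∧ b ∉ RB (ctr z s t i) := by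
    by_contra hc
    push Not at hc
    obtain ⟨i0, h0⟩ := hc 0 (by omega)
    obtain ⟨i1, h1⟩ := hc 1 (by omega)
    obtain ⟨i2, h2⟩ := hc 2 (by omega)
    by_cases a0 : a ∈ RB (ctr z s 0 i0)
    · have a1 := key a 0 1 i0 i1 (by omega) a0
      have a2 := key a 0 2 i0 i2 (by omega) a0
      exact key b 1 2 i1 i2 (by omega) (h1 a1) (h2 a2)
    · have b0 := h0 a0
      have b1 := key b 0 1 i0 i1 (by omega) b0
      have b2 := key b 0 2 i0 i2 (by omega) b0
      have a1 : a ∈ RB (ctr z s 1 i1) := by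
        by_contra h3
        exact b1 (h1 h3)
      have a2 : a ∈ RB (ctr z s 2 i2) := by
        by_contra h3
        exact b2 (h2 h3)
      exact key a 1 2 i1 i2 (by omega) a1 a2
  obtain ⟨t, ht, hab⟩ := hex
  refine ⟨ctr z s t, fun i _ => ctr_even z s t i, fun i hi u hu => ?_, fun i _ => (hab i).1,
    fun i _ => (hab i).2, fun i _ j _ hij u hu => ctr_dis z hs hij hu⟩
  obtain ⟨h1, h2⟩ := ctr_box z hs ht hi hu
  exact h u h1 h2

theorem flower_rb (z : P) : Flower z ⊆ RB z := by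
  intro u hu
  rw [mem_flower] at hu
  unfold RB
  rw [Set.mem_ofPred_eq]
  omega

theorem SitesP.toSites {m : ℕ} {Z : ℕ → P} (S : SitesP D a b m Z) : Sites D a b m Z :=
  ⟨S.ev, fun i hi => (flower_rb _).trans (S.sub i hi), fun i hi h => S.na i hi (flower_rb _ h),
    fun i hi h => S.nb i hi (flower_rb _ h),
    fun i hi j hj hij u hu hu' => S.dis i hi j hj hij u (flower_rb _ hu) (flower_rb _ hu')⟩

/-- **the joint law of the path and of the numbers of edges and of loops** -/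
theorem bulk_main (x n : ℝ) (hx : 0 < x) (hn : 0 < n) : ∃ C : ℝ, 0 < C ∧
    ∀ (D : Set P) (hD : D.Finite) (a b : P) (z : P) (s : ℕ), 
    (∀ u : P, (u.1 - z.1).natAbs ≤ 10 * s → (u.2 - z.2).natAbs ≤ 18 * s → u ∈ D) →
    ∀ U : Finset (Sym2 P) → ℕ → ℕ → Prop,
    |∑ ω ∈ TB D hD a b, wt x n ω * (if U (path a ω) (ω.card + 2) (loops ω) then 1 else 0) -
      ∑ ω ∈ TB D hD a b, wt x n ω * (if U (path a ω) ω.card (loops ω) then 1 else 0)| ≤
      C / ((s : ℝ) + 1) * ∑ ω ∈ TB D hD a b, wt x n ω ∧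
    |∑ ω ∈ TB D hD a b, wt x n ω * (if U (path a ω) ω.card (loops ω + 1) then 1 else 0) -
      ∑ ω ∈ TB D hD a b, wt x n ω * (if U (path a ω) ω.card (loops ω) then 1 else 0)| ≤
      C / ((s : ℝ) + 1) * ∑ ω ∈ TB D hD a b, wt x n ω := by
  obtain ⟨C1, hC1, h1⟩ := bulk x n hx hn
  obtain ⟨C2, hC2, h2⟩ := bulk2 x n hx hn
  refine ⟨2 * C1 + 6 * C2, by positivity, ?_⟩
  intro D hD a b z s hs U
  obtain ⟨W, hW⟩ : ∃ W, W = ∑ ω ∈ TB D hD a b, wt x n ω := ⟨_, rfl⟩
  have hW0 : 0 ≤ W := by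
    rw [hW]
    exact sum_nonneg fun ω _ => by unfold wt; positivity
  obtain ⟨Z, S⟩ : ∃ Z : ℕ → P, SitesP D a b (s * s) Z := by
    rcases Nat.eq_zero_or_pos s with rfl | h0
    · exact ⟨fun _ => (0, 0), fun i hi => absurd hi (by simp), fun i hi => absurd hi (by simp),
        fun i hi => absurd hi (by simp), fun i hi => absurd hi (by simp),
        fun i hi => absurd hi (by simp)⟩
    · exact sites_exist z h0 hs a b
  have hsq : ∀ C : ℝ, 0 < C → C / √(((s * s : ℕ) : ℝ) + 1) ≤ 2 * C / ((s : ℝ) + 1) := by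
    intro C hC
    have h3 : (0 : ℝ) ≤ s := Nat.cast_nonneg _
    rw [div_le_div_iff₀ (by positivity) (by positivity)]
    have h4 : ((s : ℝ) + 1) ≤ 2 * √(((s * s : ℕ) : ℝ) + 1) := by
      have h5 : (s : ℝ) ≤ √(((s * s : ℕ) : ℝ) + 1) := by
        refine Real.le_sqrt_of_sq_le ?_
        push_cast
        nlinarith
      have h6 : (1 : ℝ) ≤ √(((s * s : ℕ) : ℝ) + 1) := by
        refine Real.one_le_sqrt.2 ?_
        have : (0 : ℝ) ≤ ((s * s : ℕ) : ℝ) := Nat.cast_nonneg _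
        linarith
      linarith
    calc C * ((s : ℝ) + 1) ≤ C * (2 * √(((s * s : ℕ) : ℝ) + 1)) :=
          mul_le_mul_of_nonneg_left h4 hC.le
      _ = _ := by ring
  obtain ⟨F, hF⟩ : ∃ F : (Finset (Sym2 P) → ℕ → ℕ → Prop) → ℝ, F = fun V =>
      ∑ ω ∈ TB D hD a b, wt x n ω * (if V (path a ω) ω.card (loops ω) then 1 else 0) := ⟨_, rfl⟩
  have g1 : ∀ V : Finset (Sym2 P) → ℕ → ℕ → Prop, |F (fun p l k => V p (l + 6) (k + 1)) - F V| ≤
      2 * C1 / ((s : ℝ) + 1) * W := by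
    intro V
    rw [hF, hW]
    exact (h1 D hD a b (s * s) Z S.toSites V).trans
      (mul_le_mul_of_nonneg_right (hsq C1 hC1) (hW ▸ hW0))
  have g2 : ∀ V : Finset (Sym2 P) → ℕ → ℕ → Prop, |F (fun p l k => V p (l + 2) k) - F V| ≤
      2 * C2 / ((s : ℝ) + 1) * W := by
    intro V
    rw [hF, hW]
    exact (h2 D hD a b (s * s) Z S V).trans
      (mul_le_mul_of_nonneg_right (hsq C2 hC2) (hW ▸ hW0))
  have e0 : ∀ c1 c2 : ℝ, 2 * c1 / ((s : ℝ) + 1) * W = c1 * (2 / ((s : ℝ) + 1) * W) := fun c1 _ => by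
    ring
  have hX : 0 ≤ 2 / ((s : ℝ) + 1) * W := by positivity
  rw [← hW]
  constructor
  · have h3 := g2 U
    rw [hF] at h3
    refine h3.trans ?_
    rw [e0 C2 0]
    calc C2 * (2 / ((s : ℝ) + 1) * W) ≤ (C1 + 3 * C2) * (2 / ((s : ℝ) + 1) * W) :=
          mul_le_mul_of_nonneg_right (by linarith) hX
      _ = _ := by ring
  · have k1 := g1 (fun p l k => U p (l - 6) k)
    have k2 := g2 (fun p l k => U p (l - 6) k)
    have k3 := g2 (fun p l k => U p (l - 4) k)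
    have k4 := g2 (fun p l k => U p (l - 2) k)
    have e1 : (fun (p : Finset (Sym2 P)) (l k : ℕ) => U p (l + 6 - 6) (k + 1)) =
        fun p l k => U p l (k + 1) := by
      funext p l k
      rw [Nat.add_sub_cancel]
    have e2 : (fun (p : Finset (Sym2 P)) (l k : ℕ) => U p (l + 2 - 6) k) =
        fun p l k => U p (l - 4) k := by
      funext p l k
      congr 1
    have e3 : (fun (p : Finset (Sym2 P)) (l k : ℕ) => U p (l + 2 - 4) k) =
        fun p l k => U p (l - 2) k := by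
      funext p l k
      congr 1
    have e4 : (fun (p : Finset (Sym2 P)) (l k : ℕ) => U p (l + 2 - 2) k) = U := by
      funext p l k
      rw [Nat.add_sub_cancel]
    rw [e1] at k1
    rw [e2] at k2
    rw [e3] at k3
    rw [e4] at k4
    have k5 : |F (fun p l k => U p l (k + 1)) - F U| ≤
        |F (fun p l k => U p l (k + 1)) - F (fun p l k => U p (l - 6) k)| +
        |F (fun p l k => U p (l - 4) k) - F (fun p l k => U p (l - 6) k)| +
        |F (fun p l k => U p (l - 2) k) - F (fun p l k => U p (l - 4) k)| +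
        |F U - F (fun p l k => U p (l - 2) k)| := by
      obtain ⟨A, hA⟩ : ∃ A, A = F (fun p l k => U p l (k + 1)) := ⟨_, rfl⟩
      obtain ⟨B6, hB6⟩ : ∃ A, A = F (fun p l k => U p (l - 6) k) := ⟨_, rfl⟩
      obtain ⟨B4, hB4⟩ : ∃ A, A = F (fun p l k => U p (l - 4) k) := ⟨_, rfl⟩
      obtain ⟨B2, hB2⟩ : ∃ A, A = F (fun p l k => U p (l - 2) k) := ⟨_, rfl⟩
      rw [← hA, ← hB6, ← hB4, ← hB2]
      have : A - F U = (A - B6) - (B4 - B6) - (B2 - B4) - (F U - B2) := by ring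
      rw [this]
      refine (abs_sub _ _).trans (add_le_add ((abs_sub _ _).trans (add_le_add
        (abs_sub _ _) le_rfl)) le_rfl)
    rw [e0 C1 0] at k1
    rw [e0 C2 0] at k2 k3 k4
    rw [hF] at k1 k2 k3 k4 k5
    refine k5.trans ?_
    calc _ ≤ C1 * (2 / ((s : ℝ) + 1) * W) + C2 * (2 / ((s : ℝ) + 1) * W) +
          C2 * (2 / ((s : ℝ) + 1) * W) + C2 * (2 / ((s : ℝ) + 1) * W) :=
          add_le_add (add_le_add (add_le_add k1 k2) k3) k4
      _ = _ := by ring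

end Q214.LO
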