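import Pool.Agent.Q214.LO.Blk

/-!
# The replacement of two edges of a loop by four
-/

set_option autoImplicit false

namespace Q214.LO

open Finset
open scoped Classical

variable {D : Set P} {a b : P} {ω : Finset (Sym2 P)}

/-- data of a replacement in a loop -/
structure RepL (D : Set P) (a b z : P) (c : Fin 6 → P) (ω : Finset (Sym2 P)) : Prop where
  cyc : Cyc z c
  cfg : Config D a b ω
  cfg' : Config D a b (tg z ω)
  st : St2 ω c
  iso : ∀ j : Fin 6, (j = 3 ∨ j = 4 ∨ j = 5) → ∀ u, s(c j, u) ∉ ω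
  na : a ∉ comp ω (c 0)
  nb : b ∉ comp ω (c 0)

variable {z : P} {c : Fin 6 → P}

theorem RepL.c1 (R : RepL D a b z c ω) : c 1 ∈ comp ω (c 0) :=
  comp_step (mem_comp_self _ _) R.st.1.1

theorem RepL.c2 (R : RepL D a b z c ω) : c 2 ∈ comp ω (c 0) := comp_step R.c1 R.st.1.2

theorem RepL.ne1 (R : RepL D a b z c ω) : c 1 ≠ a ∧ c 1 ≠ b :=
  ⟨fun h => R.na (h ▸ R.c1), fun h => R.nb (h ▸ R.c1)⟩

theorem RepL.nb1 (R : RepL D a b z c ω) {u : P} (hu : s(c 1, u) ∈ ω) : u = c 0 ∨ u = c 2 := by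
  rcases R.cfg.two R.ne1.1 R.ne1.2 (sw R.st.1.1) R.st.1.2 hu with h | h | h
  · have := R.cyc.inj _ _ h
    exact absurd this (by decide)
  · exact Or.inl h.symm
  · exact Or.inr h.symm

theorem RepL.edges (R : RepL D a b z c ω) {j : Fin 6} (hj : j = 2 ∨ j = 3 ∨ j = 4 ∨ j = 5) :
    s(c j, c (j + 1)) ∈ tg z ω := by
  rw [tg_st2 R.cyc R.st, mem_union]
  right
  simp only [mem_insert, mem_singleton]
  rcases hj with rfl | rfl | rfl | rfl
  · exact Or.inl rfl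
  · exact Or.inr (Or.inl rfl)
  · exact Or.inr (Or.inr (Or.inl rfl))
  · exact Or.inr (Or.inr (Or.inr rfl))

theorem RepL.mem_iff (R : RepL D a b z c ω) {u t : P} (hu : ∀ j, c j ≠ u) :
    s(u, t) ∈ tg z ω ↔ s(u, t) ∈ ω := by
  refine mem_tg_of_not fun h => ?_
  obtain ⟨j, hj⟩ := (R.cyc.hex u).1 ((mem_hexE R.cyc.ev).1 h).1
  exact hu j hj

theorem RepL.old (R : RepL D a b z c ω) {u t : P} (h : s(u, t) ∈ ω) (hu : u ≠ c 1)
    (ht : t ≠ c 1) : s(u, t) ∈ tg z ω := by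
  rw [tg_st2 R.cyc R.st, mem_union, mem_sdiff]
  left
  refine ⟨h, ?_⟩
  simp only [mem_insert, mem_singleton, Sym2.eq_iff]
  rintro ((⟨h1, h2⟩ | ⟨h1, h2⟩) | (⟨h1, h2⟩ | ⟨h1, h2⟩))
  · exact ht h2
  · exact hu h1
  · exact hu h1
  · exact ht h2

theorem RepL.others (R : RepL D a b z c ω) {j : Fin 6} (hj : j ≠ 1) :
    c j ∈ comp (tg z ω) (c 0) := by
  have e3 := R.edges (j := 3) (by tauto)
  have e2 := R.edges (j := 2) (by tauto)
  have e4 := R.edges (j := 4) (by tauto)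
  have e5 := R.edges (j := 5) (by tauto)
  have h0 := mem_comp_self (tg z ω) (c 0)
  have h5 : c 5 ∈ comp (tg z ω) (c 0) := comp_step h0 (sw e5)
  have h4 : c 4 ∈ comp (tg z ω) (c 0) := comp_step h5 (sw e4)
  have h3 : c 3 ∈ comp (tg z ω) (c 0) := comp_step h4 (sw e3)
  have h2 : c 2 ∈ comp (tg z ω) (c 0) := comp_step h3 (sw e2)
  fin_cases j
  · exact h0
  · exact absurd rfl hj
  · exact h2
  · exact h3
  · exact h4
  · exact h5

theorem RepL.bwd (R : RepL D a b z c ω) {u : P} (hu : u ∈ comp (tg z ω) (c 0)) :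
    (u = c 3 ∨ u = c 4 ∨ u = c 5) ∨ (u ∈ comp ω (c 0) ∧ u ≠ c 1) := by
  unfold comp at hu
  rw [Set.mem_ofPred_eq] at hu
  induction hu with
  | refl =>
    exact Or.inr ⟨mem_comp_self _ _, fun h => absurd (R.cyc.inj _ _ h) (by decide)⟩
  | @tail p q h1 h2 ih =>
    rw [tg_st2 R.cyc R.st, mem_union, mem_sdiff] at h2
    rcases h2 with ⟨h2, h3⟩ | h2
    · right
      have hp : p ∈ comp ω (c 0) := by
        rcases ih with (rfl | rfl | rfl) | ih
        · exact absurd h2 (R.iso 3 (by tauto) q)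
        · exact absurd h2 (R.iso 4 (by tauto) q)
        · exact absurd h2 (R.iso 5 (by tauto) q)
        · exact ih.1
      refine ⟨comp_step hp h2, ?_⟩
      rintro rfl
      simp only [mem_insert, mem_singleton, not_or] at h3
      rcases R.nb1 (sw h2) with rfl | rfl
      · exact h3.1 rfl
      · exact h3.2 Sym2.eq_swap
    · have hq : q = c 0 ∨ q = c 2 ∨ q = c 3 ∨ q = c 4 ∨ q = c 5 := by
        simp only [mem_insert, mem_singleton, Sym2.eq_iff] at h2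
        tauto
      rcases hq with rfl | rfl | hq
      · exact Or.inr ⟨mem_comp_self _ _, fun h => absurd (R.cyc.inj _ _ h) (by decide)⟩
      · exact Or.inr ⟨R.c2, fun h => absurd (R.cyc.inj _ _ h) (by decide)⟩
      · exact Or.inl hq

theorem RepL.card (R : RepL D a b z c ω) : (tg z ω).card = ω.card + 2 := by
  rw [tg_st2 R.cyc R.st]
  exact card_swap R.cyc R.st.1.1 R.st.1.2 R.st.2.1 R.st.2.2.1 R.st.2.2.2.1 R.st.2.2.2.2

theorem not_isolated {ω' : Finset (Sym2 P)} {u v : P} (hu : u ∈ comp ω' v) (hne : u ≠ v) :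
    ∃ t, s(u, t) ∈ ω' := by
  have h5 := comp_symm hu
  unfold comp at h5
  rw [Set.mem_ofPred_eq] at h5
  rcases Relation.ReflTransGen.cases_head h5 with h6 | ⟨t, ht, -⟩
  · exact absurd h6 hne
  · exact ⟨t, ht⟩

theorem RepL.not_comp (R : RepL D a b z c ω) {u : P} (hu : u ∈ comp ω a) (j : Fin 6) :
    c j ≠ u := by
  rintro rfl
  have key : c j ∉ comp ω (c 0) := fun h => R.na (comp_trans h (comp_symm hu))
  have hiso : ∀ k : Fin 6, (k = 3 ∨ k = 4 ∨ k = 5) → j ≠ k := by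
    rintro k hk rfl
    by_cases hja : c j = a
    · obtain ⟨t, ht⟩ := R.cfg.end_exists (v := c j) (Or.inl hja)
      exact R.iso j hk t ht
    · obtain ⟨t, ht⟩ := not_isolated hu hja
      exact R.iso j hk t ht
  fin_cases j
  · exact key (mem_comp_self _ _)
  · exact key R.c1
  · exact key R.c2
  · exact hiso 3 (by tauto) rfl
  · exact hiso 4 (by tauto) rfl
  · exact hiso 5 (by tauto) rfl

theorem RepL.path_eq (R : RepL D a b z c ω) : path a (tg z ω) = path a ω := by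
  have hc : comp (tg z ω) a = comp ω a := comp_agree fun u hu t => (R.mem_iff (R.not_comp hu)).symm
  unfold path
  ext e
  induction e using Sym2.ind with
  | _ u t =>
    rw [mem_filter, mem_filter, hc]
    simp only [Sym2.mem_iff, forall_eq_or_imp, forall_eq]
    constructor
    · rintro ⟨h1, h2, h3⟩
      exact ⟨(R.mem_iff (R.not_comp h2)).1 h1, h2, h3⟩
    · rintro ⟨h1, h2, h3⟩
      exact ⟨(R.mem_iff (R.not_comp h2)).2 h1, h2, h3⟩

theorem deg_of_iso {ω' : Finset (Sym2 P)} {v : P} (h : ∀ u, s(v, u) ∉ ω') : deg ω' v = 0 := by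
  unfold deg
  have : {u : P | s(v, u) ∈ ω'} = ∅ := by
    ext u
    simp [h u]
  rw [this, Set.ncard_empty]

/-- a component without `a`, `b` whose vertices have edges is a loop -/
theorem mem_loops {ω' : Finset (Sym2 P)} (h : Config D a b ω') {v : P} (ha : a ∉ comp ω' v)
    (hb : b ∉ comp ω' v) (hv : ∃ t, s(v, t) ∈ ω') : comp ω' v ∈ Loops ω' := by
  refine ⟨v, rfl, fun u hu => ?_⟩
  have h1 : ∃ t, s(u, t) ∈ ω' := by
    by_cases huv : u = v
    · rw [huv]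
      exact hv
    · exact not_isolated hu huv
  obtain ⟨t, ht⟩ := h1
  rcases h.2.2.2 u (fun h2 => ha (h2 ▸ hu)) (fun h2 => hb (h2 ▸ hu)) with h3 | h3
  · exfalso
    rw [deg_eq (a := a) (b := b) h.1, card_eq_zero] at h3
    have h4 : t ∈ (nbF u).filter (fun x => s(u, x) ∈ ω') :=
      mem_filter.2 ⟨mem_nbF.2 (h.nbr ht), ht⟩
    rw [h3] at h4
    exact absurd h4 (notMem_empty _)
  · exact h3

theorem RepL.loops_card (R : RepL D a b z c ω) (hD : D.Finite) : loops (tg z ω) = loops ω := by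
  have hagree : ∀ u t, u ∉ Set.range c → (s(u, t) ∈ tg z ω ↔ s(u, t) ∈ ω) := fun u t hu =>
    R.mem_iff fun j hj => hu ⟨j, hj⟩
  have hA0 : comp ω (c 0) ∈ Loops ω := mem_loops R.cfg R.na R.nb ⟨_, R.st.1.1⟩
  have hne' : ∀ v : P, v = a ∨ v = b → v ∉ comp (tg z ω) (c 0) := by
    intro v hv h1
    rcases R.bwd h1 with h2 | h2
    · obtain ⟨t, ht⟩ := R.cfg.end_exists hv
      rcases h2 with rfl | rfl | rfl
      · exact R.iso 3 (by tauto) t ht
      · exact R.iso 4 (by tauto) t ht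
      · exact R.iso 5 (by tauto) t ht
    · rcases hv with rfl | rfl
      · exact R.na h2.1
      · exact R.nb h2.1
  have hA0' : comp (tg z ω) (c 0) ∈ Loops (tg z ω) :=
    mem_loops R.cfg' (hne' a (Or.inl rfl)) (hne' b (Or.inr rfl)) ⟨_, sw (R.edges (j := 5) (by tauto))⟩
  have hiso1 : ∀ u, s(c 1, u) ∉ tg z ω := by
    refine R.cfg'.iso R.ne1.1 R.ne1.2 (x := c 0) (y := c 2) ?_ (nbr_symm (R.cyc.cc 0))
      (R.cyc.cc 1) ?_ ?_
    · intro h
      exact absurd (R.cyc.inj _ _ h) (by decide)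
    · have h3 : s(c 0, c 1) ∉ tg z ω := by
        rw [mem_tg_of_mem ((mem_hexE' R.cyc).2 (by tauto))]
        exact fun h => h R.st.1.1
      intro h4
      exact h3 (sw h4)
    · rw [mem_tg_of_mem ((mem_hexE' R.cyc).2 (by tauto))]
      exact fun h => h R.st.1.2
  have hdeg : ∀ (ω' : Finset (Sym2 P)) (A : Set P), A ∈ Loops ω' → ∀ u ∈ A,
      ¬ ∀ t, s(u, t) ∉ ω' := by
    rintro ω' A ⟨v, rfl, h2⟩ u hu h
    have := h2 u hu
    rw [deg_of_iso h] at this
    exact absurd this (by decide)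
  have heq : ∀ (ω' : Finset (Sym2 P)) (A : Set P), A ∈ Loops ω' → ∀ u ∈ A,
      u ∈ comp ω' (c 0) → A = comp ω' (c 0) := by
    rintro ω' A ⟨v, rfl, h2⟩ u hu hu'
    rw [← comp_eq hu, comp_eq hu']
  have e : Loops (tg z ω) \ {comp (tg z ω) (c 0)} = Loops ω \ {comp ω (c 0)} := by
    ext A
    rw [Set.mem_diff, Set.mem_diff, Set.mem_singleton_iff, Set.mem_singleton_iff]
    constructor
    · rintro ⟨hA, hne⟩
      have hav : ∀ u ∈ A, u ∉ Set.range c := by
        rintro u hu ⟨j, rfl⟩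
        by_cases hj : j = 1
        · subst hj
          exact hdeg _ A hA _ hu hiso1
        · exact hne (heq _ A hA _ hu (R.others hj))
      refine ⟨loops_agree hagree hA hav, ?_⟩
      rintro rfl
      exact hav _ (mem_comp_self _ _) ⟨0, rfl⟩
    · rintro ⟨hA, hne⟩
      have hav : ∀ u ∈ A, u ∉ Set.range c := by
        rintro u hu ⟨j, rfl⟩
        have h1 := heq _ A hA _ hu
        have h2 := hdeg _ A hA _ hu
        fin_cases j
        · exact hne (h1 (mem_comp_self _ _))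
        · exact hne (h1 R.c1)
        · exact hne (h1 R.c2)
        · exact h2 (R.iso 3 (by tauto))
        · exact h2 (R.iso 4 (by tauto))
        · exact h2 (R.iso 5 (by tauto))
      refine ⟨loops_agree (fun u t hu => (hagree u t hu).symm) hA hav, ?_⟩
      rintro rfl
      exact hav _ (mem_comp_self _ _) ⟨0, rfl⟩
  have f1 := Set.ncard_diff_singleton_add_one hA0 (loops_finite hD R.cfg)
  have f2 := Set.ncard_diff_singleton_add_one hA0' (loops_finite hD R.cfg')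
  unfold loops
  rw [e] at f2
  omega

theorem RepL.wt_eq (R : RepL D a b z c ω) (hD : D.Finite) (x n : ℝ) :
    wt x n (tg z ω) = x ^ 2 * wt x n ω := by
  unfold wt
  rw [R.loops_card hD, R.card, pow_add]
  ring

/-! ## the pattern -/

/-- the region of the pattern -/
def RB (z : P) : Set P :=
  {v | (z.1 - 2 ≤ v.1 ∧ v.1 ≤ z.1 + 6) ∧ (z.2 - 1 ≤ v.2 ∧ v.2 ≤ z.2 + 3)}

/-- the cycle of ten vertices around two hexagons -/
def rT : Fin 10 → ℤ × ℤ := ![(0, 0), (1, 0), (2, 0), (3, 0), (4, 0), (4, 1), (3, 1), (2, 1),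
  (1, 1), (0, 1)]

/-- the third hexagon -/
def kT : Fin 6 → ℤ × ℤ := ![(1, 1), (2, 1), (3, 1), (3, 2), (2, 2), (1, 2)]

/-- the hexagons which are resampled -/
def hT : Fin 11 → ℤ × ℤ := ![(2, 0), (-2, 0), (-1, -1), (1, -1), (-1, 1), (1, 1), (3, -1), (4, 0),
  (3, 1), (2, 2), (0, 2)]

/-- the edges which are prescribed -/
def pT : Fin 11 → ℤ × ℤ := ![(2, 0), (0, 0), (0, 0), (1, 0), (0, 1), (1, 1), (3, 0), (4, 0),
  (3, 1), (2, 2), (1, 2)]

def qT : Fin 11 → ℤ × ℤ := ![(2, 1), (0, 1), (1, 0), (2, 0), (1, 1), (2, 1), (4, 0), (4, 1),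
  (4, 1), (3, 2), (2, 2)]

theorem L1 : ∀ i : Fin 10, nbB (rT i) (rT (i + 1)) = true := by decide
theorem L2 : ∀ i : Fin 10, rT (i + 1) ≠ rT (i - 1) := by decide
theorem L3 : ∀ i : Fin 10, i - 1 + 1 = i := by decide
theorem L4 : ∀ j : Fin 6, nbB (kT j) (kT (j + 1)) = true := by decide
theorem L5 : ∀ j k : Fin 6, kT j = kT k → j = k := by decide
theorem L6 : ∀ j : Fin 6, hxB (1, 1) (kT j) = true := by decide
theorem L7 : (∃ j, kT j = (1, 1)) ∧ (∃ j, kT j = (2, 1)) ∧ (∃ j, kT j = (3, 1)) ∧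
    (∃ j, kT j = (1, 2)) ∧ (∃ j, kT j = (2, 2)) ∧ (∃ j, kT j = (3, 2)) := by decide
theorem L8 : ∀ k : Fin 11, ((hT k).1 + (hT k).2) % 2 = 0 ∧ (-2 ≤ (hT k).1 ∧ (hT k).1 ≤ 4) ∧
    (-1 ≤ (hT k).2 ∧ (hT k).2 ≤ 2) := by decide
theorem L9 : ∀ k : Fin 11, nbB (pT k) (qT k) = true ∧ hxB (hT k) (pT k) = true ∧
    hxB (hT k) (qT k) = true := by decide
theorem L10 : ∀ j k : Fin 11, j < k →
    ¬ (hxB (hT k) (pT j) = true ∧ hxB (hT k) (qT j) = true) := by decide
theorem L11 : ∀ i : Fin 10, (-2 ≤ (rT i).1 ∧ (rT i).1 ≤ 6) ∧ (-1 ≤ (rT i).2 ∧ (rT i).2 ≤ 3) := by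
  decide
theorem L12 : ∀ i : Fin 6, (-2 ≤ (kT i).1 ∧ (kT i).1 ≤ 6) ∧ (-1 ≤ (kT i).2 ∧ (kT i).2 ≤ 3) := by
  decide

theorem rb_add {z p : P} (h : (-2 ≤ p.1 ∧ p.1 ≤ 6) ∧ (-1 ≤ p.2 ∧ p.2 ≤ 3)) : z + p ∈ RB z := by
  unfold RB
  simp only [Set.mem_ofPred_eq, Prod.fst_add, Prod.snd_add]
  omega

/-- the good pattern -/
def Gp (z : P) (ω : Finset (Sym2 P)) : Prop :=
  (∀ i : Fin 10, i ≠ 6 → i ≠ 7 → s(z + rT i, z + rT (i + 1)) ∈ ω) ∧
    (St2 ω (fun j => z + kT j) ∨ St4 ω (fun j => z + kT j))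

theorem kcyc {z : P} (hz : Even (z.1 + z.2)) : Cyc (z + (1, 1)) (fun j => z + kT j) := by
  refine ⟨?_, fun j => (nbB_iff hz _ _).2 (L4 j), fun j k h => L5 j k (add_left_cancel h), ?_⟩
  · rw [Int.even_iff] at hz ⊢
    simp only [Prod.fst_add, Prod.snd_add]
    omega
  · intro x
    constructor
    · intro hx
      obtain ⟨h1, h2, h3, h4, h5, h6⟩ := L7
      unfold hexagon at hx
      simp only [Set.mem_ofPred_eq, Prod.fst_add, Prod.snd_add] at hx
      have h7 : x.1 = z.1 + 1 ∨ x.1 = z.1 + 2 ∨ x.1 = z.1 + 3 := by omega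
      have h8 : x.2 = z.2 + 1 ∨ x.2 = z.2 + 2 := by omega
      have key : ∀ d : P, x.1 = z.1 + d.1 → x.2 = z.2 + d.2 → (∃ j, kT j = d) →
          ∃ j, z + kT j = x := by
        rintro d hd1 hd2 ⟨j, rfl⟩
        exact ⟨j, by ext <;> simp [hd1, hd2]⟩
      rcases h7 with h7 | h7 | h7 <;> rcases h8 with h8 | h8
      · exact key (1, 1) h7 h8 h1
      · exact key (1, 2) h7 h8 h4
      · exact key (2, 1) h7 h8 h2
      · exact key (2, 2) h7 h8 h5
      · exact key (3, 1) h7 h8 h3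
      · exact key (3, 2) h7 h8 h6
    · rintro ⟨j, rfl⟩
      exact (hxB_iff z (1, 1) _).2 (L6 j)

theorem hex_rb {z : P} (k : Fin 11) : hexagon (z + hT k) ⊆ RB z := by
  intro x hx
  have h1 := (L8 k).2
  unfold hexagon at hx
  unfold RB
  simp only [Set.mem_ofPred_eq, Prod.fst_add, Prod.snd_add] at hx ⊢
  omega

theorem hex11_rb {z : P} : hexagon (z + (1, 1)) ⊆ RB z := by
  intro x hx
  unfold hexagon at hx
  unfold RB
  simp only [Set.mem_ofPred_eq, Prod.fst_add, Prod.snd_add] at hx ⊢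
  omega

/-- the pattern in the lower state gives a replacement -/
theorem gp_rep {z : P} (hz : Even (z.1 + z.2)) (h : Config D a b ω) (hD : RB z ⊆ D)
    (ha : a ∉ RB z) (hb : b ∉ RB z)
    (h1 : ∀ i : Fin 10, i ≠ 6 → i ≠ 7 → s(z + rT i, z + rT (i + 1)) ∈ ω)
    (h2 : St2 ω (fun j => z + kT j)) : RepL D a b (z + (1, 1)) (fun j => z + kT j) ω := by
  have hc := kcyc hz
  have hka : ∀ j, z + kT j ≠ a := fun j hj => ha (hj ▸ rb_add (L12 j))
  have hkb : ∀ j, z + kT j ≠ b := fun j hj => hb (hj ▸ rb_add (L12 j))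
  have hne : ∀ j k : Fin 6, j ≠ k → z + kT j ≠ z + kT k := fun j k hjk h3 =>
    hjk (L5 j k (add_left_cancel h3))
  have hiso : ∀ j : Fin 6, (j = 3 ∨ j = 4 ∨ j = 5) → ∀ u, s(z + kT j, u) ∉ ω := by
    rintro j (rfl | rfl | rfl)
    · exact h.iso (hka 3) (hkb 3) (x := z + kT 2) (y := z + kT 4) (hne _ _ (by decide))
        (nbr_symm (hc.cc 2)) (hc.cc 3) (fun h3 => h2.2.1 (sw h3)) h2.2.2.1
    · exact h.iso (hka 4) (hkb 4) (x := z + kT 3) (y := z + kT 5) (hne _ _ (by decide))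
        (nbr_symm (hc.cc 3)) (hc.cc 4) (fun h3 => h2.2.2.1 (sw h3)) h2.2.2.2.1
    · exact h.iso (hka 5) (hkb 5) (x := z + kT 4) (y := z + kT 0) (hne _ _ (by decide))
        (nbr_symm (hc.cc 4)) (hc.cc 5) (fun h3 => h2.2.2.2.1 (sw h3)) h2.2.2.2.2
  have hall : ∀ i : Fin 10, s(z + rT i, z + rT (i + 1)) ∈ ω := by
    intro i
    by_cases h6 : i = 6
    · subst h6
      exact sw h2.1.2
    · by_cases h7 : i = 7
      · subst h7
        exact sw h2.1.1
      · exact h1 i h6 h7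
  have hcl : ∀ u ∈ comp ω (z + kT 0), ∃ i : Fin 10, u = z + rT i := by
    intro u hu
    unfold comp at hu
    rw [Set.mem_ofPred_eq] at hu
    induction hu with
    | refl => exact ⟨8, rfl⟩
    | @tail p q h3 h4 ih =>
      obtain ⟨i, rfl⟩ := ih
      have hi1 := hall i
      have hi2 := hall (i - 1)
      rw [L3 i] at hi2
      have hia : z + rT i ≠ a := fun hj => ha (hj ▸ rb_add (L11 i))
      have hib : z + rT i ≠ b := fun hj => hb (hj ▸ rb_add (L11 i))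
      rcases h.two hia hib hi1 (sw hi2) h4 with h5 | h5 | h5
      · exact absurd (add_left_cancel h5) (L2 i)
      · exact ⟨_, h5.symm⟩
      · exact ⟨_, h5.symm⟩
  refine ⟨hc, h, ?_, h2, hiso, ?_, ?_⟩
  · exact tg_config hc.ev (hex11_rb.trans hD) (fun h3 => ha (hex11_rb h3))
      (fun h3 => hb (hex11_rb h3)) h
  · intro h3
    obtain ⟨i, hi⟩ := hcl a h3
    exact ha (hi ▸ rb_add (L11 i))
  · intro h3
    obtain ⟨i, hi⟩ := hcl b h3
    exact hb (hi ▸ rb_add (L11 i))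

/-- the sites -/
structure SitesP (D : Set P) (a b : P) (m : ℕ) (Z : ℕ → P) : Prop where
  ev : ∀ i < m, Even ((Z i).1 + (Z i).2)
  sub : ∀ i < m, RB (Z i) ⊆ D
  na : ∀ i < m, a ∉ RB (Z i)
  nb : ∀ i < m, b ∉ RB (Z i)
  dis : ∀ i < m, ∀ j < m, i ≠ j → ∀ u ∈ RB (Z i), u ∉ RB (Z j)

theorem L13 : ∀ i : Fin 10, i ≠ 6 → i ≠ 7 → ¬ (hxB (1, 1) (rT i) = true ∧
    hxB (1, 1) (rT (i + 1)) = true) := by decide

theorem gp_tg {z h : P} (hz : Even (z.1 + z.2)) (hh : Even (h.1 + h.2))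
    (hd : ∀ u ∈ hexagon h, u ∉ RB z) : (Gp z (tg h ω) ↔ Gp z ω) ∧
    (St4 (tg h ω) (fun j => z + kT j) ↔ St4 ω (fun j => z + kT j)) := by
  have k1 : ∀ u t, u ∈ RB z → (s(u, t) ∈ tg h ω ↔ s(u, t) ∈ ω) := fun u t hu =>
    mem_tg_of_not fun h1 => hd u ((mem_hexE hh).1 h1).1 hu
  have k2 : ∀ (j : Fin 6) t, s(z + kT j, t) ∈ tg h ω ↔ s(z + kT j, t) ∈ ω := fun j t =>
    k1 _ t (rb_add (L12 j))
  have k3 : ∀ (j : Fin 10) t, s(z + rT j, t) ∈ tg h ω ↔ s(z + rT j, t) ∈ ω := fun j t =>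
    k1 _ t (rb_add (L11 j))
  unfold Gp St2 St4
  simp only [k2, k3]
  exact ⟨trivial, trivial⟩

theorem gp_flip {z : P} (hz : Even (z.1 + z.2)) : (Gp z (tg (z + (1, 1)) ω) ↔ Gp z ω) := by
  have hc := kcyc hz
  have k3 : ∀ i : Fin 10, i ≠ 6 → i ≠ 7 → (s(z + rT i, z + rT (i + 1)) ∈ tg (z + (1, 1)) ω ↔
      s(z + rT i, z + rT (i + 1)) ∈ ω) := by
    intro i h6 h7
    refine mem_tg_of_not fun h1 => ?_
    have h2 := (mem_hexE hc.ev).1 h1
    exact L13 i h6 h7 ⟨(hxB_iff _ _ _).1 h2.1, (hxB_iff _ _ _).1 h2.2.1⟩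
  unfold Gp
  rw [st_tg' hc, st_tg hc, or_comm]
  exact and_congr_left' (forall_congr' fun i => forall_congr' fun h6 => forall_congr' fun h7 =>
    k3 i h6 h7)

theorem flips3 {m : ℕ} {Z : ℕ → P} (S : SitesP D a b m Z) (hD : D.Finite) (x n : ℝ) :
    Flips (TB D hD a b) (wt x n) (x ^ 2) m (fun i ω => Gp (Z i) ω)
      (fun i ω => St4 ω (fun j => Z i + kT j)) (fun i ω => tg (Z i + (1, 1)) ω) := by
  refine ⟨?_, ?_, ?_, ?_, ?_, ?_⟩
  · intro i hi ω hω _
    rw [mem_TB hD] at hω ⊢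
    exact tg_config (kcyc (S.ev i hi)).ev (hex11_rb.trans (S.sub i hi))
      (fun h1 => S.na i hi (hex11_rb h1)) (fun h1 => S.nb i hi (hex11_rb h1)) hω
  · intro i _ ω _ _
    exact tg_tg _ _
  · intro i hi ω _ _ j hj
    by_cases hji : j = i
    · subst hji
      exact gp_flip (S.ev j hj)
    · exact (gp_tg (S.ev j hj) (kcyc (S.ev i hi)).ev fun u hu hu' =>
        S.dis i hi j hj (Ne.symm hji) u (hex11_rb hu) hu').1
  · intro i hi ω _ _ j hj hji
    exact (gp_tg (S.ev j hj) (kcyc (S.ev i hi)).ev fun u hu hu' =>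
        S.dis i hi j hj (Ne.symm hji) u (hex11_rb hu) hu').2
  · intro i hi ω _ hG
    rw [st_tg (kcyc (S.ev i hi))]
    constructor
    · exact fun h => st_not h
    · intro h
      rcases hG.2 with h2 | h2
      · exact h2
      · exact absurd h2 h
  · intro i hi ω hω hG hs
    rw [mem_TB hD] at hω
    have h2 : St2 ω (fun j => Z i + kT j) := by
      rcases hG.2 with h2 | h2
      · exact h2
      · exact absurd h2 hs
    exact (gp_rep (S.ev i hi) hω (S.sub i hi) (S.na i hi) (S.nb i hi) hG.1 h2).wt_eq hD x n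

/-- the stages -/
def AP (z : P) (k : ℕ) (ω : Finset (Sym2 P)) : Prop :=
  ∀ j : Fin 11, j.val < k → (s(z + pT j, z + qT j) ∈ ω ↔ (1 ≤ j.val ∧ j.val ≤ 8))

def BP (z : P) (k : Fin 11) (ω : Finset (Sym2 P)) : Prop :=
  s(z + pT k, z + qT k) ∈ ω ↔ (1 ≤ k.val ∧ k.val ≤ 8)

theorem ap_gp {z : P} (hz : Even (z.1 + z.2)) (h : Config D a b ω)
    (ha : a ∉ RB z) (hb : b ∉ RB z) (hA : AP z 11 ω) : Gp z ω := by
  have e0 : s(z + (2, 0), z + (2, 1)) ∉ ω := fun h1 => by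
    have := (hA 0 (by decide)).1 h1
    exact absurd this (by decide)
  have e1 : s(z + (0, 0), z + (0, 1)) ∈ ω := (hA 1 (by decide)).2 (by decide)
  have e2 : s(z + (0, 0), z + (1, 0)) ∈ ω := (hA 2 (by decide)).2 (by decide)
  have e3 : s(z + (1, 0), z + (2, 0)) ∈ ω := (hA 3 (by decide)).2 (by decide)
  have e4 : s(z + (0, 1), z + (1, 1)) ∈ ω := (hA 4 (by decide)).2 (by decide)
  have e5 : s(z + (1, 1), z + (2, 1)) ∈ ω := (hA 5 (by decide)).2 (by decide)
  have e6 : s(z + (3, 0), z + (4, 0)) ∈ ω := (hA 6 (by decide)).2 (by decide)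
  have e7 : s(z + (4, 0), z + (4, 1)) ∈ ω := (hA 7 (by decide)).2 (by decide)
  have e8 : s(z + (3, 1), z + (4, 1)) ∈ ω := (hA 8 (by decide)).2 (by decide)
  have e9 : s(z + (2, 2), z + (3, 2)) ∉ ω := fun h1 => by
    have := (hA 9 (by decide)).1 h1
    exact absurd this (by decide)
  have e10 : s(z + (1, 2), z + (2, 2)) ∉ ω := fun h1 => by
    have := (hA 10 (by decide)).1 h1
    exact absurd this (by decide)
  have hra : ∀ p : P, (-2 ≤ p.1 ∧ p.1 ≤ 6) ∧ (-1 ≤ p.2 ∧ p.2 ≤ 3) → z + p ≠ a := fun p hp hj =>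
    ha (hj ▸ rb_add hp)
  have hrb : ∀ p : P, (-2 ≤ p.1 ∧ p.1 ≤ 6) ∧ (-1 ≤ p.2 ∧ p.2 ≤ 3) → z + p ≠ b := fun p hp hj =>
    hb (hj ▸ rb_add hp)
  have hN : ∀ p q : P, nbB p q = true → Nbr (z + p) (z + q) := fun p q hpq => (nbB_iff hz p q).2 hpq
  have hne : ∀ p q : P, p ≠ q → z + p ≠ z + q := fun p q hpq h1 => hpq (add_left_cancel h1)
  have f1 : s(z + (2, 0), z + (3, 0)) ∈ ω :=
    h.fork (hra _ (by decide)) (hrb _ (by decide)) (x := z + (1, 0)) (y := z + (2, 1))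
      (hne _ _ (by decide)) (hN _ _ (by decide)) (hN _ _ (by decide)) (hN _ _ (by decide))
      (hne _ _ (by decide)) (hne _ _ (by decide)) (sw e3) e0
  have f2 : s(z + (2, 1), z + (3, 1)) ∈ ω :=
    h.fork (hra _ (by decide)) (hrb _ (by decide)) (x := z + (1, 1)) (y := z + (2, 0))
      (hne _ _ (by decide)) (hN _ _ (by decide)) (hN _ _ (by decide)) (hN _ _ (by decide))
      (hne _ _ (by decide)) (hne _ _ (by decide)) (sw e5) (fun h1 => e0 (sw h1))
  have f3 : s(z + (3, 1), z + (3, 2)) ∉ ω := by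
    intro h1
    rcases h.two (hra (3, 1) (by decide)) (hrb (3, 1) (by decide)) (sw f2) e8 h1 with h2 | h2 | h2
    · exact hne _ _ (by decide) h2
    · exact hne _ _ (by decide) h2
    · exact hne _ _ (by decide) h2
  have f4 : s(z + (1, 1), z + (1, 2)) ∉ ω := by
    intro h1
    rcases h.two (hra (1, 1) (by decide)) (hrb (1, 1) (by decide)) (sw e4) e5 h1 with h2 | h2 | h2
    · exact hne _ _ (by decide) h2
    · exact hne _ _ (by decide) h2
    · exact hne _ _ (by decide) h2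
  refine ⟨?_, Or.inl ⟨⟨e5, f2⟩, f3, fun h1 => e9 (sw h1), fun h1 => e10 (sw h1),
    fun h1 => f4 (sw h1)⟩⟩
  intro i h6 h7
  fin_cases i
  · exact e2
  · exact e3
  · exact f1
  · exact e6
  · exact e7
  · exact sw e8
  · exact absurd rfl h6
  · exact absurd rfl h7
  · exact sw e4
  · exact sw e1

theorem resample3 {m : ℕ} {Z : ℕ → P} (S : SitesP D a b m Z) (hD : D.Finite) {x n : ℝ}
    (hx : 0 < x) (hn : 0 < n) {i : ℕ} (hi : i < m) (θ : ℝ) (hθ : 0 ≤ θ) :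
    ((1 + KK x n) ^ 11)⁻¹ * ∑ ω ∈ TB D hD a b, wt x n ω * θ ^ cnt (fun i ω => Gp (Z i) ω) i ω ≤
      ∑ ω ∈ (TB D hD a b).filter (Gp (Z i)),
        wt x n ω * θ ^ cnt (fun i ω => Gp (Z i) ω) i ω := by
  have hK := KK_pos hx hn
  have hw : ∀ ω, 0 ≤ wt x n ω := fun ω => by unfold wt; positivity
  obtain ⟨G, hG⟩ : ∃ G : ℕ → Finset (Sym2 P) → Prop, G = fun i ω => Gp (Z i) ω := ⟨_, rfl⟩
  rw [← hG]
  have hf : ∀ ω ∈ TB D hD a b, 0 ≤ wt x n ω * θ ^ cnt G i ω := fun ω _ =>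
    mul_nonneg (hw ω) (pow_nonneg hθ _)
  have hev := S.ev i hi
  have hhe : ∀ k : Fin 11, Even ((Z i + hT k).1 + (Z i + hT k).2) := by
    intro k
    have h1 := (L8 k).1
    rw [Int.even_iff] at hev ⊢
    simp only [Prod.fst_add, Prod.snd_add]
    omega
  have hm1 : ∀ k : Fin 11, s(Z i + pT k, Z i + qT k) ∈ hexE (Z i + hT k) := fun k =>
    (mem_hexE (hhe k)).2 ⟨(hxB_iff _ _ _).2 (L9 k).2.1, (hxB_iff _ _ _).2 (L9 k).2.2,
      (nbB_iff hev _ _).2 (L9 k).1⟩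
  have hm2 : ∀ j k : Fin 11, j < k → s(Z i + pT j, Z i + qT j) ∉ hexE (Z i + hT k) := by
    intro j k hjk h1
    have h2 := (mem_hexE (hhe k)).1 h1
    exact L10 j k hjk ⟨(hxB_iff _ _ _).1 h2.1, (hxB_iff _ _ _).1 h2.2.1⟩
  have hstage : ∀ k : ℕ, k ≤ 11 → ∑ ω ∈ TB D hD a b, wt x n ω * θ ^ cnt G i ω ≤
      (1 + KK x n) ^ k * ∑ ω ∈ (TB D hD a b).filter (AP (Z i) k),
        wt x n ω * θ ^ cnt G i ω := by
    intro k hk6
    induction k with
    | zero =>
      rw [pow_zero, one_mul]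
      refine le_of_eq (sum_congr ?_ fun _ _ => rfl)
      ext ω
      rw [mem_filter]
      exact ⟨fun h => ⟨h, fun j hj => absurd hj (Nat.not_lt_zero _)⟩, fun h => h.1⟩
    | succ k ih =>
      have hk : k < 11 := by omega
      have h1 := stage (TB D hD a b) (fun ω => wt x n ω * θ ^ cnt G i ω) hf
        (AP (Z i) k) (BP (Z i) ⟨k, hk⟩) (tg (Z i + hT ⟨k, hk⟩)) (KK x n) hK.le ?_ ?_
      · have e : (TB D hD a b).filter (AP (Z i) (k + 1)) =
            (TB D hD a b).filter (fun ω => AP (Z i) k ω ∧ BP (Z i) ⟨k, hk⟩ ω) := by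
          refine filter_congr fun ω _ => ?_
          constructor
          · exact fun h => ⟨fun j hj => h j (by omega), h ⟨k, hk⟩ (Nat.lt_succ_self k)⟩
          · rintro ⟨h2, h3⟩ j hj
            rcases Nat.lt_succ_iff_lt_or_eq.1 hj with h4 | h4
            · exact h2 j h4
            · have : j = ⟨k, hk⟩ := Fin.ext h4
              rw [this]
              exact h3
        rw [e, pow_succ, mul_assoc]
        exact (ih (by omega)).trans (mul_le_mul_of_nonneg_left h1 (by positivity))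
      · intro ω hω hA hB
        rw [mem_TB hD] at hω
        have hcf : Config D a b (tg (Z i + hT ⟨k, hk⟩) ω) := tg_config (hhe _)
          ((hex_rb _).trans (S.sub i hi)) (fun h1 => S.na i hi (hex_rb _ h1))
          (fun h1 => S.nb i hi (hex_rb _ h1)) hω
        refine ⟨(mem_TB hD).2 hcf, ?_, ?_, ?_⟩
        · intro j hj
          rw [mem_tg_of_not (hm2 j ⟨k, hk⟩ hj)]
          exact hA j hj
        · unfold BP at hB ⊢
          rw [mem_tg_of_mem (hm1 _)]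
          tauto
        · have hcn : cnt G i (tg (Z i + hT ⟨k, hk⟩) ω) = cnt G i ω := by
            unfold cnt
            congr 1
            refine filter_congr fun j hj => ?_
            rw [mem_range] at hj
            rw [hG]
            exact (gp_tg (S.ev j (by omega)) (hhe _) fun u hu hu' =>
              S.dis i hi j (by omega) (by omega) u (hex_rb _ hu) hu').1
          rw [hcn]
          have h4 := wt_tg hx hn hD (hhe ⟨k, hk⟩) ((hex_rb _).trans (S.sub i hi))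
            (fun h1 => S.na i hi (hex_rb _ h1)) (fun h1 => S.nb i hi (hex_rb _ h1)) hω
          calc wt x n ω * θ ^ cnt G i ω ≤
                (KK x n * wt x n (tg (Z i + hT ⟨k, hk⟩) ω)) * θ ^ cnt G i ω :=
                mul_le_mul_of_nonneg_right h4 (pow_nonneg hθ _)
            _ = _ := by ring
      · intro ω _ ω' _ _ _ _ _ h
        have h3 := congrArg (tg (Z i + hT ⟨k, hk⟩)) h
        rwa [tg_tg, tg_tg] at h3
  have h7 := hstage 11 le_rfl
  have hsub : ∑ ω ∈ (TB D hD a b).filter (AP (Z i) 11), wt x n ω * θ ^ cnt G i ω ≤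
      ∑ ω ∈ (TB D hD a b).filter (Gp (Z i)), wt x n ω * θ ^ cnt G i ω := by
    refine sum_le_sum_of_subset_of_nonneg ?_ fun ω hω _ => hf ω (mem_filter.1 hω).1
    intro ω hω
    rw [mem_filter] at hω ⊢
    exact ⟨hω.1, ap_gp hev ((mem_TB hD).1 hω.1) (S.na i hi) (S.nb i hi) hω.2⟩
  have h9 := h7.trans (mul_le_mul_of_nonneg_left hsub (by positivity))
  rw [inv_mul_le_iff₀ (by positivity)]
  exact h9

/-- **the bulk theorem for the number of edges** -/
theorem bulk2 (x n : ℝ) (hx : 0 < x) (hn : 0 < n) : ∃ C : ℝ, 0 < C ∧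
    ∀ (D : Set P) (hD : D.Finite) (a b : P) (m : ℕ) (Z : ℕ → P), SitesP D a b m Z →
    ∀ U : Finset (Sym2 P) → ℕ → ℕ → Prop,
    |∑ ω ∈ TB D hD a b, wt x n ω * (if U (path a ω) (ω.card + 2) (loops ω) then 1 else 0) -
      ∑ ω ∈ TB D hD a b, wt x n ω * (if U (path a ω) ω.card (loops ω) then 1 else 0)| ≤
      C / √((m : ℝ) + 1) * ∑ ω ∈ TB D hD a b, wt x n ω := by
  have hK := KK_pos hx hn
  have hq0 : 0 < ((1 + KK x n) ^ 11)⁻¹ := by positivity
  have hq1 : ((1 + KK x n) ^ 11)⁻¹ ≤ 1 := by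
    rw [inv_le_one₀ (by positivity)]
    exact one_le_pow₀ (by linarith)
  obtain ⟨C, hC, h⟩ := regular (x ^ 2) ((1 + KK x n) ^ 11)⁻¹ (by positivity) hq0 hq1 0
  refine ⟨C, hC, ?_⟩
  intro D hD a b m Z S U
  have hw : ∀ ω, 0 ≤ wt x n ω := fun ω => by unfold wt; positivity
  refine h (TB D hD a b) (wt x n) m (fun i ω => Gp (Z i) ω) (fun i ω => Gp (Z i) ω)
    (fun i ω => St4 ω (fun j => Z i + kT j)) (fun i ω => tg (Z i + (1, 1)) ω)
    (fun ω _ => hw ω) (flips3 S hD x n)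
    (fun i hi θ h0 h1 => resample3 S hD hx hn hi θ h0) (fun ω _ => le_rfl)
    (fun ω => if U (path a ω) ω.card (loops ω) then 1 else 0)
    (fun ω => if U (path a ω) (ω.card + 2) (loops ω) then 1 else 0)
    (fun ω => by split_ifs <;> norm_num) (fun ω => by split_ifs <;> norm_num) ?_
  intro i hi ω hω hG hs
  rw [mem_TB hD] at hω
  have h2 : St2 ω (fun j => Z i + kT j) := by
    rcases hG.2 with h2 | h2
    · exact h2
    · exact absurd h2 hs
  have R := gp_rep (S.ev i hi) hω (S.sub i hi) (S.na i hi) (S.nb i hi) hG.1 h2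
  simp only [R.path_eq, R.card, R.loops_card hD]

end Q214.LO
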