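import Pool.Agent.Q214.LO.Site
import Pool.Agent.Q214.LO.Abs

/-!
# The flips at the sites
-/

set_option autoImplicit false

namespace Q214.LO

open Finset
open scoped Classical

variable {D : Set P} {a b : P} {ω : Finset (Sym2 P)}

theorem chain_app {R : P → P → Prop} {A B : List P} {x : P} (h1 : (A ++ [x]).IsChain R)
    (h2 : (x :: B).IsChain R) : (A ++ x :: B).IsChain R := by
  rw [List.isChain_append] at h1 ⊢
  refine ⟨h1.1, h2, fun y hy t ht => ?_⟩
  simp only [List.head?_cons, Option.mem_def, Option.some.injEq] at ht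
  subst ht
  exact h1.2.2 y hy x (by simp)

theorem chain_old {A : List P} (hc : A.IsChain (fun p q => s(p, q) ∈ ω)) {ω' : Finset (Sym2 P)}
    (h : ∀ p ∈ A, ∀ q ∈ A, s(p, q) ∈ ω → s(p, q) ∈ ω') : A.IsChain (fun p q => s(p, q) ∈ ω') := by
  induction A with
  | nil => simp
  | cons x A ih =>
    rcases A with _ | ⟨y, A⟩
    · simp
    · rw [List.isChain_cons_cons] at hc ⊢
      exact ⟨h x (by simp) y (by simp) hc.1, ih hc.2 fun p hp q hq hpq =>
        h p (List.mem_cons_of_mem _ hp) q (List.mem_cons_of_mem _ hq) hpq⟩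

/-- the path through a good flower -/
theorem pth_st2 (hD : D.Finite) (hab : a ≠ b) (h : Config D a b ω) {i : ℕ} {v : P}
    {A B : List P} (S : Site D a b i ω v A B) (hi : 20 * (i + 1) + 10 ≤ lev a b)
    (hG : s(v, sw1 D a i v) ∈ ω) (h2 : St2 ω (sc D a i v)) :
    Rep D a b (cen D a i v) (sc D a i v) ω ∧ ∃ B', 
      pth ω a b = A ++ [v, sw1 D a i v, sc D a i v 0, sc D a i v 1] ++ sc D a i v 2 :: B' ∧
      pth (tg (cen D a i v) ω) a b = A ++ [v, sw1 D a i v, sc D a i v 0, sc D a i v 5,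
        sc D a i v 4, sc D a i v 3] ++ sc D a i v 2 :: B' := by
  have hfr := S.frame h
  have hz := (cen_spec S.vH).1.1
  have hzD := (cen_spec S.vH).1.2.1
  have hvF := cen_self S.vH
  have hfol := S.fol hD hab h
  have hna := S.not_a
  have hnb := S.not_b hi
  have hAF : ∀ x ∈ A, x ∉ Flower (cen D a i v) := fun x hx hx' => S.av x hx (cen_sub S.vH hx')
  change IsFr (cen D a i v) v (sw1 D a i v) (sc D a i v) (sg D a i v) at hfr
  obtain ⟨A', p, eA, hpv, hpF⟩ := S.prv
  generalize sw1 D a i v = w at *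
  generalize sc D a i v = c at *
  generalize sg D a i v = g at *
  generalize cen D a i v = z at *
  have hcyc : Cyc z c := ⟨hz, hfr.cc, hfr.inj, hfr.hex⟩
  have hcz : ∀ j, c j ∈ hexagon z := fun j => (hfr.hex _).2 ⟨j, rfl⟩
  have hcF : ∀ j, c j ∈ Flower z := fun j => hexagon_sub_flower z (hcz j)
  have hwF : w ∈ Flower z := hfr.gF 0 hfr.wg
  have hca : ∀ j, c j ≠ a := fun j hj => hna (hj ▸ hcF j)
  have hcb : ∀ j, c j ≠ b := fun j hj => hnb (hj ▸ hcF j)
  have hwc : ∀ j, w ≠ c j := fun j hj => hfr.wz (hj ▸ hcz j)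
  have hvc : ∀ j, v ≠ c j := fun j hj => hfr.vz (hj ▸ hcz j)
  have hcfg' : Config D a b (tg z ω) := tg_config hz ((hexagon_sub_flower z).trans hzD)
    (fun h1 => hna (hexagon_sub_flower z h1)) (fun h1 => hnb (hexagon_sub_flower z h1)) h
  have hne : ∀ j k : Fin 6, j ≠ k → c j ≠ c k := fun j k hjk h1 => hjk (hfr.inj _ _ h1)
  -- the edge from w
  have hw0 : s(w, c 0) ∈ ω := by
    have : s(c 0, w) ∈ ω := by
      refine h.fork (hca 0) (hcb 0) (x := c 1) (y := c 5) (hne _ _ (by decide)) (hfr.cc 0)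
        (nbr_symm (hfr.cc 5)) (nbr_symm hfr.wc) (hwc 1) (hwc 5) h2.1.1 ?_
      intro h3
      exact h2.2.2.2.2 (sw h3)
    exact sw this
  -- isolated
  have hiso : ∀ j : Fin 6, (j = 3 ∨ j = 4 ∨ j = 5) → ∀ u, s(c j, u) ∉ ω := by
    rintro j (rfl | rfl | rfl)
    · refine h.iso (hca 3) (hcb 3) (x := c 2) (y := c 4) (hne _ _ (by decide))
        (nbr_symm (hfr.cc 2)) (hfr.cc 3) (fun h3 => h2.2.1 (sw h3)) h2.2.2.1
    · refine h.iso (hca 4) (hcb 4) (x := c 3) (y := c 5) (hne _ _ (by decide))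
        (nbr_symm (hfr.cc 3)) (hfr.cc 4) (fun h3 => h2.2.2.1 (sw h3)) h2.2.2.2.1
    · refine h.iso (hca 5) (hcb 5) (x := c 4) (y := c 0) (hne _ _ (by decide))
        (nbr_symm (hfr.cc 4)) (hfr.cc 5) (fun h3 => h2.2.2.2.1 (sw h3)) h2.2.2.2.2
  have hvw : v ≠ w := h.ne hG
  have hAn : ∀ x, x ∈ Flower z → x ∉ A := fun x hx hx' => hAF x hx' hx
  -- the chain
  have f1 : Fol ω a (A ++ [v, w, c 0, c 1, c 2]) := by
    refine ⟨?_, ?_, ?_⟩
    · rw [← hfol.1, eA]
      rcases A' with _ | ⟨q, A'⟩ <;> rfl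
    · rw [List.nodup_append]
      refine ⟨(List.nodup_append.1 hfol.2.1).1, ?_, ?_⟩
      · simp only [List.nodup_cons, List.mem_cons, List.not_mem_nil, or_false, not_or,
          not_false_eq_true, List.nodup_nil, and_true]
        exact ⟨⟨hvw, hvc 0, hvc 1, hvc 2⟩, ⟨hwc 0, hwc 1, hwc 2⟩, ⟨hne _ _ (by decide),
          hne _ _ (by decide)⟩, hne _ _ (by decide)⟩
      · rintro x hx y hy rfl
        simp only [List.mem_cons, List.not_mem_nil, or_false] at hy
        rcases hy with rfl | rfl | rfl | rfl | rfl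
        · exact hAn _ hvF hx
        · exact hAn _ hwF hx
        · exact hAn _ (hcF 0) hx
        · exact hAn _ (hcF 1) hx
        · exact hAn _ (hcF 2) hx
    · refine chain_app hfol.2.2 ?_
      simp only [List.isChain_cons_cons, List.isChain_singleton, and_true]
      exact ⟨hG, hw0, h2.1.1, h2.1.2⟩
  obtain ⟨B', hB'⟩ := fol_le_pth hab h (pth_spec hD hab h) f1
  have hpt : pth ω a b = A ++ [v, w, c 0, c 1] ++ c 2 :: B' := by
    rw [← hB']
    simp
  have hR : Rep D a b z c ω := by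
    refine ⟨hcyc, h, hcfg', h2, hiso, ?_⟩
    exact fol_comp f1 _ (by simp)
  refine ⟨hR, B', hpt, ?_⟩
  have hspec := pth_spec hD hab h
  rw [hpt] at hspec
  have hnd := hspec.1.2.1
  have hch := hspec.1.2.2
  -- the vertices of B' are not isolated
  have hlast : (c 2 :: B').getLast? = some b := by
    have h3 := hspec.2
    rw [List.getLast?_append] at h3
    have h4 : (c 2 :: B').getLast? ≠ none := by simp
    obtain ⟨y, hy⟩ := Option.ne_none_iff_exists'.1 h4
    rw [hy, Option.some_or] at h3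
    rw [hy, h3]
  have hB1 : ∀ j : Fin 6, (j = 3 ∨ j = 4 ∨ j = 5) → c j ∉ c 2 :: B' := by
    intro j hj hmem
    have h3 : c j ∈ comp ω a := fol_comp hspec.1 _ (by
      rw [List.mem_append]
      exact Or.inr hmem)
    -- a vertex of the component of `a` has an edge
    have h4 : ∃ u, s(c j, u) ∈ ω := by
      have h5 := comp_symm h3
      unfold comp at h5
      rw [Set.mem_ofPred_eq] at h5
      rcases Relation.ReflTransGen.cases_head h5 with h6 | ⟨u, hu, -⟩
      · exact absurd h6 (hca j)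
      · exact ⟨u, hu⟩
    obtain ⟨u, hu⟩ := h4
    exact hiso j hj u hu
  have hB2 : ∀ x ∈ A ++ [v, w, c 0, c 1], x ∉ c 2 :: B' := by
    intro x hx hx'
    rw [List.nodup_append] at hnd
    exact hnd.2.2 x hx x hx' rfl
  have hc1 : c 1 ∉ c 2 :: B' := hB2 _ (by simp)
  have hchB : (c 2 :: B').IsChain (fun p q => s(p, q) ∈ ω) := (List.isChain_append.1 hch).2.1
  have hchA : (A ++ [v, w, c 0]).IsChain (fun p q => s(p, q) ∈ ω) := by
    have : A ++ [v, w, c 0, c 1] ++ c 2 :: B' = (A ++ [v, w, c 0]) ++ (c 1 :: c 2 :: B') := by simp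
    rw [this] at hch
    exact (List.isChain_append.1 hch).1
  have hold : ∀ u t, s(u, t) ∈ ω → u ≠ c 1 → t ≠ c 1 → s(u, t) ∈ tg z ω := fun u t h3 h4 h5 =>
    hR.old h3 h4 h5
  have hchA' : (A ++ [v, w, c 0]).IsChain (fun p q => s(p, q) ∈ tg z ω) := by
    have hn : ∀ p ∈ A ++ [v, w, c 0], p ≠ c 1 := by
      rintro p hp rfl
      rw [List.mem_append] at hp
      rcases hp with hp | hp
      · exact hAn _ (hcF 1) hp
      · simp only [List.mem_cons, List.not_mem_nil, or_false] at hp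
        rcases hp with hp | hp | hp
        · exact hvc 1 hp.symm
        · exact hwc 1 hp.symm
        · exact hne 1 0 (by decide) hp
    exact chain_old hchA fun p hp q hq hpq => hold _ _ hpq (hn p hp) (hn q hq)
  have hchB' : (c 2 :: B').IsChain (fun p q => s(p, q) ∈ tg z ω) := by
    have hn : ∀ p ∈ c 2 :: B', p ≠ c 1 := by
      rintro p hp rfl
      exact hc1 hp
    exact chain_old hchB fun p hp q hq hpq => hold _ _ hpq (hn p hp) (hn q hq)
  refine pth_eq hD hab hcfg' ⟨⟨?_, ?_, ?_⟩, ?_⟩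
  · rw [← hfol.1, eA]
    rcases A' with _ | ⟨q, A'⟩ <;> rfl
  · rw [List.nodup_append] at hnd ⊢
    refine ⟨?_, hnd.2.1, ?_⟩
    · rw [List.nodup_append]
      refine ⟨(List.nodup_append.1 hfol.2.1).1, ?_, ?_⟩
      · simp only [List.nodup_cons, List.mem_cons, List.not_mem_nil, or_false, not_or,
          not_false_eq_true, List.nodup_nil, and_true]
        exact ⟨⟨hvw, hvc 0, hvc 5, hvc 4, hvc 3⟩, ⟨hwc 0, hwc 5, hwc 4, hwc 3⟩,
          ⟨hne _ _ (by decide), hne _ _ (by decide), hne _ _ (by decide)⟩,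
          ⟨hne _ _ (by decide), hne _ _ (by decide)⟩, hne _ _ (by decide)⟩
      · rintro x hx y hy rfl
        simp only [List.mem_cons, List.not_mem_nil, or_false] at hy
        rcases hy with rfl | rfl | rfl | rfl | rfl | rfl
        · exact hAn _ hvF hx
        · exact hAn _ hwF hx
        · exact hAn _ (hcF 0) hx
        · exact hAn _ (hcF 5) hx
        · exact hAn _ (hcF 4) hx
        · exact hAn _ (hcF 3) hx
    · rintro x hx y hy rfl
      rw [List.mem_append] at hx
      rcases hx with hx | hx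
      · exact hB2 x (by rw [List.mem_append]; exact Or.inl hx) hy
      · simp only [List.mem_cons, List.not_mem_nil, or_false] at hx
        rcases hx with rfl | rfl | rfl | rfl | rfl | rfl
        · exact hB2 _ (by simp) hy
        · exact hB2 _ (by simp) hy
        · exact hB2 _ (by simp) hy
        · exact hB1 5 (by tauto) hy
        · exact hB1 4 (by tauto) hy
        · exact hB1 3 (by tauto) hy
  · have e1 : A ++ [v, w, c 0, c 5, c 4, c 3] ++ c 2 :: B' =
        (A ++ [v, w]) ++ c 0 :: ([c 5, c 4, c 3] ++ c 2 :: B') := by simp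
    rw [e1]
    refine chain_app (by simpa using hchA') ?_
    have e5 := hR.edges (j := 5) (by tauto)
    have e4 := hR.edges (j := 4) (by tauto)
    have e3 := hR.edges (j := 3) (by tauto)
    have e2 := hR.edges (j := 2) (by tauto)
    simp only [List.cons_append, List.nil_append, List.isChain_cons_cons]
    exact ⟨sw e5, sw e4, sw e3, sw e2, hchB'⟩
  · rw [List.getLast?_append, hlast, Option.some_or]

theorem find_mid {H : Set P} {A M M' B : List P} (h1 : ∀ x ∈ M, x ∉ H) (h2 : ∀ x ∈ M', x ∉ H) :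
    (A ++ M ++ B).find? (fun v => decide (v ∈ H)) =
      (A ++ M' ++ B).find? (fun v => decide (v ∈ H)) := by
  rw [List.find?_append, List.find?_append, List.find?_append, List.find?_append]
  have e1 : M.find? (fun v => decide (v ∈ H)) = none := by
    rw [List.find?_eq_none]
    intro x hx
    simpa using h1 x hx
  have e2 : M'.find? (fun v => decide (v ∈ H)) = none := by
    rw [List.find?_eq_none]
    intro x hx
    simpa using h2 x hx
  rw [e1, e2]

/-- the flower of a site does not meet the other sites -/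
theorem flower_HH {i j : ℕ} (hij : j ≠ i) {v x : P} (h : v ∈ HH D a i)
    (hx : x ∈ Flower (cen D a i v)) : x ∉ HH D a j := by
  intro hx'
  have h1 := cen_lev h hx
  have h2 := cen_lev hx' (cen_self hx')
  omega

theorem hit_st2 (hD : D.Finite) (hab : a ≠ b) (h : Config D a b ω) {i : ℕ} {v : P}
    {A B : List P} (S : Site D a b i ω v A B) (hi : 20 * (i + 1) + 10 ≤ lev a b)
    (hG : s(v, sw1 D a i v) ∈ ω) (h2 : St2 ω (sc D a i v)) (j : ℕ) (hj : j ≠ i) :
    hit D a b j (tg (cen D a i v) ω) = hit D a b j ω := by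
  obtain ⟨-, B', e1, e2⟩ := pth_st2 hD hab h S hi hG h2
  have hfr := S.frame h
  change IsFr (cen D a i v) v (sw1 D a i v) (sc D a i v) (sg D a i v) at hfr
  have hcF : ∀ k, sc D a i v k ∉ HH D a j := fun k => flower_HH hj S.vH
    (hexagon_sub_flower _ ((hfr.hex _).2 ⟨k, rfl⟩))
  have hwF : sw1 D a i v ∉ HH D a j := flower_HH hj S.vH (hfr.gF 0 hfr.wg)
  have hvF : v ∉ HH D a j := flower_HH hj S.vH (cen_self S.vH)
  unfold hit
  rw [e1, e2]
  refine find_mid ?_ ?_
  · intro x hx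
    simp only [List.mem_cons, List.not_mem_nil, or_false] at hx
    rcases hx with rfl | rfl | rfl | rfl | rfl | rfl <;> first | exact hvF | exact hwF | exact hcF _
  · intro x hx
    simp only [List.mem_cons, List.not_mem_nil, or_false] at hx
    rcases hx with rfl | rfl | rfl | rfl <;> first | exact hvF | exact hwF | exact hcF _

/-- a change in the hexagons of the flower -/
theorem site_tg (hD : D.Finite) (hab : a ≠ b) (h : Config D a b ω) {i : ℕ} {v : P}
    {A B : List P} (S : Site D a b i ω v A B) (hi : 20 * (i + 1) + 10 ≤ lev a b) {k : P}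
    (hk : Even (k.1 + k.2)) (hkF : hexagon k ⊆ Flower (cen D a i v)) :
    Config D a b (tg k ω) ∧ ∃ B', Site D a b i (tg k ω) v A B' := by
  have h1 : Config D a b (tg k ω) := tg_config hk (hkF.trans (cen_spec S.vH).1.2.1)
    (fun h1 => S.not_a (hkF h1)) (fun h1 => S.not_b hi (hkF h1)) h
  refine ⟨h1, S.agree hD hab h h1 fun u t hu => (mem_tg_of_not fun h2 => ?_).symm⟩
  exact hu (hkF ((mem_hexE hk).1 h2).1)

/-- the flip at a good site does not change the other hits -/
theorem hit_flip (hD : D.Finite) (hab : a ≠ b) (h : Config D a b ω) {i : ℕ} {v : P}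
    {A B : List P} (S : Site D a b i ω v A B) (hi : 20 * (i + 1) + 10 ≤ lev a b)
    (hG : Gd D a i v ω) (j : ℕ) :
    hit D a b j (tg (cen D a i v) ω) = hit D a b j ω := by
  have hz := (cen_spec S.vH).1.1
  obtain ⟨hcf, B', S'⟩ := site_tg hD hab h S hi hz (hexagon_sub_flower _)
  by_cases hj : j = i
  · subst hj
    rw [S.hit, S'.hit]
  · obtain ⟨hfr, -, h3, h4⟩ := hG
    have hcyc := hfr.cyc hz
    rcases h4 with h4 | h4
    · exact hit_st2 hD hab h S hi h3 h4 j hj
    · have h5 : s(v, sw1 D a i v) ∈ tg (cen D a i v) ω := by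
        rwa [mem_tg_of_not]
        exact fun h6 => hfr.vz ((mem_hexE hz).1 h6).1
      have h6 := hit_st2 hD hab hcf S' hi h5 ((st_tg' hcyc).2 h4) j hj
      rw [tg_tg] at h6
      exact h6.symm

/-- the sites -/
def Gi (D : Set P) (a b : P) (i : ℕ) (ω : Finset (Sym2 P)) : Prop :=
  ∃ v, hit D a b i ω = some v ∧ Gd D a i v ω

def Gi' (S : Finset P) (D : Set P) (a b : P) (i : ℕ) (ω : Finset (Sym2 P)) : Prop :=
  ∃ v, hit D a b i ω = some v ∧ Gd D a i v ω ∧ cen D a i v ∉ S

def Sti (D : Set P) (a b : P) (i : ℕ) (ω : Finset (Sym2 P)) : Prop :=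
  ∃ v, hit D a b i ω = some v ∧ St4 ω (sc D a i v)

noncomputable def fi (D : Set P) (a b : P) (i : ℕ) (ω : Finset (Sym2 P)) : Finset (Sym2 P) :=
  tg (cen D a i ((hit D a b i ω).getD (0, 0))) ω

theorem fi_eq {i : ℕ} {v : P} (h : hit D a b i ω = some v) :
    fi D a b i ω = tg (cen D a i v) ω := by
  unfold fi
  rw [h, Option.getD_some]

theorem gi_iff {i : ℕ} {v : P} (h : hit D a b i ω = some v) : Gi D a b i ω ↔ Gd D a i v ω := by
  unfold Gi
  constructor
  · rintro ⟨v', h1, h2⟩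
    rw [h, Option.some.injEq] at h1
    rwa [h1]
  · exact fun h1 => ⟨v, h, h1⟩

theorem gi'_iff {S : Finset P} {i : ℕ} {v : P} (h : hit D a b i ω = some v) :
    Gi' S D a b i ω ↔ Gd D a i v ω ∧ cen D a i v ∉ S := by
  unfold Gi'
  constructor
  · rintro ⟨v', h1, h2⟩
    rw [h, Option.some.injEq] at h1
    rwa [h1]
  · exact fun h1 => ⟨v, h, h1⟩

theorem sti_iff {i : ℕ} {v : P} (h : hit D a b i ω = some v) :
    Sti D a b i ω ↔ St4 ω (sc D a i v) := by
  unfold Sti
  constructor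
  · rintro ⟨v', h1, h2⟩
    rw [h, Option.some.injEq] at h1
    rwa [h1]
  · exact fun h1 => ⟨v, h, h1⟩

theorem gd_flip {i : ℕ} {v : P} (h : Gd D a i v ω) : Gd D a i v (tg (cen D a i v) ω) := by
  obtain ⟨hfr, h2, h3, h4⟩ := h
  have hz := (cen_spec h2).1.1
  refine ⟨hfr, h2, ?_, ?_⟩
  · rwa [mem_tg_of_not]
    exact fun h6 => hfr.vz ((mem_hexE hz).1 h6).1
  · rw [st_tg' (hfr.cyc hz), st_tg (hfr.cyc hz)]
    exact h4.symm

theorem gd_flip_iff {i : ℕ} {v : P} (h2 : v ∈ HH D a i) :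
    Gd D a i v (tg (cen D a i v) ω) ↔ Gd D a i v ω := by
  constructor
  · intro h
    have h1 := gd_flip h
    rwa [tg_tg] at h1
  · exact gd_flip

/-- all configurations -/
noncomputable def TT (D : Set P) (hD : D.Finite) (a b : P) : Finset (Finset (Sym2 P)) :=
  (hD.toFinset.sym2.powerset).filter (Config D a b)

theorem mem_TT (hD : D.Finite) : ω ∈ TT D hD a b ↔ Config D a b ω := by
  unfold TT
  rw [mem_filter, mem_powerset]
  refine ⟨fun h => h.2, fun h => ⟨?_, h⟩⟩
  intro e he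
  induction e using Sym2.ind with
  | _ u t =>
    rw [mk_mem_sym2_iff, hD.mem_toFinset, hD.mem_toFinset]
    exact (h.1 u t he).2

theorem flips (hD : D.Finite) (hF : Fat D) (hab : a ≠ b) (S : Finset P) (x n : ℝ) (m : ℕ)
    (hm : 20 * m + 10 ≤ lev a b ∨ m = 0) :
    Flips (TT D hD a b) (wt x n) (x ^ 2) m (Gi' S D a b) (Sti D a b) (fi D a b) := by
  have key : ∀ i < m, ∀ ω ∈ TT D hD a b, ∃ (v : P) (A B : List P), Site D a b i ω v A B ∧
      20 * (i + 1) + 10 ≤ lev a b ∧ Config D a b ω := by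
    intro i hi ω hω
    rw [mem_TT hD] at hω
    have h1 : 20 * (i + 1) + 10 ≤ lev a b := by omega
    obtain ⟨v, A, B, h2⟩ := site_exists hD hF hab hω h1
    exact ⟨v, A, B, h2, h1, hω⟩
  have hother : ∀ i < m, ∀ ω ∈ TT D hD a b, Gi' S D a b i ω → ∀ j < m, j ≠ i →
      ∀ v', hit D a b j ω = some v' → ∀ v, hit D a b i ω = some v → ∀ y ∈ hexagon (cen D a i v),
      y ∉ Flower (cen D a j v') := by
    intro i hi ω hω hG j hj hji v' hv' v hv y hy
    obtain ⟨v1, A, B, S1, -, -⟩ := key i hi ω hω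
    obtain ⟨v2, A2, B2, S2, -, -⟩ := key j hj ω hω
    rw [S1.hit, Option.some.injEq] at hv
    rw [S2.hit, Option.some.injEq] at hv'
    subst hv hv'
    exact flower_disjoint (Ne.symm hji) S1.vH S2.vH (hexagon_sub_flower _ hy)
  refine ⟨?_, ?_, ?_, ?_, ?_, ?_⟩
  · intro i hi ω hω hG
    obtain ⟨v, A, B, S1, h1, h2⟩ := key i hi ω hω
    rw [fi_eq S1.hit, mem_TT hD]
    exact (site_tg hD hab h2 S1 h1 (cen_spec S1.vH).1.1 (hexagon_sub_flower _)).1
  · intro i hi ω hω hG
    obtain ⟨v, A, B, S1, h1, h2⟩ := key i hi ω hω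
    obtain ⟨h3, B', S2⟩ := site_tg hD hab h2 S1 h1 (cen_spec S1.vH).1.1 (hexagon_sub_flower _)
    rw [fi_eq S1.hit, fi_eq S2.hit, tg_tg]
  · intro i hi ω hω hG j hj
    obtain ⟨v, A, B, S1, h1, h2⟩ := key i hi ω hω
    obtain ⟨v', A', B', S2, h3, -⟩ := key j hj ω hω
    have hGd := ((gi'_iff S1.hit).1 hG).1
    have hh := hit_flip hD hab h2 S1 h1 hGd j
    have hh' := S2.hit
    rw [fi_eq S1.hit, gi'_iff hh', gi'_iff (hh.trans hh')]
    by_cases hji : j = i
    · subst hji
      have : v' = v := by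
        have h4 := S1.hit
        rw [hh', Option.some.injEq] at h4
        exact h4
      subst this
      rw [gd_flip_iff S1.vH]
    · rw [gd_tg (cen_spec S1.vH).1.1 (hother i hi ω hω hG j hj hji v' hh' v S1.hit)]
  · intro i hi ω hω hG j hj hji
    obtain ⟨v, A, B, S1, h1, h2⟩ := key i hi ω hω
    obtain ⟨v', A', B', S2, h3, -⟩ := key j hj ω hω
    have hGd := ((gi'_iff S1.hit).1 hG).1
    have hh := hit_flip hD hab h2 S1 h1 hGd j
    have hh' := S2.hit
    rw [fi_eq S1.hit, sti_iff hh', sti_iff (hh.trans hh')]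
    have hfr := S2.frame h2
    have hz := (cen_spec S2.vH).1.1
    have ho := hother i hi ω hω hG j hj hji v' hh' v S1.hit
    refine (st2_tg_iff (cen_spec S1.vH).1.1 (hfr.cyc hz) fun k hk => ho _ hk ?_).2
    exact hexagon_sub_flower _ ((hfr.hex _).2 ⟨k, rfl⟩)
  · intro i hi ω hω hG
    obtain ⟨v, A, B, S1, h1, h2⟩ := key i hi ω hω
    obtain ⟨hfr, -, -, h4⟩ := ((gi'_iff S1.hit).1 hG).1
    have hh := hit_flip hD hab h2 S1 h1 ((gi'_iff S1.hit).1 hG).1 i
    have hcyc := hfr.cyc (cen_spec S1.vH).1.1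
    rw [fi_eq S1.hit, sti_iff S1.hit, sti_iff (hh.trans S1.hit), st_tg hcyc]
    constructor
    · exact fun h5 => st_not h5
    · intro h5
      rcases h4 with h4 | h4
      · exact h4
      · exact absurd h4 h5
  · intro i hi ω hω hG hs
    obtain ⟨v, A, B, S1, h1, h2⟩ := key i hi ω hω
    obtain ⟨hfr, -, h3, h4⟩ := ((gi'_iff S1.hit).1 hG).1
    rw [sti_iff S1.hit] at hs
    have h5 : St2 ω (sc D a i v) := by
      rcases h4 with h4 | h4
      · exact h4
      · exact absurd h4 hs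
    rw [fi_eq S1.hit]
    exact (pth_st2 hD hab h2 S1 h1 h3 h5).1.wt_eq x n

end Q214.LO
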