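import Pool.Agent.Q214.LO.Flip

/-!
# The sites of the path
-/

set_option autoImplicit false

namespace Q214.LO

open Finset
open scoped Classical

variable {D : Set P} {a b : P} {ω : Finset (Sym2 P)}

/-- the level of a vertex -/
def lev (a v : P) : ℕ := (v.1 - a.1).natAbs + (v.2 - a.2).natAbs

theorem lev_step {a u v : P} (h : Nbr u v) : lev a v ≤ lev a u + 1 := by
  unfold lev
  rcases h with ⟨h1, h2 | h2⟩ | ⟨h1, ⟨h2, -⟩ | ⟨h2, -⟩⟩ <;> omega

theorem lev_flower {a z u v : P} (hu : u ∈ Flower z) (hv : v ∈ Flower z) :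
    lev a v ≤ lev a u + 9 := by
  rw [mem_flower] at hu hv
  have h1 : (v.1 - a.1).natAbs ≤ (u.1 - a.1).natAbs + 6 := by
    rcases hu with hu | hu <;> rcases hv with hv | hv <;> omega
  have h2 : (v.2 - a.2).natAbs ≤ (u.2 - a.2).natAbs + 3 := by
    rcases hu with hu | hu <;> rcases hv with hv | hv <;> omega
  unfold lev
  omega

/-- unions of flowers -/
def Fat (D : Set P) : Prop :=
  ∀ v ∈ D, ∃ z : P, Even (z.1 + z.2) ∧ v ∈ Flower z ∧ Flower z ⊆ D

/-- the vertices of the flowers in `D` which meet the level `20 (i + 1)` -/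
def HH (D : Set P) (a : P) (i : ℕ) : Set P :=
  {v | ∃ z : P, (Even (z.1 + z.2) ∧ Flower z ⊆ D ∧ v ∈ Flower z) ∧
    ∃ u ∈ Flower z, lev a u = 20 * (i + 1)}

/-- the centre of the flower -/
noncomputable def cen (D : Set P) (a : P) (i : ℕ) (v : P) : P :=
  if h : v ∈ HH D a i then h.choose else (0, 0)

theorem cen_spec {i : ℕ} {v : P} (h : v ∈ HH D a i) :
    (Even ((cen D a i v).1 + (cen D a i v).2) ∧ Flower (cen D a i v) ⊆ D ∧
      v ∈ Flower (cen D a i v)) ∧ ∃ u ∈ Flower (cen D a i v), lev a u = 20 * (i + 1) := by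
  unfold cen
  rw [dif_pos h]
  exact h.choose_spec

theorem cen_sub {i : ℕ} {v : P} (h : v ∈ HH D a i) : Flower (cen D a i v) ⊆ HH D a i := by
  intro x hx
  obtain ⟨⟨h1, h2, -⟩, h3⟩ := cen_spec h
  exact ⟨_, ⟨h1, h2, hx⟩, h3⟩

theorem cen_lev {i : ℕ} {v x : P} (h : v ∈ HH D a i) (hx : x ∈ Flower (cen D a i v)) :
    20 * (i + 1) ≤ lev a x + 9 ∧ lev a x ≤ 20 * (i + 1) + 9 := by
  obtain ⟨-, u, hu, h3⟩ := cen_spec h
  rw [← h3]
  exact ⟨lev_flower hx hu, lev_flower hu hx⟩

theorem cen_self {i : ℕ} {v : P} (h : v ∈ HH D a i) : v ∈ Flower (cen D a i v) :=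
  (cen_spec h).1.2.2

/-- the frame -/
noncomputable def frm (z v : P) : P × (Fin 6 → P) × (Fin 6 → P) :=
  if h : ∃ f : P × (Fin 6 → P) × (Fin 6 → P), IsFr z v f.1 f.2.1 f.2.2 then h.choose
  else ((0, 0), fun _ => (0, 0), fun _ => (0, 0))

theorem frm_spec {z v p : P} (hz : Even (z.1 + z.2)) (hv : v ∈ Flower z) (hp : p ∉ Flower z)
    (h : Nbr v p) : IsFr z v (frm z v).1 (frm z v).2.1 (frm z v).2.2 := by
  have h1 : ∃ f : P × (Fin 6 → P) × (Fin 6 → P), IsFr z v f.1 f.2.1 f.2.2 := by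
    obtain ⟨w, c, g, h2⟩ := frame_exists hz hv hp h
    exact ⟨(w, c, g), h2⟩
  unfold frm
  rw [dif_pos h1]
  exact h1.choose_spec

/-- the first vertex of the path in `HH` -/
noncomputable def hit (D : Set P) (a b : P) (i : ℕ) (ω : Finset (Sym2 P)) : Option P :=
  (pth ω a b).find? (fun v => decide (v ∈ HH D a i))

theorem ivt {R : P → P → Prop} (hR : ∀ p q, R p q → Nbr p q) {a : P} (l : List P)
    (hc : l.IsChain R) {x y : P} (hx : l.head? = some x) (hy : l.getLast? = some y) (r : ℕ)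
    (h1 : lev a x ≤ r) (h2 : r ≤ lev a y) : ∃ u ∈ l, lev a u = r := by
  induction l generalizing x with
  | nil => simp at hx
  | cons x' l ih =>
    simp only [List.head?_cons, Option.some.injEq] at hx
    subst hx
    by_cases h3 : lev a x' = r
    · exact ⟨x', by simp, h3⟩
    · rcases l with _ | ⟨q, l⟩
      · simp only [List.getLast?_singleton, Option.some.injEq] at hy
        subst hy
        omega
      · rw [List.isChain_cons_cons] at hc
        have h4 := lev_step (a := a) (hR _ _ hc.1)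
        rw [List.getLast?_cons_cons] at hy
        obtain ⟨u, hu, hu'⟩ := ih hc.2 rfl hy (by omega)
        exact ⟨u, List.mem_cons_of_mem _ hu, hu'⟩

/-- the site number `i` of the path -/
structure Site (D : Set P) (a b : P) (i : ℕ) (ω : Finset (Sym2 P)) (v : P) (A B : List P) :
    Prop where
  pt : pth ω a b = A ++ v :: B
  av : ∀ x ∈ A, x ∉ HH D a i
  vH : v ∈ HH D a i
  prv : ∃ (A' : List P) (p : P), A = A' ++ [p] ∧ s(p, v) ∈ ω ∧ p ∉ Flower (cen D a i v)
  bef : ∀ j < i, ∃ x ∈ A, x ∈ HH D a j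

theorem find_app {H : Set P} {A B : List P} {v : P} (h1 : ∀ x ∈ A, x ∉ H) (h2 : v ∈ H) :
    (A ++ v :: B).find? (fun v => decide (v ∈ H)) = some v := by
  rw [List.find?_eq_some_iff_append]
  refine ⟨by simpa using h2, A, B, rfl, fun x hx => ?_⟩
  simpa using h1 x hx

theorem Site.hit {i : ℕ} {v : P} {A B : List P} (h : Site D a b i ω v A B) : hit D a b i ω = some v := by
  unfold Q214.LO.hit
  rw [h.pt]
  exact find_app h.av h.vH

theorem site_exists (hD : D.Finite) (hF : Fat D) (hab : a ≠ b) (h : Config D a b ω) {i : ℕ}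
    (hi : 20 * (i + 1) + 10 ≤ lev a b) : ∃ (v : P) (A B : List P), Site D a b i ω v A B := by
  have hp := pth_spec hD hab h
  have hc := hp.1.2.2
  have hR : ∀ p q : P, s(p, q) ∈ ω → Nbr p q := fun p q hpq => h.nbr hpq
  have hlev0 : lev a a = 0 := by
    unfold lev
    simp
  have hmem : ∀ (l : List P) (y : P), Fol ω a l → l.getLast? = some y → ∀ j : ℕ,
      20 * (j + 1) ≤ lev a y → ∃ u ∈ l, lev a u = 20 * (j + 1) ∧ u ∈ HH D a j := by
    intro l y hl hy j hj
    obtain ⟨u, hu, hu'⟩ := ivt hR l hl.2.2 hl.1 hy (20 * (j + 1)) (by omega) hj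
    obtain ⟨z, hz1, hz2, hz3⟩ := hF u (fol_mem h hab hl u hu)
    exact ⟨u, hu, hu', z, ⟨hz1, hz3, hz2⟩, u, hz2, hu'⟩
  obtain ⟨u, hu, -, huH⟩ := hmem _ b hp.1 hp.2 i (by omega)
  have hsome : ((pth ω a b).find? (fun v => decide (v ∈ HH D a i))).isSome := by
    rw [List.find?_isSome]
    exact ⟨u, hu, by simpa using huH⟩
  obtain ⟨v, hv⟩ := Option.isSome_iff_exists.1 hsome
  have hv2 := hv
  rw [List.find?_eq_some_iff_append] at hv
  obtain ⟨hvH, A, B, hAB, hA⟩ := hv
  have hvH' : v ∈ HH D a i := by simpa using hvH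
  have hA' : ∀ x ∈ A, x ∉ HH D a i := fun x hx => by simpa using hA x hx
  have hlv := cen_lev hvH' (cen_self hvH')
  have hfol : Fol ω a (A ++ [v]) := by
    refine fol_prefix hp.1 ⟨B, by rw [hAB]; simp⟩ (by simp)
  refine ⟨v, A, B, hAB, hA', hvH', ?_, ?_⟩
  · rcases List.eq_nil_or_concat' A with rfl | ⟨A', p, rfl⟩
    · exfalso
      have h1 := hfol.1
      simp only [List.nil_append, List.head?_cons, Option.some.injEq] at h1
      subst h1
      omega
    · refine ⟨A', p, rfl, ?_, fun h1 => hA' p (by simp) (cen_sub hvH' h1)⟩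
      have h1 := hfol.2.2
      rw [List.append_assoc, List.singleton_append] at h1
      exact chain_mid h1
  · intro j hj
    obtain ⟨x, hx, hx1, hx2⟩ := hmem _ v hfol (by simp) j (by omega)
    rw [List.mem_append, List.mem_singleton] at hx
    rcases hx with hx | rfl
    · exact ⟨x, hx, hx2⟩
    · omega

theorem Site.fol (hD : D.Finite) (hab : a ≠ b) (h : Config D a b ω) {i : ℕ} {v : P}
    {A B : List P} (S : Site D a b i ω v A B) : Fol ω a (A ++ [v]) := by
  refine fol_prefix (pth_spec hD hab h).1 ⟨B, by rw [S.pt]; simp⟩ (by simp)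

theorem Site.frame (h : Config D a b ω) {i : ℕ} {v : P}
    {A B : List P} (S : Site D a b i ω v A B) : IsFr (cen D a i v) v (frm (cen D a i v) v).1
      (frm (cen D a i v) v).2.1 (frm (cen D a i v) v).2.2 := by
  obtain ⟨A', p, -, h1, h2⟩ := S.prv
  exact frm_spec (cen_spec S.vH).1.1 (cen_self S.vH) h2 (h.nbr (sw h1))

theorem Site.not_a {i : ℕ} {v : P} {A B : List P} (S : Site D a b i ω v A B) :
    a ∉ Flower (cen D a i v) := by
  intro h1
  have h2 := cen_lev S.vH h1
  have hlev0 : lev a a = 0 := by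
    unfold lev
    simp
  omega

theorem Site.not_b {i : ℕ} {v : P} {A B : List P} (S : Site D a b i ω v A B)
    (hi : 20 * (i + 1) + 10 ≤ lev a b) : b ∉ Flower (cen D a i v) := by
  intro h1
  have h2 := cen_lev S.vH h1
  omega

theorem chain_transfer {R R' : P → P → Prop} (A : List P) (v : P)
    (h : ∀ p ∈ A, ∀ q, R p q → R' p q) (hc : (A ++ [v]).IsChain R) : (A ++ [v]).IsChain R' := by
  induction A with
  | nil => simp
  | cons x A ih =>
    rcases A with _ | ⟨y, A⟩
    · simp only [List.cons_append, List.nil_append, List.isChain_cons_cons,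
        List.isChain_singleton, and_true] at hc ⊢
      exact h x (by simp) _ hc
    · simp only [List.cons_append, List.isChain_cons_cons] at hc ih ⊢
      exact ⟨h x (by simp) _ hc.1, ih (fun p hp q hpq => h p (List.mem_cons_of_mem _ hp) q hpq) hc.2⟩

/-- changes inside the flower do not change the path before the flower -/
theorem Site.agree (hD : D.Finite) (hab : a ≠ b) (h : Config D a b ω) {i : ℕ} {v : P}
    {A B : List P} (S : Site D a b i ω v A B) {ω' : Finset (Sym2 P)} (h' : Config D a b ω')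
    (hag : ∀ u t, u ∉ Flower (cen D a i v) → (s(u, t) ∈ ω ↔ s(u, t) ∈ ω')) :
    ∃ B', Site D a b i ω' v A B' := by
  have h1 := S.fol hD hab h
  have hA : ∀ x ∈ A, x ∉ Flower (cen D a i v) := fun x hx hx' => S.av x hx (cen_sub S.vH hx')
  have h2 : Fol ω' a (A ++ [v]) := by
    refine ⟨h1.1, h1.2.1, chain_transfer A v (fun p hp q hpq => ?_) h1.2.2⟩
    exact (hag p q (hA p hp)).1 hpq
  obtain ⟨B', hB'⟩ := fol_le_pth hab h' (pth_spec hD hab h') h2
  obtain ⟨A', p, e1, e2, e3⟩ := S.prv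
  exact ⟨B', by rw [← hB']; simp, S.av, S.vH, ⟨A', p, e1, (hag _ _ e3).1 e2, e3⟩, S.bef⟩

theorem find_some_app {H : Set P} {A : List P} (h : ∃ x ∈ A, x ∈ H) (B B' : List P) :
    (A ++ B).find? (fun v => decide (v ∈ H)) = (A ++ B').find? (fun v => decide (v ∈ H)) := by
  rw [List.find?_append, List.find?_append]
  obtain ⟨x, hx, hxH⟩ := h
  have h1 : (A.find? (fun v => decide (v ∈ H))).isSome := by
    rw [List.find?_isSome]
    exact ⟨x, hx, by simpa using hxH⟩
  obtain ⟨y, hy⟩ := Option.isSome_iff_exists.1 h1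
  rw [hy, Option.some_or, Option.some_or]

theorem Site.hit_lt {i : ℕ} {v : P} {A B : List P} (S : Site D a b i ω v A B)
    {ω' : Finset (Sym2 P)} {B' : List P} (S' : Site D a b i ω' v A B') {j : ℕ} (hj : j < i) :
    Q214.LO.hit D a b j ω' = Q214.LO.hit D a b j ω := by
  unfold Q214.LO.hit
  rw [S.pt, S'.pt]
  exact find_some_app (S.bef j hj) _ _

/-- the flowers of different sites are disjoint -/
theorem flower_disjoint {i j : ℕ} (hij : i ≠ j) {v v' x : P} (h : v ∈ HH D a i)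
    (h' : v' ∈ HH D a j) (hx : x ∈ Flower (cen D a i v)) : x ∉ Flower (cen D a j v') := by
  intro hx'
  have h1 := cen_lev h hx
  have h2 := cen_lev h' hx'
  omega

theorem hexagon_sub_flower (z : P) : hexagon z ⊆ Flower z := fun _ hx => ⟨z, Or.inl rfl, hx⟩

/-- the abbreviations of the data of a site -/
noncomputable def sw1 (D : Set P) (a : P) (i : ℕ) (v : P) : P := (frm (cen D a i v) v).1
noncomputable def sc (D : Set P) (a : P) (i : ℕ) (v : P) : Fin 6 → P := (frm (cen D a i v) v).2.1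
noncomputable def sg (D : Set P) (a : P) (i : ℕ) (v : P) : Fin 6 → P := (frm (cen D a i v) v).2.2

/-- the pattern is good -/
def Gd (D : Set P) (a : P) (i : ℕ) (v : P) (ω : Finset (Sym2 P)) : Prop :=
  IsFr (cen D a i v) v (sw1 D a i v) (sc D a i v) (sg D a i v) ∧ v ∈ HH D a i ∧
    s(v, sw1 D a i v) ∈ ω ∧ (St2 ω (sc D a i v) ∨ St4 ω (sc D a i v))

theorem IsFr.cyc {z v w : P} {c g : Fin 6 → P} (h : IsFr z v w c g) (hz : Even (z.1 + z.2)) :
    Cyc z c := ⟨hz, h.cc, h.inj, h.hex⟩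

theorem st2_tg_iff {z h : P} (hh : Even (h.1 + h.2)) {c : Fin 6 → P} (hc : Cyc z c)
    (hd : ∀ j, c j ∉ hexagon h) : (St2 (tg h ω) c ↔ St2 ω c) ∧ (St4 (tg h ω) c ↔ St4 ω c) := by
  have key : ∀ j k, s(c j, c k) ∈ tg h ω ↔ s(c j, c k) ∈ ω := fun j k =>
    mem_tg_of_not (fun h1 => hd j ((mem_hexE hh).1 h1).1)
  unfold St2 St4
  simp only [key]
  exact ⟨trivial, trivial⟩

/-- changes in a hexagon which does not meet the flower -/
theorem gd_tg {h : P} (hh : Even (h.1 + h.2)) {j : ℕ} {v : P}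
    (hd : ∀ x ∈ hexagon h, x ∉ Flower (cen D a j v)) :
    Gd D a j v (tg h ω) ↔ Gd D a j v ω := by
  unfold Gd
  constructor
  · rintro ⟨h1, h2, h3, h4⟩
    have hc := h1.cyc (cen_spec h2).1.1
    have h5 := st2_tg_iff (ω := ω) hh hc (fun k hk => hd _ hk (hexagon_sub_flower _
      ((h1.hex _).2 ⟨k, rfl⟩)))
    rw [h5.1, h5.2] at h4
    refine ⟨h1, h2, ?_, h4⟩
    rwa [mem_tg_of_not] at h3
    exact fun h6 => hd _ ((mem_hexE hh).1 h6).1 (cen_self h2)
  · rintro ⟨h1, h2, h3, h4⟩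
    have hc := h1.cyc (cen_spec h2).1.1
    have h5 := st2_tg_iff (ω := ω) hh hc (fun k hk => hd _ hk (hexagon_sub_flower _
      ((h1.hex _).2 ⟨k, rfl⟩)))
    rw [h5.1, h5.2]
    refine ⟨h1, h2, ?_, h4⟩
    rwa [mem_tg_of_not]
    exact fun h6 => hd _ ((mem_hexE hh).1 h6).1 (cen_self h2)

end Q214.LO
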